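import Pool.Agent.H22.Lh.Defs

/-!
# [H22 LH KRON] Kronecker's criterion

`b k = coeff (k+1) g`, `H M = det (b (i+j))_{i,j<M}`, `H 0 = 1`. If `H M = 0` for all `M ≥ m0`, let `M1`
be the largest `M` with `H M ≠ 0`. There are `c_0..c_{M1-1}` with `b(M1 + k) = ∑ c_i b(i+k)` for
`k = 0..M1-1` (the Hankel matrix of size `M1` is invertible); put `e k = b(M1+k) - ∑ c_i b(i+k)`, so
`e k = 0` for `k < M1`. If `e` is not identically `0` let `K ≥ M1` be minimal with `e K ≠ 0`. In the
matrix of size `K+1` replace row `r ≥ M1` by row `r - ∑ c_i row (r-M1+i)` (unitriangular row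
operations, e.g. multiply by a matrix of determinant 1): the new rows `t = r - M1 = 0..K-M1` have
entries `e(t+j)`, which vanish for `t + j < K`; the determinant is
`± H M1 * (e K)^(K+1-M1) ≠ 0`, contradiction as `K + 1 > M1`. So `e = 0` and
`B = X^(M1) ... ` : with `B = 1·X^0 - ∑ c_i X^(M1-i)` (reversed characteristic polynomial),
`B g` is a polynomial.
-/

namespace Pool.H22.Lh

open Polynomial MeasureTheory Metric

/-- a vanishing Hankel determinant gives a nonzero kernel vector, written as a sequence. -/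
private theorem hankel_ker {F : Type*} [Field F] (b : ℕ → F) (N : ℕ)
    (h : (Matrix.of fun i j : Fin N => b ((i : ℕ) + (j : ℕ))).det = 0) :
    ∃ v : ℕ → F, (∃ j, j < N ∧ v j ≠ 0) ∧ ∀ i < N, ∑ j ∈ Finset.range N, b (i + j) * v j = 0 := by
  classical
  obtain ⟨w, hw0, hw⟩ := Matrix.exists_mulVec_eq_zero_iff.mpr h
  refine ⟨fun j => if hj : j < N then w ⟨j, hj⟩ else 0, ?_, ?_⟩
  · by_contra hcon
    push Not at hcon
    apply hw0
    funext j
    have := hcon j j.2
    simpa using this
  · intro i hi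
    have h1 := congrFun hw ⟨i, hi⟩
    simp only [Matrix.mulVec, dotProduct, Matrix.of_apply, Pi.zero_apply] at h1
    rw [← h1, Finset.sum_range]
    refine Finset.sum_congr rfl fun j _ => ?_
    simp

/-- a nonvanishing Hankel determinant: the kernel is zero. -/
private theorem hankel_inj {F : Type*} [Field F] (b : ℕ → F) (N : ℕ)
    (h : (Matrix.of fun i j : Fin N => b ((i : ℕ) + (j : ℕ))).det ≠ 0) (v : ℕ → F)
    (hv : ∀ i < N, ∑ j ∈ Finset.range N, b (i + j) * v j = 0) : ∀ j < N, v j = 0 := by
  classical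
  intro j hj
  by_contra hne
  apply h
  rw [← Matrix.exists_mulVec_eq_zero_iff]
  refine ⟨fun j => v j, ?_, ?_⟩
  · intro h0
    exact hne (by simpa using congrFun h0 ⟨j, hj⟩)
  · funext i
    have h1 := hv i i.2
    rw [Finset.sum_range] at h1
    simpa [Matrix.mulVec, dotProduct, Matrix.of_apply] using h1

/-- a nonvanishing Hankel determinant: solving the linear system. -/
private theorem hankel_surj {F : Type*} [Field F] (b : ℕ → F) (N : ℕ)
    (h : (Matrix.of fun i j : Fin N => b ((i : ℕ) + (j : ℕ))).det ≠ 0) (y : ℕ → F) :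
    ∃ c : ℕ → F, ∀ k < N, ∑ j ∈ Finset.range N, b (k + j) * c j = y k := by
  classical
  have hu : IsUnit (Matrix.of fun i j : Fin N => b ((i : ℕ) + (j : ℕ))).det := isUnit_iff_ne_zero.mpr h
  let A := Matrix.of fun i j : Fin N => b ((i : ℕ) + (j : ℕ))
  have hA : A.mulVec (A⁻¹.mulVec fun k : Fin N => y (k : ℕ)) = fun k : Fin N => y (k : ℕ) := by
    rw [Matrix.mulVec_mulVec, Matrix.mul_nonsing_inv A hu, Matrix.one_mulVec]
  refine ⟨fun j => if hj : j < N then (A⁻¹.mulVec fun k : Fin N => y (k : ℕ)) ⟨j, hj⟩ else 0, ?_⟩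
  intro k hk
  have h1 := congrFun hA ⟨k, hk⟩
  rw [Matrix.mulVec, dotProduct] at h1
  rw [Finset.sum_range]
  rw [show y k = y (((⟨k, hk⟩ : Fin N) : ℕ)) from rfl, ← h1]
  refine Finset.sum_congr rfl fun j _ => ?_
  simp only [A, Matrix.of_apply, Fin.is_lt, dite_true, Fin.eta]

/-- all large Hankel determinants vanish: linear recurrence. -/
private theorem hankel_rec {F : Type*} [Field F] (b : ℕ → F) (m0 : ℕ)
    (h : ∀ m, m0 ≤ m → (Matrix.of fun i j : Fin m => b ((i : ℕ) + (j : ℕ))).det = 0) :
    ∃ (M : ℕ) (c : ℕ → F), ∀ k, b (M + k) = ∑ i ∈ Finset.range M, b (k + i) * c i := by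
  classical
  -- the largest M with nonzero determinant
  have hex : ∃ M, (Matrix.of fun i j : Fin M => b ((i : ℕ) + (j : ℕ))).det ≠ 0 ∧
      ∀ N, M < N → (Matrix.of fun i j : Fin N => b ((i : ℕ) + (j : ℕ))).det = 0 := by
    let S : Set ℕ := {M | (Matrix.of fun i j : Fin M => b ((i : ℕ) + (j : ℕ))).det ≠ 0}
    have hS0 : (0 : ℕ) ∈ S := by
      show (Matrix.of fun i j : Fin 0 => b ((i : ℕ) + (j : ℕ))).det ≠ 0
      simp
    have hbdd : BddAbove S := ⟨m0, fun M hM => by
      by_contra hlt
      exact hM (h M (by omega))⟩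
    refine ⟨sSup S, Nat.sSup_mem ⟨0, hS0⟩ hbdd, ?_⟩
    intro N hN
    by_contra hne
    exact absurd (le_csSup hbdd (show N ∈ S from hne)) (by omega)
  obtain ⟨M, hM, hN⟩ := hex
  obtain ⟨c, hc⟩ := hankel_surj b M hM (fun k => b (M + k))
  refine ⟨M, c, ?_⟩
  by_contra hcon
  push Not at hcon
  -- minimal counterexample
  let e : ℕ → F := fun k => b (M + k) - ∑ i ∈ Finset.range M, b (k + i) * c i
  have hcon' : ∃ k, e k ≠ 0 := by
    obtain ⟨k, hk⟩ := hcon
    exact ⟨k, sub_ne_zero.mpr hk⟩
  obtain ⟨K, hK, hmin⟩ : ∃ K, e K ≠ 0 ∧ ∀ k < K, e k = 0 := by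
    refine ⟨Nat.find hcon', Nat.find_spec hcon', fun k hk => ?_⟩
    simpa using Nat.find_min hcon' hk
  have hMK : M ≤ K := by
    by_contra hlt
    apply hK
    show b (M + K) - ∑ i ∈ Finset.range M, b (K + i) * c i = 0
    rw [hc K (by omega), sub_self]
  obtain ⟨v, ⟨j0, hj0, hvj0⟩, hv⟩ := hankel_ker b (K + 1) (hN (K + 1) (by omega))
  -- e-rows
  have hrow : ∀ t, t + M ≤ K → ∑ j ∈ Finset.range (K + 1), e (t + j) * v j = 0 := by
    intro t ht
    have h1 : ∑ j ∈ Finset.range (K + 1), e (t + j) * v j =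
        ∑ j ∈ Finset.range (K + 1), b ((M + t) + j) * v j -
          ∑ i ∈ Finset.range M, c i * ∑ j ∈ Finset.range (K + 1), b ((t + i) + j) * v j := by
      simp only [Finset.mul_sum]
      rw [Finset.sum_comm (s := Finset.range M)]
      rw [← Finset.sum_sub_distrib]
      refine Finset.sum_congr rfl fun j _ => ?_
      show (b (M + (t + j)) - ∑ i ∈ Finset.range M, b (t + j + i) * c i) * v j = _
      rw [sub_mul, Finset.sum_mul]
      congr 1
      · rw [show M + (t + j) = M + t + j by ring]
      · refine Finset.sum_congr rfl fun i _ => ?_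
        rw [show t + j + i = t + i + j by ring]
        ring
    rw [h1, hv (M + t) (by omega), zero_sub, neg_eq_zero]
    refine Finset.sum_eq_zero fun i hi => ?_
    have hi' := Finset.mem_range.mp hi
    rw [hv (t + i) (by omega), mul_zero]
  -- v vanishes from M on
  have hvM : ∀ t, t + M ≤ K → v (K - t) = 0 := by
    intro t
    induction t using Nat.strong_induction_on with
    | _ t ih =>
      intro ht
      have h1 := hrow t ht
      rw [Finset.sum_eq_single (K - t)] at h1
      · rw [show t + (K - t) = K by omega] at h1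
        exact (mul_eq_zero.mp h1).resolve_left hK
      · intro j hj hne
        have hj' := Finset.mem_range.mp hj
        rcases lt_or_gt_of_ne hne with hlt | hgt
        · rw [hmin (t + j) (by omega), zero_mul]
        · have h2 := ih (K - j) (by omega) (by omega)
          rw [show K - (K - j) = j by omega] at h2
          rw [h2, mul_zero]
      · intro hnot
        exact absurd (Finset.mem_range.mpr (by omega)) hnot
  have hvM' : ∀ j, M ≤ j → j ≤ K → v j = 0 := by
    intro j h1 h2
    have h3 := hvM (K - j) (by omega)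
    rwa [show K - (K - j) = j by omega] at h3
  have hv0 : ∀ j < M, v j = 0 := by
    refine hankel_inj b M hM v fun i hi => ?_
    have h1 := hv i (by omega)
    rw [← h1]
    refine Finset.sum_subset (Finset.range_mono (by omega)) fun j hj hnj => ?_
    have hj' := Finset.mem_range.mp hj
    have hnj' : M ≤ j := by
      by_contra hlt
      exact hnj (Finset.mem_range.mpr (by omega))
    rw [hvM' j hnj' (by omega), mul_zero]
  apply hvj0
  rcases lt_or_ge j0 M with hlt | hge
  · exact hv0 j0 hlt
  · exact hvM' j0 hge (by omega)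

theorem kron {F : Type*} [Field F] (g : PowerSeries F) (m0 : ℕ)
    (h : ∀ m, m0 ≤ m →
      (Matrix.of fun i j : Fin m => PowerSeries.coeff ((i : ℕ) + (j : ℕ) + 1) g).det = 0) :
    ∃ P B : F[X], B ≠ 0 ∧ (B : PowerSeries F) * g = (P : PowerSeries F) := by
  classical
  obtain ⟨M, c, hrec⟩ := hankel_rec (fun k => PowerSeries.coeff (k + 1) g) m0 h
  let B : F[X] := 1 - ∑ i ∈ Finset.range M, Polynomial.C (c i) * Polynomial.X ^ (M - i)
  refine ⟨PowerSeries.trunc (M + 1) ((B : PowerSeries F) * g), B, ?_, ?_⟩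
  · intro hB0
    have h0 : B.coeff 0 = 1 := by
      simp only [B, Polynomial.coeff_sub, Polynomial.coeff_one_zero, Polynomial.finsetSum_coeff,
        Polynomial.coeff_C_mul, Polynomial.coeff_X_pow]
      rw [Finset.sum_eq_zero, sub_zero]
      intro i hi
      have hi' := Finset.mem_range.mp hi
      rw [if_neg (by omega), mul_zero]
    rw [hB0] at h0
    simp at h0
  · ext n
    rw [Polynomial.coeff_coe, PowerSeries.coeff_trunc]
    split_ifs with hn
    · rfl
    · have hBc : (B : PowerSeries F) = 1 - ∑ i ∈ Finset.range M,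
          PowerSeries.C (c i) * PowerSeries.X ^ (M - i) := by
        simp only [B, ← Polynomial.coeToPowerSeries.ringHom_apply, map_sub, map_one, map_sum, map_mul,
          map_pow]
        simp only [Polynomial.coeToPowerSeries.ringHom_apply, Polynomial.coe_C, Polynomial.coe_X]
      rw [hBc, sub_mul, one_mul, Finset.sum_mul, map_sub, map_sum]
      have hn' : n = M + (n - M - 1) + 1 := by omega
      have h1 := hrec (n - M - 1)
      rw [show M + (n - M - 1) + 1 = n by omega] at h1
      rw [h1, sub_eq_zero]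
      refine Finset.sum_congr rfl fun i hi => ?_
      have hi' := Finset.mem_range.mp hi
      rw [mul_assoc, PowerSeries.coeff_C_mul, PowerSeries.coeff_X_pow_mul', if_pos (by omega)]
      rw [show n - M - 1 + i + 1 = n - (M - i) by omega]
      ring

/-- a rational power series whose square is a polynomial is a polynomial. -/
theorem ratsq {F : Type*} [Field F] (g : PowerSeries F) (Q P B : F[X]) (hB : B ≠ 0)
    (hg : g * g = (Q : PowerSeries F)) (h : (B : PowerSeries F) * g = (P : PowerSeries F)) :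
    ∃ R : F[X], R * R = Q := by
  have h1 : B ^ 2 * Q = P ^ 2 := by
    apply Polynomial.coe_injective F
    push_cast
    rw [← hg, ← h]
    ring
  have h2 : B ∣ P := by
    rw [← UniqueFactorizationMonoid.pow_dvd_pow_iff_dvd (two_ne_zero)]
    exact ⟨Q, h1.symm⟩
  obtain ⟨R, rfl⟩ := h2
  refine ⟨R, ?_⟩
  have h3 : B ^ 2 * Q = B ^ 2 * (R * R) := by
    rw [h1]
    ring
  exact (mul_left_cancel₀ (pow_ne_zero 2 hB) h3).symm

end Pool.H22.Lh
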