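import Pool.Agent.H22.Lh.PE
import Pool.Agent.H22.Lh.Kron

/-!
# [H22 LH AT] the arithmetic theorem

`R` monic over `𝓞 M`, `R(0) ≠ 0`, `f² = reverse R`, `f(0) = 1`, `R` not a square in `M[X]`.
For `τ : M →+* ℂ` let `β : Fin n → ℂ` enumerate the roots of `R^τ` (`n = natDegree R`); then
`(reverse R)^τ = ∏ (1 - β_j X)` and `g = f^τ` satisfies the hypotheses of `pe`. Let
`H m = det (coeff (i+j+1) f) ∈ 𝓞 M`. If `H m = 0` for all large `m`, `kron` and `ratsq` (over `M`) make
`reverse R`, hence `R`, a square in `M[X]`. So `H m ≠ 0` for infinitely many `m`, and then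
`1 ≤ |Norm (H m)| = ∏_τ |τ (H m)|` (`Algebra.norm_eq_prod_embeddings`,
`NumberField...`, the norm of a nonzero algebraic integer is a nonzero integer). With
`B_τ = -c1/n + C1 ∑ phi (lp β_j)`: `1 ≤ (∏ C_τ) exp (m² ∑_τ (B_τ + e))` for infinitely many `m`, hence
`∑_τ (B_τ + e) ≥ 0` for every `e > 0`, so `∑_τ B_τ ≥ 0`.
(The number of `τ` is `finrank ℚ M`.)
-/

namespace Pool.H22.Lh

open Polynomial MeasureTheory Metric NumberField

/-- reversal commutes with maps that keep the degree. -/
theorem reverse_map_of_natDegree {A B : Type*} [CommRing A] [CommRing B] (φ : A →+* B) (P : A[X])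
    (h : (P.map φ).natDegree = P.natDegree) : (P.map φ).reverse = P.reverse.map φ := by
  ext k
  rw [coeff_reverse, coeff_map, coeff_map, coeff_reverse, h]

/-- double reversal. -/
theorem reverse_reverse_of_coeff_zero {A : Type*} [CommRing A] [NoZeroDivisors A] (P : A[X])
    (h : P.coeff 0 ≠ 0) : P.reverse.reverse = P := by
  have h1 : P.natTrailingDegree = 0 := by
    rw [natTrailingDegree_eq_zero]; exact Or.inr h
  have h2 : P.reverse.natDegree = P.natDegree := by
    rw [reverse_natDegree, h1, Nat.sub_zero]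
  ext k
  rw [coeff_reverse, coeff_reverse, h2, revAt_invol]

/-- reversal of a product of linear factors. -/
theorem reverse_prod_X_sub_C {n : ℕ} (β : Fin n → ℂ) :
    (∏ j, (X - C (β j))).reverse = ∏ j, (1 - C (β j) * X) := by
  classical
  have h : ∀ s : Finset (Fin n), (∏ j ∈ s, (X - C (β j))).reverse = ∏ j ∈ s, (1 - C (β j) * X) := by
    intro s
    induction s using Finset.induction with
    | empty =>
      rw [Finset.prod_empty, Finset.prod_empty, ← C_1, reverse_C]
    | insert a s ha ih =>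
      rw [Finset.prod_insert ha, Finset.prod_insert ha, reverse_mul_of_domain, ih]
      congr 1
      ext k
      rw [coeff_reverse, natDegree_X_sub_C]
      rcases k with _ | _ | k
      · rw [revAt_le (by norm_num)]
        simp
      · rw [revAt_le (by norm_num)]
        simp [coeff_X, coeff_one]
      · rw [revAt_eq_self_of_lt (by omega)]
        simp [coeff_X, coeff_one]
  exact h Finset.univ

/-- enumeration of the roots. -/
theorem exists_enum (P : ℂ[X]) (hP : P.Monic) :
    ∃ β : Fin P.natDegree → ℂ, P.roots = Finset.univ.val.map β ∧ P = ∏ j, (X - C (β j)) := by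
  have hs : P.Splits := IsAlgClosed.splits P
  have hcard : P.roots.toList.length = P.natDegree := by
    rw [Multiset.length_toList]; exact hs.natDegree_eq_card_roots.symm
  refine ⟨fun i => P.roots.toList.get (i.cast hcard.symm), ?_, ?_⟩
  · have h1 : Finset.univ.val.map (fun i : Fin P.natDegree =>
        P.roots.toList.get (i.cast hcard.symm)) =
        ((List.ofFn fun i : Fin P.natDegree => P.roots.toList.get (i.cast hcard.symm) : List ℂ) :
          Multiset ℂ) := by
      rw [Fin.univ_val_map]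
    rw [h1]
    have h2 : (List.ofFn fun i : Fin P.natDegree => P.roots.toList.get (i.cast hcard.symm)) =
        P.roots.toList := by
      apply List.ext_get
      · simp [hcard]
      · intro k h3 h4
        simp
    rw [h2, Multiset.coe_toList]
  · conv_lhs => rw [hs.eq_prod_roots_of_monic hP]
    have h1 : P.roots = Finset.univ.val.map (fun i : Fin P.natDegree =>
        P.roots.toList.get (i.cast hcard.symm)) := by
      have h1 : Finset.univ.val.map (fun i : Fin P.natDegree =>
          P.roots.toList.get (i.cast hcard.symm)) =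
          ((List.ofFn fun i : Fin P.natDegree => P.roots.toList.get (i.cast hcard.symm) : List ℂ) :
            Multiset ℂ) := by
        rw [Fin.univ_val_map]
      rw [h1]
      have h2 : (List.ofFn fun i : Fin P.natDegree => P.roots.toList.get (i.cast hcard.symm)) =
          P.roots.toList := by
        apply List.ext_get
        · simp [hcard]
        · intro k h3 h4
          simp
      rw [h2, Multiset.coe_toList]
    conv_lhs => rw [h1]
    rw [Multiset.map_map]
    rfl

/-- enumeration of the roots, degree given by an equation. -/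
theorem exists_enum' (P : ℂ[X]) (hP : P.Monic) (n : ℕ) (hn : P.natDegree = n) :
    ∃ β : Fin n → ℂ, P.roots = Finset.univ.val.map β ∧ P = ∏ j, (X - C (β j)) := by
  subst hn
  exact exists_enum P hP

/-- product formula inequality for algebraic integers. -/
theorem one_le_prod (M : Type*) [Field M] [NumberField M] (x : 𝓞 M) (hx : x ≠ 0) :
    1 ≤ ∏ τ : M →+* ℂ, ‖τ (algebraMap (𝓞 M) M x)‖ := by
  have h1 := congr_arg (‖·‖) (Algebra.norm_eq_prod_embeddings ℚ ℂ (algebraMap (𝓞 M) M x))
  simp only [norm_prod] at h1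
  rw [← Fintype.prod_equiv (RingHom.equivRatAlgHom M ℂ)
    (fun f => ‖f (algebraMap (𝓞 M) M x)‖)
      (fun φ => ‖φ (algebraMap (𝓞 M) M x)‖)
      fun _ => by simp [RingHom.equivRatAlgHom_apply]] at h1
  rw [← h1]
  have h2 : (Algebra.norm ℚ (algebraMap (𝓞 M) M x) : ℚ) = ((Algebra.norm ℤ x : ℤ) : ℚ) :=
    (Algebra.coe_norm_int x).symm
  have h3 : Algebra.norm ℤ x ≠ 0 := Algebra.norm_ne_zero_iff.2 hx
  rw [h2, eq_ratCast, Rat.cast_intCast, Complex.norm_intCast]
  have h4 : (1 : ℤ) ≤ |Algebra.norm ℤ x| := Int.one_le_abs h3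
  exact_mod_cast h4

/-- if `1 ≤ C exp (s m^2)` for arbitrarily large `m` then `0 ≤ s`. -/
theorem nonneg_of_frequently {Cc s : ℝ}
    (h : ∀ m0 : ℕ, ∃ m : ℕ, m0 ≤ m ∧ 1 ≤ Cc * Real.exp (s * (m : ℝ) ^ 2)) : 0 ≤ s := by
  by_contra hs
  push Not at hs
  have ht : Filter.Tendsto (fun m : ℕ => Cc * Real.exp (s * (m : ℝ) ^ 2)) Filter.atTop
      (nhds (Cc * 0)) := by
    apply Filter.Tendsto.const_mul
    apply Real.tendsto_exp_atBot.comp
    apply Filter.Tendsto.const_mul_atTop_of_neg hs
    exact (Filter.tendsto_pow_atTop two_ne_zero).comp tendsto_natCast_atTop_atTop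
  rw [mul_zero] at ht
  have h1 : ∀ᶠ m : ℕ in Filter.atTop, Cc * Real.exp (s * (m : ℝ) ^ 2) < 1 :=
    ht.eventually (gt_mem_nhds one_pos)
  rcases Filter.eventually_atTop.1 h1 with ⟨m0, hm0⟩
  obtain ⟨m, hm, h2⟩ := h m0
  exact absurd (hm0 m hm) (not_lt.2 h2)

theorem at_main (M : Type*) [Field M] [NumberField M] (R : (𝓞 M)[X]) (hR : R.Monic)
    (h0 : R.coeff 0 ≠ 0) (f : PowerSeries (𝓞 M))
    (hf : f * f = (R.reverse : PowerSeries (𝓞 M))) (hf0 : PowerSeries.constantCoeff f = 1)
    (hns : ¬ ∃ g : M[X], g * g = R.map (algebraMap (𝓞 M) M)) :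
    c1 / C1 * Module.finrank ℚ M / R.natDegree ≤
      ∑ τ : M →+* ℂ,
        ((R.map (τ.comp (algebraMap (𝓞 M) M))).roots.map (fun z => phi (lp z))).sum := by
  classical
  have hn : 0 < R.natDegree := by
    rw [Nat.pos_iff_ne_zero]
    intro h
    have h1 : R = 1 := hR.natDegree_eq_zero.1 h
    exact hns ⟨1, by rw [h1]; simp⟩
  have hmon : ∀ τ : M →+* ℂ, (R.map (τ.comp (algebraMap (𝓞 M) M))).Monic := fun τ => hR.map _
  have hdeg : ∀ τ : M →+* ℂ, (R.map (τ.comp (algebraMap (𝓞 M) M))).natDegree = R.natDegree :=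
    fun τ => hR.natDegree_map _
  choose β hβ1 hβ2 using fun τ : M →+* ℂ => exists_enum' _ (hmon τ) R.natDegree (hdeg τ)
  -- the sums
  have hsum : ∀ τ : M →+* ℂ,
      ((R.map (τ.comp (algebraMap (𝓞 M) M))).roots.map (fun z => phi (lp z))).sum =
        ∑ j, phi (lp (β τ j)) := by
    intro τ
    rw [hβ1 τ, Multiset.map_map]
    rfl
  -- the power series
  have hg : ∀ τ : M →+* ℂ, PowerSeries.map (τ.comp (algebraMap (𝓞 M) M)) f *
      PowerSeries.map (τ.comp (algebraMap (𝓞 M) M)) f =
        ∏ j, (1 - PowerSeries.C (β τ j) * PowerSeries.X) := by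
    intro τ
    rw [← map_mul, hf, ← Polynomial.polynomial_map_coe,
      ← reverse_map_of_natDegree _ _ (hdeg τ)]
    conv_lhs => rw [hβ2 τ]
    rw [reverse_prod_X_sub_C, ← Polynomial.coeToPowerSeries.ringHom_apply, map_prod]
    apply Finset.prod_congr rfl
    intro j _
    simp
  have hg0 : ∀ τ : M →+* ℂ, PowerSeries.coeff 0
      (PowerSeries.map (τ.comp (algebraMap (𝓞 M) M)) f) = 1 := by
    intro τ
    rw [PowerSeries.coeff_map, PowerSeries.coeff_zero_eq_constantCoeff_apply, hf0, map_one]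
  -- the determinants
  set H : ℕ → 𝓞 M := fun m =>
    (Matrix.of fun i j : Fin m => PowerSeries.coeff ((i : ℕ) + (j : ℕ) + 1) f).det with hH
  have hHmap : ∀ (S : Type) [CommRing S] (φ : 𝓞 M →+* S) (m : ℕ), φ (H m) =
      (Matrix.of fun i j : Fin m =>
        PowerSeries.coeff ((i : ℕ) + (j : ℕ) + 1) (PowerSeries.map φ f)).det := by
    intro S _ φ m
    rw [hH]
    simp only
    rw [RingHom.map_det]
    congr 1
  have hinf : ∀ m0 : ℕ, ∃ m : ℕ, m0 ≤ m ∧ H m ≠ 0 := by
    by_contra hcon
    push Not at hcon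
    obtain ⟨m0, hm0⟩ := hcon
    have hk : ∀ m, m0 ≤ m → (Matrix.of fun i j : Fin m =>
        PowerSeries.coeff ((i : ℕ) + (j : ℕ) + 1)
          (PowerSeries.map (algebraMap (𝓞 M) M) f)).det = 0 := by
      intro m hm
      have h1 := congr_arg (algebraMap (𝓞 M) M) (hm0 m hm)
      rw [map_zero, hH] at h1
      simp only at h1
      rw [RingHom.map_det] at h1
      rw [← h1]
      congr 1
    obtain ⟨P, B, hB, hPB⟩ := kron _ m0 hk
    have hQ : PowerSeries.map (algebraMap (𝓞 M) M) f * PowerSeries.map (algebraMap (𝓞 M) M) f =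
        ((R.reverse.map (algebraMap (𝓞 M) M) : M[X]) : PowerSeries M) := by
      rw [← map_mul, hf, ← Polynomial.polynomial_map_coe]
    obtain ⟨R', hR'⟩ := ratsq _ _ P B hB hQ hPB
    have hdM : (R.map (algebraMap (𝓞 M) M)).natDegree = R.natDegree := hR.natDegree_map _
    rw [← reverse_map_of_natDegree _ _ hdM] at hR'
    apply hns
    refine ⟨R'.reverse, ?_⟩
    rw [← reverse_mul_of_domain, hR', reverse_reverse_of_coeff_zero]
    rw [coeff_map]
    intro h
    apply h0
    exact (FaithfulSMul.algebraMap_injective (𝓞 M) M) (by rw [h, map_zero])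
  -- main inequality for every e
  have hmain : ∀ e : ℝ, 0 < e → 0 ≤ ∑ τ : M →+* ℂ,
      (-c1 / R.natDegree + C1 * ∑ j, phi (lp (β τ j)) + e) := by
    intro e he
    choose Cc hCc hb using fun τ : M →+* ℂ => pe hn (β τ) _ (hg τ) (hg0 τ) e he
    apply nonneg_of_frequently (Cc := ∏ τ, Cc τ)
    intro m0
    obtain ⟨m, hm, hHm⟩ := hinf m0
    refine ⟨m, hm, ?_⟩
    calc (1 : ℝ) ≤ ∏ τ : M →+* ℂ, ‖τ (algebraMap (𝓞 M) M (H m))‖ := one_le_prod M _ hHm
      _ ≤ ∏ τ : M →+* ℂ, (Cc τ *
          Real.exp ((-c1 / R.natDegree + C1 * ∑ j, phi (lp (β τ j)) + e) * (m : ℝ) ^ 2)) := by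
        apply Finset.prod_le_prod
        · intro τ _; exact norm_nonneg _
        · intro τ _
          have h1 := hb τ m
          rw [← hHmap ℂ (τ.comp (algebraMap (𝓞 M) M)) m] at h1
          exact h1
      _ = (∏ τ, Cc τ) * Real.exp ((∑ τ : M →+* ℂ,
          (-c1 / R.natDegree + C1 * ∑ j, phi (lp (β τ j)) + e)) * (m : ℝ) ^ 2) := by
        rw [Finset.prod_mul_distrib, ← Real.exp_sum, Finset.sum_mul]
  -- let e tend to 0
  have hcard : (Fintype.card (M →+* ℂ) : ℝ) = Module.finrank ℚ M := by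
    rw [NumberField.Embeddings.card]
  have hfin : 0 ≤ ∑ τ : M →+* ℂ, (-c1 / R.natDegree + C1 * ∑ j, phi (lp (β τ j))) := by
    apply le_of_forall_pos_le_add
    intro e he
    have hd : (0 : ℝ) < Module.finrank ℚ M := by exact_mod_cast Module.finrank_pos
    have h1 := hmain (e / Module.finrank ℚ M) (by positivity)
    rw [Finset.sum_add_distrib, Finset.sum_const, Finset.card_univ, nsmul_eq_mul, hcard,
      mul_div_cancel₀ _ hd.ne'] at h1
    exact h1
  rw [Finset.sum_add_distrib, Finset.sum_const, Finset.card_univ, nsmul_eq_mul, hcard,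
    ← Finset.mul_sum] at hfin
  rw [Finset.sum_congr rfl fun τ _ => hsum τ]
  have hC1 : (0 : ℝ) < C1 := by unfold C1; norm_num
  have hn' : (0 : ℝ) < R.natDegree := by exact_mod_cast hn
  have h2 : c1 * Module.finrank ℚ M / R.natDegree ≤
      C1 * ∑ τ : M →+* ℂ, ∑ j, phi (lp (β τ j)) := by
    have h3 : (Module.finrank ℚ M : ℝ) * (-c1 / R.natDegree) =
        - (c1 * Module.finrank ℚ M / R.natDegree) := by ring
    rw [h3] at hfin
    linarith
  have h4 : c1 / C1 * Module.finrank ℚ M / R.natDegree =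
      (c1 * Module.finrank ℚ M / R.natDegree) / C1 := by
    field_simp
  rw [h4, div_le_iff₀ hC1]
  linarith

end Pool.H22.Lh
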