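import Pool.Agent.H22.Lh.Defs

/-!
# [H22 LH CYCF] cyclotomic fields inside `ℂ`

`cyc N = ℚ(exp(2πi/N)) ⊆ ℂ` (for `N = 0` this is `ℚ`).
`cyc_two_odd`: `-ζ_N` is a primitive `2N`-th root of unity for odd `N`, so `exp(2πi/(2N))` is a power of `-ζ_N`.
-/

namespace Pool.H22.Lh

open Polynomial MeasureTheory Metric NumberField

private theorem cyc_gen_int (N : ℕ) :
    IsIntegral ℚ (Complex.exp (2 * Real.pi * Complex.I / N)) := by
  rcases Nat.eq_zero_or_pos N with rfl | hN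
  · have h : Complex.exp (2 * Real.pi * Complex.I / ((0 : ℕ) : ℂ)) = 1 := by
      rw [Nat.cast_zero, div_zero, Complex.exp_zero]
    rw [h]
    exact isIntegral_one
  · exact ((Complex.isPrimitiveRoot_exp N hN.ne').isIntegral hN).tower_top

instance cyc_fd (N : ℕ) : FiniteDimensional ℚ (cyc N) :=
  IntermediateField.adjoin.finiteDimensional (cyc_gen_int N)

instance cyc_nf (N : ℕ) : NumberField (cyc N) where
  to_charZero := inferInstance
  to_finiteDimensional := cyc_fd N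

/-- the standard generator of `cyc N`. -/
noncomputable def zN (N : ℕ) : cyc N :=
  ⟨Complex.exp (2 * Real.pi * Complex.I / N),
    IntermediateField.mem_adjoin_simple_self ℚ _⟩

theorem zN_prim (N : ℕ) (hN : N ≠ 0) : IsPrimitiveRoot (zN N) N := by
  have h : IsPrimitiveRoot ((cyc N).val (zN N)) N := Complex.isPrimitiveRoot_exp N hN
  exact h.of_map_of_injective (cyc N).val.injective

theorem cyc_isCyc (N : ℕ) (hN : N ≠ 0) : IsCyclotomicExtension {N} ℚ (cyc N) := by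
  haveI : NeZero N := ⟨hN⟩
  exact (IntermediateField.isCyclotomicExtension_singleton_iff_eq_adjoin _ _ _ (cyc N)
    (Complex.isPrimitiveRoot_exp N hN)).2 rfl

theorem root_mem_cyc (N : ℕ) (hN : N ≠ 0) (ζ : ℂ) (h : ζ ^ N = 1) : ζ ∈ cyc N := by
  haveI : NeZero N := ⟨hN⟩
  obtain ⟨i, -, hi⟩ := (Complex.isPrimitiveRoot_exp N hN).eq_pow_of_pow_eq_one h
  rw [← hi]
  exact pow_mem (IntermediateField.mem_adjoin_simple_self ℚ _) i

private theorem cyc_le_iff (N : ℕ) (F : IntermediateField ℚ ℂ)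
    (h : Complex.exp (2 * Real.pi * Complex.I / N) ∈ F) : cyc N ≤ F :=
  IntermediateField.adjoin_simple_le_iff.2 h

theorem cyc_mono (N M : ℕ) (h : N ∣ M) (hM : M ≠ 0) : cyc N ≤ cyc M := by
  have hN : N ≠ 0 := by
    rintro rfl
    exact hM (Nat.eq_zero_of_zero_dvd h)
  obtain ⟨k, rfl⟩ := h
  refine cyc_le_iff N _ (root_mem_cyc _ hM _ ?_)
  rw [pow_mul, (Complex.isPrimitiveRoot_exp N hN).pow_eq_one, one_pow]

theorem cyc_two_odd (N : ℕ) (hN : Odd N) : cyc (2 * N) = cyc N := by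
  have hN0 : N ≠ 0 := by
    rintro rfl
    exact absurd hN (by decide)
  refine le_antisymm (cyc_le_iff _ _ ?_) (cyc_mono _ _ (Dvd.intro_left 2 rfl) (by omega))
  have h1 := (Complex.isPrimitiveRoot_exp (2 * N) (by omega)).pow_eq_one
  have h2 : (Complex.exp (2 * Real.pi * Complex.I / ((2 * N : ℕ) : ℂ)) ^ N) ^ 2 = 1 := by
    rw [← pow_mul, mul_comm N 2]
    exact h1
  rcases (by simpa using h2 : Complex.exp (2 * Real.pi * Complex.I / ((2 * N : ℕ) : ℂ)) ^ N = 1 ∨
    Complex.exp (2 * Real.pi * Complex.I / ((2 * N : ℕ) : ℂ)) ^ N = -1) with h3 | h3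
  · exact root_mem_cyc N hN0 _ h3
  · have h4 : (-Complex.exp (2 * Real.pi * Complex.I / ((2 * N : ℕ) : ℂ))) ^ N = 1 := by
      rw [hN.neg_pow, h3, neg_neg]
    have h5 := neg_mem (root_mem_cyc N hN0 _ h4)
    rwa [neg_neg] at h5

end Pool.H22.Lh
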