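import Pool.Agent.H22.Lh.SqP

/-!
# [H22 LH IRR] irreducibility of `sq P`, and the non-square lemma

* `sq_irreducible`: `sq P = A B` nontrivial monic factors; expand:
  `(-1)^n P(X)P(-X) = A(X²)B(X²)`; `P` and `(-1)^n P(-X)` are irreducible, monic, distinct; `P ∣ A(X²)` or
  `P ∣ B(X²)`, say the first; then also `P(-X) ∣ A(X²)` (substitute `-X`), and as they are coprime
  `P(X)P(-X) ∣ A(X²)`, so `deg A = n`, `B = 1`.
* `nonsq`: `V` prime, `V ∣ g²`, so `V ∣ g`, `V² ∣ U V`, `V ∣ U`, monic of the same degree.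
-/

namespace Pool.H22.Lh

open Polynomial MeasureTheory Metric

section Aux

variable {L : Type*} [Field L]

theorem irr_comp_neg_neg (P : L[X]) : (P.comp (-X)).comp (-X) = P := by
  rw [comp_assoc]
  simp

theorem irr_comp_dvd {P Q : L[X]} (h : P ∣ Q) : P.comp (-X) ∣ Q.comp (-X) := by
  obtain ⟨R, rfl⟩ := h
  exact ⟨R.comp (-X), by rw [mul_comp]⟩

theorem irr_expand_comp (P : L[X]) : (expand L 2 P).comp (-X) = expand L 2 P := by
  rw [expand_eq_comp_X_pow, comp_assoc]
  simp

theorem irr_monic (P : L[X]) (hP : P.Monic) :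
    (C ((-1) ^ P.natDegree) * P.comp (-X)).Monic := by
  have h1 : (P.comp (-X)).leadingCoeff = (-1) ^ P.natDegree := by
    rw [leadingCoeff_comp (by rw [natDegree_neg, natDegree_X]; exact one_ne_zero)]
    rw [hP.leadingCoeff, one_mul, leadingCoeff_neg, leadingCoeff_X]
  rw [Monic, leadingCoeff_mul, leadingCoeff_C, h1, ← mul_pow]
  simp

theorem irr_natDegree (P : L[X]) :
    (C ((-1) ^ P.natDegree) * P.comp (-X)).natDegree = P.natDegree := by
  have h0 : ((-1 : L) ^ P.natDegree) ≠ 0 := pow_ne_zero _ (neg_ne_zero.2 one_ne_zero)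
  rw [natDegree_C_mul h0, natDegree_comp, natDegree_neg, natDegree_X, mul_one]

theorem irr_comp_irreducible (P : L[X]) (hi : Irreducible P) :
    Irreducible (C ((-1) ^ P.natDegree) * P.comp (-X)) := by
  have h0 : ((-1 : L) ^ P.natDegree) ≠ 0 := pow_ne_zero _ (neg_ne_zero.2 one_ne_zero)
  have hu : IsUnit (C ((-1 : L) ^ P.natDegree)) := isUnit_C.2 (isUnit_iff_ne_zero.2 h0)
  rw [irreducible_isUnit_mul hu]
  constructor
  · intro hun
    apply hi.not_isUnit
    have h1 := Polynomial.isUnit_iff_degree_eq_zero.1 hun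
    rw [Polynomial.isUnit_iff_degree_eq_zero]
    have h2 : (P.comp (-X)).natDegree = P.natDegree := by
      rw [natDegree_comp, natDegree_neg, natDegree_X, mul_one]
    have hP0 : P ≠ 0 := hi.ne_zero
    have hc0 : P.comp (-X) ≠ 0 := by
      intro h
      apply hP0
      rw [← irr_comp_neg_neg P, h, zero_comp]
    rw [degree_eq_natDegree hc0, h2] at h1
    rw [degree_eq_natDegree hP0, h1]
  · intro a b hab
    have h1 : P = a.comp (-X) * b.comp (-X) := by
      rw [← mul_comp, ← hab, irr_comp_neg_neg]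
    rcases hi.isUnit_or_isUnit h1 with h | h
    · left
      have h3 := h.map (compRingHom (-X : L[X]))
      rw [coe_compRingHom_apply, irr_comp_neg_neg] at h3
      exact h3
    · right
      have h3 := h.map (compRingHom (-X : L[X]))
      rw [coe_compRingHom_apply, irr_comp_neg_neg] at h3
      exact h3

/-- the main step: a monic `f` with `P ∣ f(X²)` has degree at least `deg P`. -/
theorem irr_step (P f : L[X]) (hP : P.Monic) (hi : Irreducible P)
    (hne : P.comp (-X) ≠ C ((-1) ^ P.natDegree) * P) (hf0 : f ≠ 0)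
    (h : P ∣ expand L 2 f) : P.natDegree ≤ f.natDegree := by
  have h0 : ((-1 : L) ^ P.natDegree) ≠ 0 := pow_ne_zero _ (neg_ne_zero.2 one_ne_zero)
  have hu : IsUnit (C ((-1 : L) ^ P.natDegree)) := isUnit_C.2 (isUnit_iff_ne_zero.2 h0)
  have h1 : C ((-1) ^ P.natDegree) * P.comp (-X) ∣ expand L 2 f := by
    rw [hu.mul_left_dvd]
    have h2 := irr_comp_dvd h
    rwa [irr_expand_comp] at h2
  have hQm := irr_monic P hP
  have hQi := irr_comp_irreducible P hi
  have hcop : IsCoprime P (C ((-1) ^ P.natDegree) * P.comp (-X)) := by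
    rw [hi.coprime_iff_not_dvd]
    intro hd
    apply hne
    have h3 : P = C ((-1) ^ P.natDegree) * P.comp (-X) :=
      eq_of_monic_of_associated hP hQm (hi.associated_of_dvd hQi hd)
    have h4 : C ((-1) ^ P.natDegree) * P =
        C ((-1) ^ P.natDegree) * (C ((-1) ^ P.natDegree) * P.comp (-X)) := by
      rw [← h3]
    rw [h4, ← mul_assoc, ← C_mul, ← mul_pow]
    simp
  have h5 : P * (C ((-1) ^ P.natDegree) * P.comp (-X)) ∣ expand L 2 f := hcop.mul_dvd h h1
  have hf1 : expand L 2 f ≠ 0 := by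
    rw [Ne, expand_eq_zero (by norm_num)]
    exact hf0
  have h6 := natDegree_le_of_dvd h5 hf1
  rw [natDegree_mul hP.ne_zero hQm.ne_zero, irr_natDegree, natDegree_expand] at h6
  omega

end Aux

theorem sq_irreducible {L : Type*} [Field L] [CharZero L] (P : L[X]) (hP : P.Monic)
    (hi : Irreducible P) (hne : P.comp (-X) ≠ C ((-1) ^ P.natDegree) * P) :
    Irreducible (sq P) := by
  have hn : 0 < P.natDegree := hi.natDegree_pos
  have hsm := sq_monic P hP
  have hsd := natDegree_sq P hP
  rw [hsm.irreducible_iff_natDegree]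
  refine ⟨?_, ?_⟩
  · intro h1
    rw [h1, natDegree_one] at hsd
    omega
  · intro f g hf hg hfg
    have hd : f.natDegree + g.natDegree = P.natDegree := by
      rw [← hsd, ← hfg, hf.natDegree_mul hg]
    have he : expand L 2 f * expand L 2 g = C ((-1) ^ P.natDegree) * (P * P.comp (-X)) := by
      rw [← map_mul, hfg, expand_sq]
    have hdv : P ∣ expand L 2 f * expand L 2 g := by
      rw [he]
      exact ⟨C ((-1) ^ P.natDegree) * P.comp (-X), by ring⟩
    rcases hi.prime.dvd_or_dvd hdv with h | h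
    · right
      have := irr_step P f hP hi hne hf.ne_zero h
      omega
    · left
      have := irr_step P g hP hi hne hg.ne_zero h
      omega

theorem nonsq {L : Type*} [Field L] (U V g : L[X]) (hU : U.Monic) (hV : V.Monic)
    (hVi : Irreducible V) (hd : U.natDegree = V.natDegree) (h : g * g = U * V) : U = V := by
  have h1 : V ∣ g := by
    rcases hVi.prime.dvd_or_dvd (h ▸ Dvd.intro_left U rfl : V ∣ g * g) with h | h <;> exact h
  obtain ⟨k, rfl⟩ := h1
  have h2 : U = V * (k * k) := by
    have h3 : V * U = V * (V * (k * k)) := by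
      calc V * U = U * V := mul_comm V U
        _ = V * k * (V * k) := h.symm
        _ = V * (V * (k * k)) := by ring
    exact mul_left_cancel₀ hV.ne_zero h3
  have h4 : V ∣ U := ⟨k * k, h2⟩
  exact (eq_of_monic_of_dvd_of_natDegree_le hV hU h4 hd.le)

/-- two irreducible monic polynomials of the same degree with the same `sq`. -/
theorem sq_eq {L : Type*} [Field L] [CharZero L] (P Q : L[X]) (hP : P.Monic) (hQ : Q.Monic)
    (hPi : Irreducible P) (hQi : Irreducible Q) (hd : P.natDegree = Q.natDegree)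
    (h : sq P = sq Q) : Q = P ∨ Q = C ((-1) ^ P.natDegree) * P.comp (-X) := by
  have h0 : ((-1 : L) ^ P.natDegree) ≠ 0 := pow_ne_zero _ (neg_ne_zero.2 one_ne_zero)
  have hu : IsUnit (C ((-1 : L) ^ P.natDegree)) := isUnit_C.2 (isUnit_iff_ne_zero.2 h0)
  have h1 : C ((-1) ^ P.natDegree) * (P * P.comp (-X)) =
      C ((-1) ^ P.natDegree) * (Q * Q.comp (-X)) := by
    rw [← expand_sq, h, expand_sq, hd]
  have h2 : P * P.comp (-X) = Q * Q.comp (-X) := mul_left_cancel₀ hu.ne_zero h1
  have h3 : Q ∣ P * P.comp (-X) := ⟨Q.comp (-X), h2⟩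
  rcases hQi.prime.dvd_or_dvd h3 with h4 | h4
  · left
    exact (eq_of_monic_of_associated hQ hP (hQi.associated_of_dvd hPi h4))
  · right
    have hQ2 : Q ∣ C ((-1) ^ P.natDegree) * P.comp (-X) := h4.mul_left _
    exact (eq_of_monic_of_associated hQ (irr_monic P hP)
      (hQi.associated_of_dvd (irr_comp_irreducible P hPi) hQ2))

end Pool.H22.Lh
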