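import Pool.Agent.H22.Lh.Sum

/-!
# [H22 LH MEAN] means over conjugates

Apply `meanC_eq` to `L = ℚ(α, ζ)` (finite over `ℚ`): `‖τ (ζ α)‖ = ‖τ α‖` because `τ ζ` is a root of unity;
`τ (α²) = (τ α)²`. `mean_mono`, `mean_nonneg`: from the definition (a sum over a multiset divided by a
natural number). `mean_zero`: if the mean of `lp` is `0` then all conjugates have norm at most 1, and
`NumberField.Embeddings.pow_eq_one_of_norm_le_one` applies.
-/

namespace Pool.H22.Lh

open Polynomial MeasureTheory Metric NumberField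

theorem mean_mono (F G : ℂ → ℝ) (α : ℂ) (h : ∀ z, F z ≤ G z) : meanC F α ≤ meanC G α := by
  unfold meanC
  refine div_le_div_of_nonneg_right ?_ (Nat.cast_nonneg _)
  exact Multiset.sum_map_le_sum_map _ _ fun z _ => h z

theorem mean_smul (c : ℝ) (F : ℂ → ℝ) (α : ℂ) : meanC (fun z => c * F z) α = c * meanC F α := by
  unfold meanC
  rw [Multiset.sum_map_mul_left, mul_div_assoc]

theorem mean_numberField (s : Set ℂ) (hs : s.Finite) (h : ∀ x ∈ s, IsIntegral ℚ x) :
    NumberField (IntermediateField.adjoin ℚ s) := by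
  have : Finite s := hs
  have : FiniteDimensional ℚ (IntermediateField.adjoin ℚ s) :=
    IntermediateField.finiteDimensional_adjoin h
  exact { to_charZero := inferInstance, to_finiteDimensional := inferInstance }

theorem mean_root (α ζ : ℂ) (hα : IsIntegral ℚ α) (r : ℕ) (hr : 0 < r) (hζ : ζ ^ r = 1)
    (G : ℝ → ℝ) : meanC (fun z => G ‖z‖) (ζ * α) = meanC (fun z => G ‖z‖) α := by
  have hζi : IsIntegral ℚ ζ := by
    refine IsIntegral.of_pow hr ?_
    rw [hζ]
    exact isIntegral_one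
  have hNF : NumberField (IntermediateField.adjoin ℚ ({α, ζ} : Set ℂ)) := by
    refine mean_numberField _ (Set.toFinite _) ?_
    intro x hx
    rcases hx with rfl | hx
    · exact hα
    · rw [Set.mem_singleton_iff.1 hx]
      exact hζi
  have hmα : α ∈ IntermediateField.adjoin ℚ ({α, ζ} : Set ℂ) :=
    IntermediateField.subset_adjoin _ _ (by simp)
  have hmζ : ζ ∈ IntermediateField.adjoin ℚ ({α, ζ} : Set ℂ) :=
    IntermediateField.subset_adjoin _ _ (by simp)
  set L := IntermediateField.adjoin ℚ ({α, ζ} : Set ℂ) with hL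
  have h1 := meanC_eq L ⟨α, hmα⟩ (fun z => G ‖z‖)
  have h2 := meanC_eq L (⟨ζ, hmζ⟩ * ⟨α, hmα⟩) (fun z => G ‖z‖)
  have h3 : ∀ τ : L →+* ℂ, ‖τ ((⟨ζ, hmζ⟩ : L) * ⟨α, hmα⟩)‖ = ‖τ (⟨α, hmα⟩ : L)‖ := by
    intro τ
    have h4 : (τ (⟨ζ, hmζ⟩ : L)) ^ r = 1 := by
      rw [← map_pow]
      have : (⟨ζ, hmζ⟩ : L) ^ r = 1 := by
        apply Subtype.ext
        simpa using hζ
      rw [this, map_one]
    have h5 : ‖τ (⟨ζ, hmζ⟩ : L)‖ = 1 := Complex.norm_eq_one_of_pow_eq_one h4 hr.ne'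
    rw [map_mul, norm_mul, h5, one_mul]
  simp only [h3] at h2
  rw [h1] at h2
  have hfin : (Module.finrank ℚ L : ℝ) ≠ 0 := by
    exact_mod_cast (Module.finrank_pos).ne'
  exact (mul_left_cancel₀ hfin h2).symm

theorem mean_sq (α : ℂ) (hα : IsIntegral ℚ α) (F : ℂ → ℝ) :
    meanC F (α ^ 2) = meanC (fun z => F (z ^ 2)) α := by
  have hNF : NumberField (IntermediateField.adjoin ℚ ({α} : Set ℂ)) := by
    refine mean_numberField _ (Set.toFinite _) ?_
    intro x hx
    rw [Set.mem_singleton_iff.1 hx]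
    exact hα
  have hmα : α ∈ IntermediateField.adjoin ℚ ({α} : Set ℂ) :=
    IntermediateField.subset_adjoin _ _ (by simp)
  set L := IntermediateField.adjoin ℚ ({α} : Set ℂ) with hL
  have h1 := meanC_eq L ⟨α, hmα⟩ (fun z => F (z ^ 2))
  have h2 := meanC_eq L ((⟨α, hmα⟩ : L) ^ 2) F
  simp only [map_pow] at h2
  rw [h1] at h2
  have hfin : (Module.finrank ℚ L : ℝ) ≠ 0 := by
    exact_mod_cast (Module.finrank_pos).ne'
  exact (mul_left_cancel₀ hfin h2).symm

theorem mean_lp_sq (z : ℂ) : lp (z ^ 2) = 2 * lp z := by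
  unfold lp
  rw [norm_pow, Real.posLog_eq_log_max_one (by positivity), Real.posLog_eq_log_max_one (by positivity)]
  rcases le_total 1 ‖z‖ with h | h
  · rw [max_eq_right h, max_eq_right (one_le_pow₀ h), Real.log_pow]
    norm_num
  · rw [max_eq_left h, max_eq_left (pow_le_one₀ (norm_nonneg z) h), Real.log_one, mul_zero]

theorem mean_phi_sq (α : ℂ) (hα : IsIntegral ℚ α) :
    meanC (fun z => phi (lp z)) (α ^ 2) ≤ 4 * meanC (fun z => phi (lp z)) α := by
  rw [mean_sq α hα, ← mean_smul]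
  refine mean_mono _ _ _ fun z => ?_
  have h := phi_mul_le (a := 2) (t := lp z) (by norm_num) (lp_nonneg z)
  simp only [mean_lp_sq]
  linarith

theorem mean_zero (α : ℂ) (hα : IsIntegral ℤ α) (h0 : α ≠ 0) (h : meanC lp α ≤ 0) :
    ∃ k, 0 < k ∧ α ^ k = 1 := by
  have hαQ : IsIntegral ℚ α := hα.tower_top
  have hNF : NumberField (IntermediateField.adjoin ℚ ({α} : Set ℂ)) := by
    refine mean_numberField _ (Set.toFinite _) ?_
    intro x hx
    rw [Set.mem_singleton_iff.1 hx]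
    exact hαQ
  have hmα : α ∈ IntermediateField.adjoin ℚ ({α} : Set ℂ) :=
    IntermediateField.subset_adjoin _ _ (by simp)
  set L := IntermediateField.adjoin ℚ ({α} : Set ℂ) with hL
  have h1 := meanC_eq L ⟨α, hmα⟩ lp
  have h2 : ∑ τ : L →+* ℂ, lp (τ (⟨α, hmα⟩ : L)) ≤ 0 := by
    rw [h1]
    exact mul_nonpos_of_nonneg_of_nonpos (Nat.cast_nonneg _) h
  have h3 : ∀ τ : L →+* ℂ, lp (τ (⟨α, hmα⟩ : L)) = 0 := by
    intro τ
    have h4 := (Finset.sum_eq_zero_iff_of_nonneg (s := Finset.univ)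
      (fun (τ : L →+* ℂ) _ => lp_nonneg (τ (⟨α, hmα⟩ : L)))).1
      (le_antisymm h2 (Finset.sum_nonneg fun τ _ => lp_nonneg _))
    exact h4 τ (Finset.mem_univ _)
  have h5 : ∀ τ : L →+* ℂ, ‖τ (⟨α, hmα⟩ : L)‖ ≤ 1 := by
    intro τ
    have := (Real.posLog_eq_zero_iff _).1 (h3 τ)
    rwa [abs_of_nonneg (norm_nonneg _)] at this
  have hint : IsIntegral ℤ (⟨α, hmα⟩ : L) := by
    have hinj : Function.Injective (algebraMap L ℂ) := (algebraMap L ℂ).injective
    exact (isIntegral_algebraMap_iff hinj).1 hα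
  obtain ⟨n, hn, hx⟩ := NumberField.Embeddings.pow_eq_one_of_norm_le_one L ℂ
    (x := (⟨α, hmα⟩ : L)) (fun e => h0 (congrArg Subtype.val e)) hint h5
  refine ⟨n, hn, ?_⟩
  have := congrArg Subtype.val hx
  simpa using this

end Pool.H22.Lh
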