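import Pool.Agent.H22.Lh.Defs

/-!
# [H22 LH SQP] the polynomial with squared roots

`sq P = C((-1)^deg P) * contract 2 (P(X) P(-X))`. `P(X)P(-X)` is invariant under `X ↦ -X`, so all its odd
coefficients are `0` when `2` is a nonzerodivisor; but we want it in every commutative ring: the
coefficient of `X^k` is `∑_{i+j=k} (-1)^j P_i P_j`, and for odd `k` the terms `(i,j)` and `(j,i)`
cancel. Hence `expand R 2 (contract 2 (P * P.comp(-X))) = P * P.comp(-X)`.
* `sq_two`: if `P = R + 2 S` with the same degree then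
  `P(X)P(-X) = R(X)R(-X) + 2 (R(X)S(-X) + S(X)R(-X)) + 4 S(X)S(-X)` and
  `R(X)S(-X) + S(X)R(-X) = E(X) + E(-X)`, `E = R(X)S(-X)`, has coefficients `2 E_k` (even `k`) or `0`.
* `sq_roots`: over `ℂ`: `P = ∏ (X - a)`, `(-1)^n P(X)P(-X) = ∏ (X² - a²)`, `expand` is injective.
-/

namespace Pool.H22.Lh

open Polynomial MeasureTheory Metric

theorem coeff_comp_neg_X {R : Type*} [CommRing R] (P : R[X]) (k : ℕ) :
    (P.comp (-X)).coeff k = (-1) ^ k * P.coeff k := by
  induction P using Polynomial.induction_on' with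
  | add p q hp hq => rw [add_comp, coeff_add, hp, hq, coeff_add]; ring
  | monomial n a =>
    rw [monomial_comp, show (-X : R[X]) = C (-1) * X by simp, mul_pow, ← C_pow, ← mul_assoc,
      ← C_mul, coeff_C_mul_X_pow, coeff_monomial]
    by_cases h : k = n
    · subst h; simp [mul_comm]
    · rw [if_neg h, if_neg (fun h' => h h'.symm), mul_zero]

theorem coeff_mul_comp_odd {R : Type*} [CommRing R] (P : R[X]) (k : ℕ) (hk : Odd k) :
    (P * P.comp (-X)).coeff k = 0 := by
  rw [coeff_mul]
  refine Finset.sum_involution (fun a _ => (a.2, a.1)) ?_ ?_ ?_ ?_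
  · intro a ha
    rw [Finset.HasAntidiagonal.mem_antidiagonal] at ha
    rw [coeff_comp_neg_X, coeff_comp_neg_X]
    have h1 : ((-1 : R)) ^ a.2 = - (-1) ^ a.1 := by
      have h2 : ((-1 : R)) ^ (a.1 + a.2) = -1 := by rw [ha]; exact hk.neg_one_pow
      rw [pow_add] at h2
      have h3 : ((-1 : R)) ^ a.1 * (-1) ^ a.1 = 1 := by rw [← mul_pow]; simp
      calc ((-1 : R)) ^ a.2 = ((-1) ^ a.1 * (-1) ^ a.1) * (-1) ^ a.2 := by rw [h3, one_mul]
        _ = (-1) ^ a.1 * ((-1) ^ a.1 * (-1) ^ a.2) := by ring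
        _ = - (-1) ^ a.1 := by rw [h2]; ring
    rw [h1]; ring
  · intro a ha _ h
    rw [Finset.HasAntidiagonal.mem_antidiagonal] at ha
    have h1 : a.2 = a.1 := congrArg Prod.fst h
    rw [h1] at ha
    rcases hk with ⟨t, ht⟩
    omega
  · intro a ha
    rw [Finset.HasAntidiagonal.mem_antidiagonal] at ha ⊢
    simp only
    omega
  · intro a _
    rfl

theorem sq_coeff {R : Type*} [CommRing R] (P : R[X]) (k : ℕ) :
    (sq P).coeff k = (-1) ^ P.natDegree * (P * P.comp (-X)).coeff (k * 2) := by
  unfold sq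
  rw [coeff_C_mul, coeff_contract two_ne_zero]

theorem expand_sq {R : Type*} [CommRing R] (P : R[X]) :
    expand R 2 (sq P) = C ((-1) ^ P.natDegree) * (P * P.comp (-X)) := by
  ext k
  rw [coeff_expand two_pos, coeff_C_mul]
  split_ifs with h
  · rw [sq_coeff, Nat.div_mul_cancel h]
  · rw [coeff_mul_comp_odd P k (by rwa [← Nat.not_even_iff_odd, even_iff_two_dvd]), mul_zero]

theorem natDegree_comp_neg_le {R : Type*} [CommRing R] (P : R[X]) :
    (P.comp (-X)).natDegree ≤ P.natDegree := by
  rw [natDegree_le_iff_coeff_eq_zero]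
  intro k hk
  rw [coeff_comp_neg_X, coeff_eq_zero_of_natDegree_lt hk, mul_zero]

theorem sq_coeff_top {R : Type*} [CommRing R] (P : R[X]) (hP : P.Monic) :
    (sq P).coeff P.natDegree = 1 := by
  rw [sq_coeff, show P.natDegree * 2 = P.natDegree + P.natDegree by ring,
    coeff_mul_add_eq_of_natDegree_le le_rfl (natDegree_comp_neg_le P), coeff_comp_neg_X,
    hP.coeff_natDegree, mul_one, one_mul, ← mul_pow]
  simp

theorem sq_natDegree_le {R : Type*} [CommRing R] (P : R[X]) :
    (sq P).natDegree ≤ P.natDegree := by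
  rw [natDegree_le_iff_coeff_eq_zero]
  intro k hk
  rw [sq_coeff, coeff_eq_zero_of_natDegree_lt, mul_zero]
  calc (P * P.comp (-X)).natDegree ≤ P.natDegree + (P.comp (-X)).natDegree := natDegree_mul_le
    _ ≤ P.natDegree + P.natDegree := by have := natDegree_comp_neg_le P; omega
    _ < k * 2 := by omega

theorem sq_monic {R : Type*} [CommRing R] [Nontrivial R] (P : R[X]) (hP : P.Monic) :
    (sq P).Monic :=
  monic_of_natDegree_le_of_coeff_eq_one P.natDegree (sq_natDegree_le P) (sq_coeff_top P hP)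

theorem natDegree_sq {R : Type*} [CommRing R] [Nontrivial R] (P : R[X]) (hP : P.Monic) :
    (sq P).natDegree = P.natDegree := by
  apply le_antisymm (sq_natDegree_le P)
  apply le_natDegree_of_ne_zero
  rw [sq_coeff_top P hP]
  exact one_ne_zero

theorem sq_map {R T : Type*} [CommRing R] [CommRing T] [Nontrivial T] (f : R →+* T) (P : R[X])
    (hP : P.Monic) : sq (P.map f) = (sq P).map f := by
  unfold sq
  rw [hP.natDegree_map f, Polynomial.map_mul, map_contract two_ne_zero, Polynomial.map_mul,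
    Polynomial.map_comp]
  simp

theorem sq_coeff_zero {R : Type*} [CommRing R] (P : R[X]) :
    (sq P).coeff 0 = (-1) ^ P.natDegree * P.coeff 0 ^ 2 := by
  rw [sq_coeff, zero_mul, mul_coeff_zero, coeff_comp_neg_X, pow_zero, one_mul, pow_two]

theorem sq_two {R : Type*} [CommRing R] (P Q T : R[X]) (hd : P.natDegree = Q.natDegree)
    (h : P = Q + C 2 * T) : ∃ T' : R[X], sq P = sq Q + C 4 * T' := by
  refine ⟨C ((-1) ^ Q.natDegree) *
    (contract 2 (Q * T.comp (-X)) + contract 2 (T * T.comp (-X))), ?_⟩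
  have hPP : P * P.comp (-X) = Q * Q.comp (-X) +
      C 2 * (Q * T.comp (-X) + (Q * T.comp (-X)).comp (-X)) + C 4 * (T * T.comp (-X)) := by
    rw [h, add_comp, mul_comp, C_comp, mul_comp, comp_neg_X_comp_neg_X,
      show (4 : R) = 2 * 2 by norm_num, C_mul]
    ring
  ext k
  rw [coeff_add, sq_coeff, sq_coeff, hd, hPP, coeff_add, coeff_add, coeff_C_mul, coeff_C_mul,
    coeff_add, coeff_comp_neg_X, coeff_C_mul, coeff_C_mul, coeff_add,
    coeff_contract two_ne_zero, coeff_contract two_ne_zero]
  have h1 : ((-1 : R)) ^ (k * 2) = 1 := by rw [mul_comm, pow_mul]; simp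
  rw [h1]
  ring

theorem sq_roots (P : ℂ[X]) (hP : P.Monic) : (sq P).roots = P.roots.map (fun z => z ^ 2) := by
  have hs : P.Splits := IsAlgClosed.splits P
  have hprod : (P.roots.map (fun a => X - C a)).prod = P :=
    (hs.eq_prod_roots_of_monic hP).symm
  have hcard : Multiset.card P.roots = P.natDegree := hs.natDegree_eq_card_roots.symm
  have aux : ∀ s : Multiset ℂ, C ((-1 : ℂ) ^ Multiset.card s) *
      ((s.map (fun a => X - C a)).prod * ((s.map (fun a => X - C a)).prod).comp (-X)) =
      expand ℂ 2 ((s.map (fun z => z ^ 2)).map (fun a => X - C a)).prod := by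
    intro s
    induction s using Multiset.induction with
    | empty => simp
    | cons a s ih =>
      have h1 : (C (-1 : ℂ)) = -1 := by simp
      simp only [Multiset.map_cons, Multiset.prod_cons, Multiset.card_cons, mul_comp, sub_comp,
        X_comp, C_comp, map_mul, map_sub, expand_X, expand_C, map_pow]
      rw [← ih]
      simp only [C_pow, pow_succ, h1]
      ring
  have key : sq P = ((P.roots.map (fun z => z ^ 2)).map (fun a => X - C a)).prod := by
    apply expand_injective (R := ℂ) two_pos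
    have h2 := aux P.roots
    rw [hprod, hcard] at h2
    rw [expand_sq, h2]
  rw [key, roots_multiset_prod_X_sub_C]

theorem sq_eval {R T : Type*} [CommRing R] [CommRing T] [Algebra R T] (P : R[X]) (a : T)
    (h : aeval a P = 0) : aeval (a ^ 2) (sq P) = 0 := by
  rw [← expand_aeval, expand_sq, map_mul, map_mul, h, zero_mul, mul_zero]

end Pool.H22.Lh
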