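import Pool.Agent.H22.Lh.Core
import Pool.Agent.H22.Lh.CycF
import Pool.Agent.H22.Lh.SqP
import Pool.Agent.H22.Lh.Irr
import Pool.Agent.H22.Lh.Mean

/-!
# Auxiliary lemmas for ALGODD and ALGEVEN
-/

namespace Pool.H22.Lh

open Polynomial MeasureTheory Metric NumberField

/-- sum over embeddings and roots. -/
noncomputable def SS {L : Type*} [Field L] [NumberField L] (Q : L[X]) (F : ℂ → ℝ) : ℝ :=
  ∑ τ : L →+* ℂ, ((Q.map τ).roots.map F).sum

theorem SS_sq {L : Type*} [Field L] [NumberField L] (Q : L[X]) (hQ : Q.Monic) (F : ℂ → ℝ) :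
    SS (sq Q) F = SS Q (fun z => F (z ^ 2)) := by
  unfold SS
  apply Finset.sum_congr rfl
  intro τ _
  rw [← sq_map τ Q hQ, sq_roots _ (hQ.map τ), Multiset.map_map]
  rfl

theorem SS_map {L : Type*} [Field L] [NumberField L] (Q : L[X]) (φ : L ≃+* L) (F : ℂ → ℝ) :
    SS (Q.map (φ : L →+* L)) F = SS Q F := by
  unfold SS
  let e : (L →+* ℂ) ≃ (L →+* ℂ) :=
    { toFun := fun τ => τ.comp (φ : L →+* L)
      invFun := fun τ => τ.comp (φ.symm : L →+* L)
      left_inv := fun τ => by ext x; simp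
      right_inv := fun τ => by ext x; simp }
  have h := Equiv.sum_comp e (fun τ => ((Q.map τ).roots.map F).sum)
  rw [← h]
  apply Finset.sum_congr rfl
  intro τ _
  rw [Polynomial.map_map]
  rfl

theorem SS_mono {L : Type*} [Field L] [NumberField L] (Q : L[X]) (F G : ℂ → ℝ)
    (h : ∀ z, F z ≤ G z) : SS Q F ≤ SS Q G := by
  unfold SS
  apply Finset.sum_le_sum
  intro τ _
  exact Multiset.sum_map_le_sum_map _ _ (fun z _ => h z)

theorem SS_smul {L : Type*} [Field L] [NumberField L] (Q : L[X]) (c : ℝ) (F : ℂ → ℝ) :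
    SS Q (fun z => c * F z) = c * SS Q F := by
  unfold SS
  rw [Finset.mul_sum]
  apply Finset.sum_congr rfl
  intro τ _
  rw [Multiset.sum_map_mul_left]

theorem lp_pow (z : ℂ) (k : ℕ) : lp (z ^ k) = k * lp z := by
  unfold lp
  rw [norm_pow, Real.posLog_pow]

theorem phi_lp_sq (z : ℂ) : phi (lp (z ^ 2)) ≤ 4 * phi (lp z) := by
  rw [lp_pow]
  have := phi_mul_le (a := 2) (t := lp z) (by norm_num) (lp_nonneg z)
  norm_num at this ⊢
  exact this

theorem phi_lp_four (z : ℂ) : phi (lp (z ^ 4)) ≤ 16 * phi (lp z) := by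
  rw [lp_pow]
  have := phi_mul_le (a := 4) (t := lp z) (by norm_num) (lp_nonneg z)
  norm_num at this ⊢
  exact this

theorem SS_sq_phi {L : Type*} [Field L] [NumberField L] (Q : L[X]) (hQ : Q.Monic) :
    SS (sq Q) (fun z => phi (lp z)) ≤ 4 * SS Q (fun z => phi (lp z)) := by
  rw [SS_sq Q hQ, ← SS_smul]
  exact SS_mono _ _ _ phi_lp_sq

theorem SS_sq_sq_phi {L : Type*} [Field L] [NumberField L] (Q : L[X]) (hQ : Q.Monic) :
    SS (sq (sq Q)) (fun z => phi (lp z)) ≤ 16 * SS Q (fun z => phi (lp z)) := by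
  rw [SS_sq (sq Q) (sq_monic Q hQ), SS_sq Q hQ, ← SS_smul]
  apply SS_mono
  intro z
  have := phi_lp_four z
  rw [← pow_mul]
  exact this

theorem map_ring_comm {L : Type*} [Field L] [NumberField L] (φ : L →+* L) (Q : (𝓞 L)[X]) :
    (Q.map (RingOfIntegers.mapRingHom φ)).map (algebraMap (𝓞 L) L) =
      (Q.map (algebraMap (𝓞 L) L)).map φ := by
  rw [Polynomial.map_map, Polynomial.map_map]
  rfl

theorem minpoly_ring (N : ℕ) (α : ℂ) (hα : IsIntegral ℤ α) :
    minpoly (cyc N) α = (minpoly (𝓞 (cyc N)) α).map (algebraMap (𝓞 (cyc N)) (cyc N)) :=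
  minpoly.isIntegrallyClosed_eq_field_fractions' (cyc N) hα.tower_top

theorem core_roots {L : Type*} [Field L] [NumberField L] (U : (𝓞 L)[X]) (τ : L →+* ℂ) :
    (U.map (τ.comp (algebraMap (𝓞 L) L))).roots =
      ((U.map (algebraMap (𝓞 L) L)).map τ).roots := by
  rw [Polynomial.map_map]

theorem core' (L : Type*) [Field L] [NumberField L] (U V T : (𝓞 L)[X]) (hU : U.Monic)
    (hV : V.Monic) (hd : U.natDegree = V.natDegree) (h4 : U = V + C 4 * T)
    (hU0 : U.coeff 0 ≠ 0) (hV0 : V.coeff 0 ≠ 0)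
    (hns : ¬ ∃ g : L[X], g * g = U.map (algebraMap (𝓞 L) L) * V.map (algebraMap (𝓞 L) L))
    (K : ℝ)
    (hK : SS (U.map (algebraMap (𝓞 L) L)) (fun z => phi (lp z)) +
      SS (V.map (algebraMap (𝓞 L) L)) (fun z => phi (lp z)) ≤ Module.finrank ℚ L * K) :
    c1 / C1 ≤ 2 * U.natDegree * K := by
  apply core L U V T hU hV hd h4 hU0 hV0 hns K
  rw [Finset.sum_add_distrib]
  simp only [core_roots]
  exact hK

theorem irr_map {L : Type*} [Field L] (φ : L ≃+* L) (Q : L[X]) (hQ : Irreducible Q) :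
    Irreducible (Q.map (φ : L →+* L)) := by
  have h := (MulEquiv.irreducible_iff (Polynomial.mapEquiv φ) (x := Q)).2 hQ
  exact h

theorem mapRingHom_injective {L : Type*} [Field L] (φ : L →+* L) :
    Function.Injective (RingOfIntegers.mapRingHom φ : 𝓞 L →+* 𝓞 L) := by
  intro x y h
  apply RingOfIntegers.ext
  apply φ.injective
  rw [← RingOfIntegers.mapRingHom_apply, ← RingOfIntegers.mapRingHom_apply, h]

theorem mean_nonneg' (α : ℂ) : 0 ≤ meanC (fun z => phi (lp z)) α := by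
  unfold meanC
  apply div_nonneg
  · apply Multiset.sum_nonneg
    intro x hx
    rw [Multiset.mem_map] at hx
    obtain ⟨z, _, rfl⟩ := hx
    exact phi_nonneg (lp_nonneg z)
  · positivity

end Pool.H22.Lh
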