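import Pool.Agent.H22.Lh.CycF
import Pool.Agent.H22.Lh.SqP

/-!
# [H22 LH ODDC] Frobenius congruence, odd conductor

`φ` = the automorphism of `cyc N` with `φ ζ = ζ^2` (`N` odd so `2` is a unit mod `N`:
`IsCyclotomicExtension.autEquivPow`/`fromZetaAut` with `cyclotomic.irreducible_rat`; or
`IsPrimitiveRoot.powerBasis` and `minpoly`). Every `x ∈ 𝓞 (cyc N)` is in `ℤ[ζ]`
(`IsCyclotomicExtension.Rat.adjoin_singleton_eq_top`), so `x² - φ x ∈ 2 𝓞` (`x ↦ x²` and `φ` agree on `ℤ` and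
`ζ` modulo `2`, and both are ring homs to `𝓞/2`: induction `Algebra.adjoin_induction`).
Then `C(±1) P(X)P(-X) ≡ P(X)² ≡ ∑ P_i² X^(2i) ≡ ∑ φ(P_i) X^(2i) = expand 2 (P.map φ)` mod 2 (work in
`(𝓞/2)[X]`, a ring of characteristic 2, where `-X = X` and Frobenius is additive; or by hand), and
`expand_sq`; compare coefficients of `X^(2i)`.
-/

namespace Pool.H22.Lh

open Polynomial MeasureTheory Metric NumberField

/-- automorphisms of a cyclotomic field -/
theorem oc_aut (N : ℕ) (hN : N ≠ 0) (K : Type*) [Field K] [Algebra ℚ K]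
    [IsCyclotomicExtension {N} ℚ K] (ζ : K) (hζ : IsPrimitiveRoot ζ N) (t : ℕ)
    (ht : t.Coprime N) : ∃ φ : K ≃ₐ[ℚ] K, φ ζ = ζ ^ t := by
  have : NeZero N := ⟨hN⟩
  have hz := IsCyclotomicExtension.zeta_spec N ℚ K
  have hμ : IsPrimitiveRoot (IsCyclotomicExtension.zeta N ℚ K ^ t) N :=
    hz.pow_of_coprime t ht
  have hirr : Irreducible (cyclotomic N ℚ) := cyclotomic.irreducible_rat (Nat.pos_of_ne_zero hN)
  refine ⟨IsCyclotomicExtension.fromZetaAut hμ hirr, ?_⟩
  obtain ⟨k, hk, hk2⟩ := hz.eq_pow_of_pow_eq_one hζ.pow_eq_one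
  rw [← hk2, map_pow, IsCyclotomicExtension.fromZetaAut_spec, ← pow_mul, ← pow_mul, mul_comm]

/-- Frobenius congruence in the ring of integers -/
theorem oc_int (N : ℕ) (hN : N ≠ 0) (K : Type*) [Field K] [NumberField K]
    [IsCyclotomicExtension {N} ℚ K] (ζ : K) (hζ : IsPrimitiveRoot ζ N) (φ : K →+* K)
    (hφ : φ ζ = ζ ^ 2) (x : 𝓞 K) :
    ∃ y : 𝓞 K, x ^ 2 = RingOfIntegers.mapRingHom φ x + 2 * y := by
  have : NeZero N := ⟨hN⟩
  have htop := IsCyclotomicExtension.Rat.adjoin_singleton_eq_top (n := N) (K := K) hζ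
  have hx : x ∈ Algebra.adjoin ℤ {hζ.toInteger} := by
    rw [htop]
    exact Algebra.mem_top
  induction hx using Algebra.adjoin_induction with
  | mem x hx =>
    rw [Set.mem_singleton_iff] at hx
    subst hx
    refine ⟨0, ?_⟩
    rw [mul_zero, add_zero]
    apply RingOfIntegers.ext
    rw [RingOfIntegers.mapRingHom_apply]
    exact hφ.symm
  | algebraMap r =>
    obtain ⟨k, hk⟩ : ∃ k : ℤ, r ^ 2 = r + 2 * k := by
      obtain ⟨k, hk⟩ := Int.even_mul_pred_self r
      exact ⟨k, by linarith⟩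
    refine ⟨(k : 𝓞 K), ?_⟩
    rw [eq_intCast, map_intCast]
    have := congrArg (Int.cast : ℤ → 𝓞 K) hk
    push_cast at this
    exact this
  | add x y _ _ hx hy =>
    obtain ⟨a, ha⟩ := hx
    obtain ⟨b, hb⟩ := hy
    refine ⟨a + b + x * y, ?_⟩
    rw [map_add]
    linear_combination ha + hb
  | mul x y _ _ hx hy =>
    obtain ⟨a, ha⟩ := hx
    obtain ⟨b, hb⟩ := hy
    refine ⟨a * y ^ 2 + RingOfIntegers.mapRingHom φ x * b, ?_⟩
    rw [map_mul]
    linear_combination y ^ 2 * ha + RingOfIntegers.mapRingHom φ x * hb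

/-- the congruence modulo two for polynomials -/
theorem oc_cong {R : Type*} [CommRing R] (φ : R →+* R) (h : ∀ x, ∃ y, x ^ 2 = φ x + 2 * y)
    (P : R[X]) : ∃ T : R[X], sq P = P.map φ + C 2 * T := by
  set I : Ideal R := Ideal.span {(2 : R)} with hI
  have key : (sq P - P.map φ).map (Ideal.Quotient.mk I) = 0 := by
    rcases subsingleton_or_nontrivial (R ⧸ I) with h0 | h0
    · exact Subsingleton.elim _ _
    have h2 : (2 : R ⧸ I) = 0 := by
      have h3 : (Ideal.Quotient.mk I) (2 : R) = 0 :=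
        Ideal.Quotient.eq_zero_iff_mem.2 (Ideal.mem_span_singleton_self 2)
      rwa [map_ofNat] at h3
    have hchar : CharP (R ⧸ I) 2 := CharTwo.of_one_ne_zero_of_two_eq_zero one_ne_zero h2
    have : Fact (Nat.Prime 2) := ⟨Nat.prime_two⟩
    have hneg : (-X : (R ⧸ I)[X]) = X := by
      have h3 : (X + X : (R ⧸ I)[X]) = 0 := by
        have h4 : (X + X : (R ⧸ I)[X]) = C (2 : R ⧸ I) * X := by
          rw [map_ofNat]
          ring
        rw [h4, h2, C_0, zero_mul]
      exact neg_eq_of_add_eq_zero_right h3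
    have hsgn : (-1 : R ⧸ I) = 1 := by
      have h3 : (1 + 1 : R ⧸ I) = 0 := by rw [one_add_one_eq_two, h2]
      exact neg_eq_of_add_eq_zero_right h3
    have h3 : expand (R ⧸ I) 2 ((sq P).map (Ideal.Quotient.mk I)) =
        expand (R ⧸ I) 2 ((P.map φ).map (Ideal.Quotient.mk I)) := by
      rw [← map_expand, expand_sq, Polynomial.map_mul, Polynomial.map_mul, Polynomial.map_C,
        map_pow, map_neg, map_one, hsgn, one_pow, C_1, one_mul, Polynomial.map_comp,
        Polynomial.map_neg, Polynomial.map_X, hneg, comp_X, ← pow_two]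
      rw [← map_frobenius_expand 2, map_expand]
      congr 1
      ext k
      rw [coeff_map, coeff_map, coeff_map, coeff_map, frobenius_def]
      obtain ⟨y, hy⟩ := h (P.coeff k)
      rw [← map_pow, hy, map_add, map_mul, map_ofNat, h2, zero_mul, add_zero]
    have h4 := expand_injective (by norm_num : 0 < 2) h3
    rw [Polynomial.map_sub, h4, sub_self]
  have h5 : C (2 : R) ∣ sq P - P.map φ := by
    rw [C_dvd_iff_dvd_coeff]
    intro k
    have h6 := congrArg (fun q => coeff q k) key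
    simp only [coeff_map, coeff_zero] at h6
    exact Ideal.mem_span_singleton.1 (Ideal.Quotient.eq_zero_iff_mem.1 h6)
  obtain ⟨T, hT⟩ := h5
  exact ⟨T, by rw [← hT]; ring⟩

theorem odd_cong (N : ℕ) (hN : Odd N) :
    ∃ φ : cyc N ≃ₐ[ℚ] cyc N, ∀ P : (𝓞 (cyc N))[X], ∃ T : (𝓞 (cyc N))[X],
      sq P = P.map (RingOfIntegers.mapRingHom (φ : cyc N →+* cyc N)) + C 2 * T := by
  have hN0 : N ≠ 0 := by
    rintro rfl
    simp at hN
  have := cyc_isCyc N hN0
  obtain ⟨φ, hφ⟩ := oc_aut N hN0 (cyc N) (zN N) (zN_prim N hN0) 2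
    (Nat.coprime_two_left.2 hN)
  refine ⟨φ, fun P => oc_cong _ (fun x => ?_) P⟩
  exact oc_int N hN0 (cyc N) (zN N) (zN_prim N hN0) (φ : cyc N →+* cyc N) hφ x

end Pool.H22.Lh
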