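import Pool.Agent.H22.Lh.CycF
import Pool.Agent.H22.Lh.SqP
import Pool.Agent.H22.Lh.OddC

/-!
# [H22 LH EVENC] the congruence for conductors divisible by 4

`4 ∣ N`: `1 + N/2` is a unit mod `N` and `ζ^(1+N/2) = -ζ`, so there is an automorphism `σ` of `cyc N` with
`σ ζ = -ζ`; it fixes `ζ²`, the generator of `cyc (N/2)` (`exp(2πi/N)^2 = exp(2πi/(N/2))`), hence `cyc (N/2)`.
Every `x ∈ cyc N` is `a + ζ b` with `a, b ∈ cyc (N/2)`; `σ x = a - ζ b`, so `σ x = x` gives `b = 0`.
Every `x ∈ 𝓞 (cyc N) = ℤ[ζ]` is `a + ζ b` with `a, b ∈ ℤ[ζ²]` (fixed by `σ`)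
(`Algebra.adjoin_induction`). So `P = A + C ζ * B` with `A, B` fixed by `σ` (choose coefficients), and
`P(X)P(-X) = A A⁻ + ζ² B B⁻ + ζ (A B⁻ + A⁻ B)` (`A⁻ = A(-X)`), where `A B⁻ + A⁻ B = E(X) + E(-X)`,
`E = A B⁻`, is `2 *` (even part of `E`). Applying `σ` changes the sign of the last term only, so the
difference is `4 ζ (even part of E)`. Use `expand_sq` (and `natDegree (P.map σ) = natDegree P`).
-/

namespace Pool.H22.Lh

open Polynomial MeasureTheory Metric NumberField

/-- elements of `R[ζ]` are `a + ζ b` with `a, b` in `R[ζ^2]` -/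
theorem ec_split {R L : Type*} [CommRing R] [CommRing L] [Algebra R L] (ζ : L) (x : L)
    (hx : x ∈ Algebra.adjoin R {ζ}) :
    ∃ a ∈ Algebra.adjoin R {ζ ^ 2}, ∃ b ∈ Algebra.adjoin R {ζ ^ 2}, x = a + ζ * b := by
  have hz2 : ζ ^ 2 ∈ Algebra.adjoin R {ζ ^ 2} := Algebra.subset_adjoin (Set.mem_singleton _)
  induction hx using Algebra.adjoin_induction with
  | mem x hx =>
    rw [Set.mem_singleton_iff] at hx
    subst hx
    exact ⟨0, zero_mem _, 1, one_mem _, by ring⟩
  | algebraMap r =>
    exact ⟨algebraMap R L r, Subalgebra.algebraMap_mem _ _, 0, zero_mem _, by ring⟩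
  | add x y _ _ hx hy =>
    obtain ⟨a, ha, b, hb, rfl⟩ := hx
    obtain ⟨c, hc, d, hd, rfl⟩ := hy
    exact ⟨a + c, add_mem ha hc, b + d, add_mem hb hd, by ring⟩
  | mul x y _ _ hx hy =>
    obtain ⟨a, ha, b, hb, rfl⟩ := hx
    obtain ⟨c, hc, d, hd, rfl⟩ := hy
    exact ⟨a * c + ζ ^ 2 * (b * d), add_mem (mul_mem ha hc) (mul_mem hz2 (mul_mem hb hd)),
      a * d + b * c, add_mem (mul_mem ha hd) (mul_mem hb hc), by ring⟩

/-- elements of `R[ζ^2]` are fixed -/
theorem ec_fix {R L : Type*} [CommRing R] [CommRing L] [Algebra R L] (ζ : L) (σ : L →+* L)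
    (hR : ∀ r : R, σ (algebraMap R L r) = algebraMap R L r) (hσ : σ ζ = -ζ) (x : L)
    (hx : x ∈ Algebra.adjoin R {ζ ^ 2}) : σ x = x := by
  induction hx using Algebra.adjoin_induction with
  | mem x hx =>
    rw [Set.mem_singleton_iff] at hx
    subst hx
    rw [map_pow, hσ, neg_sq]
  | algebraMap r => exact hR r
  | add x y _ _ hx hy => rw [map_add, hx, hy]
  | mul x y _ _ hx hy => rw [map_mul, hx, hy]

theorem ec_coeff_comp {R : Type*} [CommRing R] (P : R[X]) (k : ℕ) :
    (P.comp (-X)).coeff k = P.coeff k * (-1) ^ k := by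
  have h : (-X : R[X]) = C (-1) * X := by
    rw [C_neg, C_1]
    ring
  rw [h, comp_C_mul_X_coeff]

theorem ec_even_part {R : Type*} [CommRing R] (E : R[X]) :
    E + E.comp (-X) = C 2 * expand R 2 (contract 2 E) := by
  ext k
  rw [coeff_add, ec_coeff_comp, coeff_C_mul, coeff_expand (by norm_num)]
  split_ifs with h
  · rw [coeff_contract (by norm_num), Nat.div_mul_cancel h, (Even.neg_one_pow (even_iff_two_dvd.2 h))]
    ring
  · rw [Odd.neg_one_pow (by rwa [← Nat.not_even_iff_odd, even_iff_two_dvd])]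
    ring

/-- the congruence modulo four for polynomials -/
theorem ec_cong {R : Type*} [CommRing R] (σ : R →+* R) (hinj : Function.Injective σ) (ζ : R)
    (hσ : σ ζ = -ζ)
    (h : ∀ x : R, ∃ a b : R, σ a = a ∧ σ b = b ∧ x = a + ζ * b) (P : R[X]) :
    ∃ T : R[X], sq P = (sq P).map σ + C 4 * T := by
  choose fa fb hfa hfb hx using h
  set A : R[X] := ∑ i ∈ Finset.range (P.natDegree + 1), monomial i (fa (P.coeff i)) with hA
  set B : R[X] := ∑ i ∈ Finset.range (P.natDegree + 1), monomial i (fb (P.coeff i)) with hB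
  have hP : P = A + C ζ * B := by
    conv_lhs => rw [P.as_sum_range]
    rw [hA, hB, Finset.mul_sum, ← Finset.sum_add_distrib]
    refine Finset.sum_congr rfl fun i _ => ?_
    rw [C_mul_monomial, ← map_add, ← hx]
  have hAs : A.map σ = A := by
    rw [hA, Polynomial.map_sum]
    refine Finset.sum_congr rfl fun i _ => ?_
    rw [map_monomial, hfa]
  have hBs : B.map σ = B := by
    rw [hB, Polynomial.map_sum]
    refine Finset.sum_congr rfl fun i _ => ?_
    rw [map_monomial, hfb]
  have hcomp : ∀ Q : R[X], (Q.comp (-X)).map σ = (Q.map σ).comp (-X) := by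
    intro Q
    rw [Polynomial.map_comp, Polynomial.map_neg, Polynomial.map_X]
  set E : R[X] := A * B.comp (-X) with hE
  have hE2 : E + E.comp (-X) = A * B.comp (-X) + A.comp (-X) * B := by
    rw [hE, mul_comp_neg_X, comp_neg_X_comp_neg_X]
  have hPs : P.map σ = A - C ζ * B := by
    rw [hP, Polynomial.map_add, Polynomial.map_mul, Polynomial.map_C, hσ, hAs, hBs, C_neg]
    ring
  have hPc : P.comp (-X) = A.comp (-X) + C ζ * B.comp (-X) := by
    conv_lhs => rw [hP]
    rw [add_comp, mul_comp, C_comp]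
  have hPcs : (P.comp (-X)).map σ = A.comp (-X) - C ζ * B.comp (-X) := by
    rw [hcomp, hPs, sub_comp, mul_comp, C_comp]
  refine ⟨C ((-1) ^ P.natDegree) * (C ζ * contract 2 E), ?_⟩
  apply expand_injective (R := R) (n := 2) (by norm_num)
  have hs : σ ((-1 : R) ^ P.natDegree) = (-1) ^ P.natDegree := by
    rw [map_pow, map_neg, map_one]
  rw [map_add, ← map_expand, expand_sq, map_mul, map_mul, map_mul, expand_C, expand_C, expand_C,
    Polynomial.map_mul, Polynomial.map_mul, Polynomial.map_C, hs, hPs,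
    hPcs, hPc]
  have h4 : C (4 : R) = C 2 * C 2 := by
    rw [← C_mul]
    norm_num
  have h5 := ec_even_part E
  rw [hE2] at h5
  have h6 : P * (A.comp (-X) + C ζ * B.comp (-X)) =
      (A - C ζ * B) * (A.comp (-X) - C ζ * B.comp (-X)) +
        C 2 * C ζ * (A * B.comp (-X) + A.comp (-X) * B) := by
    conv_lhs => rw [hP]
    have h7 : (C 2 : R[X]) = 2 := rfl
    rw [h7]
    ring
  rw [h6, h5, h4]
  ring

theorem even_cong (N : ℕ) (hN : N ≠ 0) (h4 : 4 ∣ N) :
    ∃ σ : cyc N ≃ₐ[ℚ] cyc N, σ (zN N) = -zN N ∧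
      (∀ x : cyc N, σ x = x → (x : ℂ) ∈ cyc (N / 2)) ∧
      ∀ P : (𝓞 (cyc N))[X], ∃ T : (𝓞 (cyc N))[X],
        sq P = (sq P).map (RingOfIntegers.mapRingHom (σ : cyc N →+* cyc N)) + C 4 * T := by
  have hcyc := cyc_isCyc N hN
  have hNz : NeZero N := ⟨hN⟩
  have hz := zN_prim N hN
  obtain ⟨m, hm⟩ : ∃ m, N = 2 * m := ⟨N / 2, by omega⟩
  have hm2 : m % 2 = 0 := by omega
  have hcop : Nat.Coprime (1 + m) N := by
    rw [hm]
    apply Nat.Coprime.mul_right
    · rw [Nat.coprime_two_right]
      rw [Nat.odd_iff]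
      omega
    · simp
  obtain ⟨σ, hσ⟩ := oc_aut N hN (cyc N) (zN N) hz (1 + m) hcop
  have hzm : zN N ^ m = -1 := by
    have h1 : (zN N ^ m - 1) * (zN N ^ m + 1) = 0 := by
      have h2 : zN N ^ (2 * m) = 1 := by
        rw [← hm]
        exact hz.pow_eq_one
      have h3 : (zN N ^ m - 1) * (zN N ^ m + 1) = zN N ^ (2 * m) - 1 := by
        rw [two_mul, pow_add]
        ring
      rw [h3, h2, sub_self]
    rcases mul_eq_zero.1 h1 with h2 | h2
    · exfalso
      have h3 : zN N ^ m = 1 := sub_eq_zero.1 h2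
      have h4 := hz.dvd_of_pow_eq_one m h3
      have h5 := Nat.le_of_dvd (by omega) h4
      omega
    · exact eq_neg_of_add_eq_zero_left h2
  have hσz : σ (zN N) = -zN N := by
    rw [hσ, pow_add, pow_one, hzm]
    ring
  refine ⟨σ, hσz, ?_, ?_⟩
  · intro x hx
    have htop := IsCyclotomicExtension.adjoin_primitive_root_eq_top (A := ℚ) (B := cyc N) hz
    have hxm : x ∈ Algebra.adjoin ℚ {zN N} := by
      rw [htop]
      exact Algebra.mem_top
    obtain ⟨a, ha, b, hb, hab⟩ := ec_split (R := ℚ) (zN N) x hxm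
    have hfa : σ a = a := ec_fix (R := ℚ) (zN N) (σ : cyc N →+* cyc N)
      (fun r => σ.commutes r) hσz a ha
    have hfb : σ b = b := ec_fix (R := ℚ) (zN N) (σ : cyc N →+* cyc N)
      (fun r => σ.commutes r) hσz b hb
    have hb0 : b = 0 := by
      rw [hab, map_add, map_mul, hσz, hfa, hfb] at hx
      have h1 : zN N * b = 0 := by
        have h2 : (2 : cyc N) * (zN N * b) = 0 := by linear_combination (-1) * hx
        exact (mul_eq_zero.1 h2).resolve_left two_ne_zero
      exact (mul_eq_zero.1 h1).resolve_left (hz.ne_zero hN)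
    rw [hb0, mul_zero, add_zero] at hab
    rw [hab]
    have hgen : ((zN N ^ 2 : cyc N) : ℂ) ∈ cyc (N / 2) := by
      have h1 : ((zN N ^ 2 : cyc N) : ℂ) = ((zN (N / 2) : cyc (N / 2)) : ℂ) := by
        push_cast
        show Complex.exp (2 * Real.pi * Complex.I / N) ^ 2 =
          Complex.exp (2 * Real.pi * Complex.I / ((N / 2 : ℕ) : ℂ))
        rw [← Complex.exp_nat_mul]
        congr 1
        have h2 : N / 2 = m := by omega
        rw [h2, hm]
        have h3 : (m : ℂ) ≠ 0 := by
          have : m ≠ 0 := by omega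
          exact_mod_cast this
        push_cast
        field_simp
      rw [h1]
      exact (zN (N / 2)).2
    clear hx hxm hfa hab
    induction ha using Algebra.adjoin_induction with
    | mem y hy =>
      rw [Set.mem_singleton_iff] at hy
      subst hy
      exact hgen
    | algebraMap r => exact (cyc (N / 2)).algebraMap_mem r
    | add y z _ _ hy hz => exact add_mem hy hz
    | mul y z _ _ hy hz => exact mul_mem hy hz
  · intro P
    refine ec_cong _ ?_ hz.toInteger ?_ ?_ P
    · intro x y hxy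
      apply RingOfIntegers.ext
      have h1 := congrArg (fun t : 𝓞 (cyc N) => (t : cyc N)) hxy
      simp only [RingOfIntegers.mapRingHom_apply] at h1
      exact σ.injective h1
    · apply RingOfIntegers.ext
      rw [RingOfIntegers.mapRingHom_apply]
      exact hσz
    · intro x
      have htop := IsCyclotomicExtension.Rat.adjoin_singleton_eq_top (n := N) (K := cyc N) hz
      have hxm : x ∈ Algebra.adjoin ℤ {hz.toInteger} := by
        rw [htop]
        exact Algebra.mem_top
      have hs : RingOfIntegers.mapRingHom (σ : cyc N →+* cyc N) hz.toInteger =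
          -hz.toInteger := by
        apply RingOfIntegers.ext
        rw [RingOfIntegers.mapRingHom_apply]
        exact hσz
      obtain ⟨a, ha, b, hb, hab⟩ := ec_split (R := ℤ) hz.toInteger x hxm
      exact ⟨a, b, ec_fix (R := ℤ) hz.toInteger _ (fun r => by rw [eq_intCast, map_intCast]) hs a ha,
        ec_fix (R := ℤ) hz.toInteger _ (fun r => by rw [eq_intCast, map_intCast]) hs b hb, hab⟩

end Pool.H22.Lh
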