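import Pool.Agent.H22.Lh.Core
import Pool.Agent.H22.Lh.EvenC
import Pool.Agent.H22.Lh.Irr
import Pool.Agent.H22.Lh.Mean
import Pool.Agent.H22.Lh.AlgAux

/-!
# [H22 LH ALGEVEN] conductor divisible by 4

`L = cyc N`, `O = 𝓞 L`, `P₀ = minpoly O α` (image `P = minpoly L α` over `L`,
`minpoly.isIntegrallyClosed_eq_field_fractions'`), `d = deg P`, `σ` from `even_cong`,
`U = sq P₀`, `V = (sq P₀).map σ`, `U = V + 4T` by `even_cong`.
* not a square: `V` is irreducible over `L` (`sq_irreducible`, `σ` automorphism), so `nonsq` gives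
  `sq P = (sq P).map σ = sq (P.map σ)`; `sq_eq` (both `P` and `P.map σ` irreducible monic of the same degree):
  `P.map σ = P` or `P.map σ = C((-1)^d) * P.comp(-X)`. In the first case every coefficient is fixed by `σ`, so lies
  in `cyc (N/2)`, contradicting `hc1`. In the second, `(P.scaleRoots ζ).map σ = P.scaleRoots ζ`
  (coefficient `i`: `σ(P_i ζ^(d-i)) = (-1)^d (-1)^i P_i (-1)^(d-i) ζ^(d-i)`), contradicting `hc2`.
* `hK` with `K = 8 d meanC (phi ∘ lp) α ≤ 20 d ...`: roots of `U^τ` are `z²`, `z` root of `P^τ`, and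
  `V^τ = U^(τσ)`; `phi (2x) ≤ 4 phi x`; `sum_emb`.
-/

namespace Pool.H22.Lh

open Polynomial MeasureTheory Metric NumberField

theorem coeff_comp_neg_X' {L : Type*} [CommRing L] (P : L[X]) (i : ℕ) :
    (P.comp (-X)).coeff i = (-1) ^ i * P.coeff i := by
  rw [← neg_one_mul (X : L[X]), ← C_1, ← C_neg, comp_C_mul_X_coeff, mul_comm]

theorem alg_even (N : ℕ) (hN : N ≠ 0) (h4 : 4 ∣ N) (α : ℂ) (hα : IsIntegral ℤ α) (h0 : α ≠ 0)
    (hne : (minpoly (cyc N) α).comp (-X) ≠
      C ((-1) ^ (minpoly (cyc N) α).natDegree) * minpoly (cyc N) α)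
    (hc1 : ¬ ∀ i, ((minpoly (cyc N) α).coeff i : ℂ) ∈ cyc (N / 2))
    (hc2 : ¬ ∀ i, (((minpoly (cyc N) α).scaleRoots (zN N)).coeff i : ℂ) ∈ cyc (N / 2)) :
    c1 / C1 ≤ 40 * ((minpoly (cyc N) α).natDegree : ℝ) ^ 2 *
      meanC (fun z => phi (lp z)) α := by
  obtain ⟨σ, hσ, hfix, hcong⟩ := even_cong N hN h4
  have hαL : IsIntegral (cyc N) α := hα.tower_top
  have hαO : IsIntegral (𝓞 (cyc N)) α := hα.tower_top
  set P := minpoly (cyc N) α with hP
  set P0 := minpoly (𝓞 (cyc N)) α with hP0
  have hPP : P = P0.map (algebraMap (𝓞 (cyc N)) (cyc N)) := minpoly_ring N α hα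
  have hPm : P.Monic := minpoly.monic hαL
  have hP0m : P0.Monic := minpoly.monic hαO
  have hPi : Irreducible P := minpoly.irreducible hαL
  have hdeg : P0.natDegree = P.natDegree := by
    rw [hPP, hP0m.natDegree_map]
  let s : cyc N →+* cyc N := (σ : cyc N →+* cyc N)
  let s' : cyc N ≃+* cyc N := σ.toRingEquiv
  have hss : (s' : cyc N →+* cyc N) = s := rfl
  let sO : 𝓞 (cyc N) →+* 𝓞 (cyc N) := RingOfIntegers.mapRingHom s
  obtain ⟨T, hT⟩ := hcong P0
  have hUm : (sq P0).Monic := sq_monic P0 hP0m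
  have hU : (sq P0).map (algebraMap (𝓞 (cyc N)) (cyc N)) = sq P := by
    rw [hPP, sq_map _ _ hP0m]
  have hV : ((sq P0).map sO).map (algebraMap (𝓞 (cyc N)) (cyc N)) = (sq P).map s := by
    rw [map_ring_comm, hU]
  have hdU : (sq P0).natDegree = P.natDegree := by rw [natDegree_sq _ hP0m, hdeg]
  have hUc : (sq P0).coeff 0 ≠ 0 := by
    rw [sq_coeff_zero]
    apply mul_ne_zero (pow_ne_zero _ (neg_ne_zero.2 one_ne_zero))
    apply pow_ne_zero
    intro h
    apply minpoly.coeff_zero_ne_zero hαL h0
    change P.coeff 0 = 0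
    rw [hPP, coeff_map, h, map_zero]
  have hsum : SS P (fun z => phi (lp z)) = Module.finrank ℚ (cyc N) * P.natDegree *
      meanC (fun z => phi (lp z)) α := sum_emb (cyc N) α hα.tower_top _
  have key := core' (cyc N) (sq P0) ((sq P0).map sO) T hUm (hUm.map _)
    (by rw [hUm.natDegree_map]) hT hUc
    (by
      rw [coeff_map]
      intro h
      apply hUc
      apply mapRingHom_injective s
      rw [map_zero]
      exact h)
    (by
      rw [hU, hV]
      rintro ⟨g, hg⟩
      have hsqm : (sq P).Monic := sq_monic P hPm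
      have hirr : Irreducible (sq P) := sq_irreducible P hPm hPi hne
      have hirr' : Irreducible ((sq P).map s) := irr_map s' _ hirr
      have heq := nonsq (sq P) ((sq P).map s) g hsqm (hsqm.map _) hirr'
        (by rw [hsqm.natDegree_map]) hg
      rw [← sq_map s P hPm] at heq
      have hmi : Irreducible (P.map s) := irr_map s' _ hPi
      rcases sq_eq P (P.map s) hPm (hPm.map _) hPi hmi (by rw [hPm.natDegree_map]) heq with h | h
      · apply hc1
        intro i
        apply hfix
        have := congrArg (fun q => coeff q i) h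
        simp only [coeff_map] at this
        exact this
      · apply hc2
        intro i
        apply hfix
        rw [coeff_scaleRoots]
        have hi := congrArg (fun q => coeff q i) h
        simp only [coeff_map, coeff_C_mul, coeff_comp_neg_X'] at hi
        have hi' : σ (P.coeff i) = (-1) ^ P.natDegree * ((-1) ^ i * P.coeff i) := hi
        rw [map_mul, map_pow, hσ, hi']
        by_cases hle : i ≤ P.natDegree
        · obtain ⟨k, hk⟩ := Nat.exists_eq_add_of_le hle
          have hk' : P.natDegree - i = k := by omega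
          rw [hk', hk, neg_pow (zN N) k]
          have e1 : ((-1 : cyc N)) ^ (i + k) * ((-1) ^ i * P.coeff i) * ((-1) ^ k * zN N ^ k) =
              ((-1) ^ (2 * (i + k))) * (P.coeff i * zN N ^ k) := by ring
          rw [e1, pow_mul]
          norm_num
        · rw [coeff_eq_zero_of_natDegree_lt (not_le.1 hle)]
          ring)
    (8 * P.natDegree * meanC (fun z => phi (lp z)) α)
    (by
      rw [hU, hV, ← hss, SS_map]
      have := SS_sq_phi P hPm
      rw [hsum] at this
      linarith)
  rw [hdU] at key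
  have hmn := mean_nonneg' α
  have : 0 ≤ (P.natDegree : ℝ) ^ 2 * meanC (fun z => phi (lp z)) α := by positivity
  nlinarith
end Pool.H22.Lh
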