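import Pool.Agent.H22.Lh.AlgOdd
import Pool.Agent.H22.Lh.AlgEven

/-!
# [H22 LH ALG] descent

Say `Z α D k`: there are `N ≠ 0` with `N.factorization 2 = k`, a root of unity `ζ`, and a monic `P : ℂ[X]` of
degree `D` with coefficients in `cyc N` and `P(ζα) = 0`. Strong induction on `P.natDegree` (for all `α`): let `D`
be minimal with `∃ k, Z α D k` (`D ≤ P.natDegree`), `k` minimal with `Z α D k`, and `N, ζ, P` accordingly; enlarge
nothing. Replace `α` by `α' = ζα` (`mean_root`; `α'` is integral, nonzero, not a root of unity; `Z α' = Z α`).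
`Q = minpoly (cyc N) α'` has degree `≤ D` (divides `P`), so `= D` by minimality and `Q ↦ P`.
* If `Q(-X) = (-1)^D Q(X)`: all coefficients `Q_i` with `i ≢ D mod 2` vanish. `Q(0) ≠ 0` so `D` is even,
  `Q = expand 2 R`, `R = contract 2 Q` monic of degree `D/2 < D` over `cyc N`, `R(α'²) = 0`; induction hypothesis for `α'²` and
  `mean_phi_sq`: `c1/C1 ≤ 40 (D/2)² * 4 mean = 40 D² mean`.
* Otherwise, `k = 0`: `alg_odd`. `k = 1`: `N = 2N'`, `cyc N = cyc N'` (`cyc_two_odd`), contradicting the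
  minimality of `k` (or use `alg_odd` for `N'`). `k ≥ 2`: `4 ∣ N`; `alg_even`: if all coefficients of `Q` are in
  `cyc (N/2)` then `Z α D (k-1)`, contradiction; if all coefficients of `Q.scaleRoots ζ_N` are in
  `cyc (N/2)` then (it kills `ζ_N α'`) again `Z α D (k-1)`.
-/

namespace Pool.H22.Lh

open Polynomial MeasureTheory Metric NumberField

/-- `α` becomes, after multiplication by a root of unity, a root of a monic polynomial of degree
`D` over a cyclotomic field whose conductor has 2-part `2^k`. -/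
private def ZZ (α : ℂ) (D k : ℕ) : Prop :=
  ∃ N : ℕ, N ≠ 0 ∧ N.factorization 2 = k ∧ ∃ ζ : ℂ, ∃ r : ℕ, 0 < r ∧ ζ ^ r = 1 ∧
    ∃ P : ℂ[X], P.Monic ∧ P.natDegree = D ∧ (∀ i, P.coeff i ∈ cyc N) ∧ P.eval (ζ * α) = 0

private theorem alg_aux (n : ℕ) : ∀ (k : ℕ) (α : ℂ), IsIntegral ℤ α → α ≠ 0 →
    (∀ j : ℕ, 0 < j → α ^ j ≠ 1) → ZZ α n k →
    c1 / C1 ≤ 40 * (n : ℝ) ^ 2 * meanC (fun z => phi (lp z)) α := by
  induction n using Nat.strong_induction_on with
  | _ n ihn =>
  intro k
  induction k using Nat.strong_induction_on with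
  | _ k ihk =>
  intro α hα h0 h1 hZ
  obtain ⟨N, hN, hNk, ζ, r, hr, hζ, P, hP, hPd, hc, hroot⟩ := hZ
  have hζ0 : ζ ≠ 0 := by
    intro h
    rw [h, zero_pow hr.ne'] at hζ
    exact zero_ne_one hζ
  have hζi : IsIntegral ℤ ζ := IsIntegral.of_pow hr (by rw [hζ]; exact isIntegral_one)
  have hα' : IsIntegral ℤ (ζ * α) := hζi.mul hα
  have h0' : ζ * α ≠ 0 := mul_ne_zero hζ0 h0
  have h1' : ∀ j : ℕ, 0 < j → (ζ * α) ^ j ≠ 1 := by
    intro j hj h
    apply h1 (j * r) (Nat.mul_pos hj hr)
    have h2 : (ζ * α) ^ (j * r) = 1 := by rw [pow_mul, h, one_pow]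
    have h3 : ζ ^ (j * r) = 1 := by rw [mul_comm, pow_mul, hζ, one_pow]
    rw [mul_pow, h3, one_mul] at h2
    exact h2
  have hαQ : IsIntegral ℚ α := hα.tower_top
  have hmean : meanC (fun z => phi (lp z)) (ζ * α) = meanC (fun z => phi (lp z)) α :=
    mean_root α ζ hαQ r hr hζ (fun x => phi (Real.posLog x))
  have hαL : IsIntegral (cyc N) (ζ * α) := hα'.tower_top
  have hcpos : 0 < c1 / C1 := by unfold c1 C1; norm_num
  -- the polynomial `P` over `cyc N`
  obtain ⟨P', hP'1, hP'2, hP'3⟩ : ∃ P' : (cyc N)[X],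
      P'.map (algebraMap (cyc N) ℂ) = P ∧ P'.degree = P.degree ∧ P'.Monic := by
    have hl : P ∈ Polynomial.lifts (algebraMap (cyc N) ℂ) := by
      rw [Polynomial.lifts_iff_coeff_lifts]
      intro i
      exact ⟨⟨P.coeff i, hc i⟩, rfl⟩
    exact Polynomial.lifts_and_degree_eq_and_monic hl hP
  have hP'r : aeval (ζ * α) P' = 0 := by
    rw [aeval_def, ← eval_map, hP'1]
    exact hroot
  set Q : (cyc N)[X] := minpoly (cyc N) (ζ * α) with hQ
  have hQm : Q.Monic := minpoly.monic hαL
  have hQr : aeval (ζ * α) Q = 0 := minpoly.aeval _ _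
  have hQpos : 0 < Q.natDegree := minpoly.natDegree_pos hαL
  have hQle : Q.natDegree ≤ n := by
    rw [← hPd, ← hP'1, natDegree_map]
    exact natDegree_le_natDegree (minpoly.min (cyc N) (ζ * α) hP'3 hP'r)
  -- lifting polynomials over the subfield
  have key : ∀ (M : ℕ) (R : (cyc N)[X]) (β : ℂ), R.Monic → (∀ i, ((R.coeff i : cyc N) : ℂ) ∈ cyc M) →
      M ≠ 0 → aeval β R = 0 → ∀ (ξ : ℂ) (s : ℕ) (γ : ℂ), 0 < s → ξ ^ s = 1 → ξ * γ = β →
      ZZ γ R.natDegree (M.factorization 2) := by
    intro M R β hR hRc hM hRr ξ s γ hs hξ hγ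
    refine ⟨M, hM, rfl, ξ, s, hs, hξ, R.map (algebraMap (cyc N) ℂ), hR.map _, ?_, ?_, ?_⟩
    · exact natDegree_map _
    · intro i
      rw [coeff_map]
      exact hRc i
    · rw [hγ, eval_map, ← aeval_def]
      exact hRr
  rcases lt_or_eq_of_le hQle with hlt | heq
  · -- smaller degree
    have hz := key N Q (ζ * α) hQm (fun i => (Q.coeff i).2) hN hQr ζ r α hr hζ rfl
    have h2 := ihn Q.natDegree hlt _ α hα h0 h1 hz
    have hm : 0 ≤ meanC (fun z => phi (lp z)) α := by
      by_contra hneg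
      push Not at hneg
      have : 40 * (Q.natDegree : ℝ) ^ 2 * meanC (fun z => phi (lp z)) α ≤ 0 :=
        mul_nonpos_of_nonneg_of_nonpos (by positivity) hneg.le
      linarith
    refine h2.trans ?_
    apply mul_le_mul_of_nonneg_right _ hm
    have : (Q.natDegree : ℝ) ≤ n := by exact_mod_cast hQle
    have h3 : (Q.natDegree : ℝ) ^ 2 ≤ (n : ℝ) ^ 2 := by gcongr
    linarith
  by_cases hsym : Q.comp (-X) = C ((-1) ^ Q.natDegree) * Q
  · -- the symmetric case
    have hcoef : ∀ i, (-1 : cyc N) ^ i * Q.coeff i = (-1) ^ Q.natDegree * Q.coeff i := by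
      intro i
      have h := congrArg (fun p => p.coeff i) hsym
      have hX : (-X : (cyc N)[X]) = C (-1) * X := by
        rw [C_neg, C_1, neg_mul, one_mul]
      simp only [hX, comp_C_mul_X_coeff, coeff_C_mul] at h
      rw [mul_comm]
      simpa [← C_neg, ← C_1, ← C_pow] using h
    have hQ0 : Q.coeff 0 ≠ 0 := minpoly.coeff_zero_ne_zero hαL h0'
    have hev : Even Q.natDegree := by
      by_contra hodd
      rw [Nat.not_even_iff_odd] at hodd
      have := hcoef 0
      rw [pow_zero, one_mul, hodd.neg_one_pow] at this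
      apply hQ0
      have h2 : (2 : cyc N) * Q.coeff 0 = 0 := by linear_combination this
      exact (mul_eq_zero.1 h2).resolve_left two_ne_zero
    have hodd0 : ∀ i, Odd i → Q.coeff i = 0 := by
      intro i hi
      have := hcoef i
      rw [hi.neg_one_pow, hev.neg_one_pow] at this
      have h2 : (2 : cyc N) * Q.coeff i = 0 := by linear_combination -this
      exact (mul_eq_zero.1 h2).resolve_left two_ne_zero
    have hexp : expand (cyc N) 2 (contract 2 Q) = Q := by
      ext i
      rw [coeff_expand two_pos, coeff_contract two_ne_zero]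
      split_ifs with hi
      · rw [Nat.div_mul_cancel hi]
      · rw [hodd0 i]
        rw [← Nat.not_even_iff_odd]
        intro h
        exact hi h.two_dvd
    have hRm : (contract 2 Q).Monic := by
      rw [← monic_expand_iff (p := 2) two_pos, hexp]
      exact hQm
    have hRd : (contract 2 Q).natDegree * 2 = Q.natDegree := by
      rw [← natDegree_expand, hexp]
    have hRr : aeval ((ζ * α) ^ 2) (contract 2 Q) = 0 := by
      rw [← expand_aeval, hexp]
      exact hQr
    have hz := key N (contract 2 Q) ((ζ * α) ^ 2) hRm (fun i => ((contract 2 Q).coeff i).2) hN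
      hRr 1 1 ((ζ * α) ^ 2) one_pos (one_pow 1) (one_mul _)
    have hlt : (contract 2 Q).natDegree < n := by omega
    have h2 := ihn _ hlt _ ((ζ * α) ^ 2) (hα'.pow 2) (pow_ne_zero 2 h0')
      (fun j hj h => h1' (2 * j) (by omega) (by rw [pow_mul]; exact h)) hz
    have h3 := mean_phi_sq (ζ * α) hα'.tower_top
    rw [hmean] at h3
    have hn : (n : ℝ) = ((contract 2 Q).natDegree : ℝ) * 2 := by
      rw [← heq, ← hRd]; push_cast; ring
    have h4 : 40 * ((contract 2 Q).natDegree : ℝ) ^ 2 *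
        meanC (fun z => phi (lp z)) ((ζ * α) ^ 2) ≤
        40 * ((contract 2 Q).natDegree : ℝ) ^ 2 * (4 * meanC (fun z => phi (lp z)) α) :=
      mul_le_mul_of_nonneg_left h3 (by positivity)
    refine h2.trans (h4.trans (le_of_eq ?_))
    rw [hn]; ring
  -- the main case
  rcases Nat.eq_zero_or_pos k with hk0 | hkpos
  · have hodd : Odd N := by
      rw [← Nat.not_even_iff_odd]
      intro hE
      have h2 : ¬ (2 ∣ N) := by
        have := (Nat.factorization_eq_zero_iff N 2).1 (by rw [hNk, hk0])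
        rcases this with h | h | h
        · exact absurd Nat.prime_two h
        · exact h
        · exact absurd h hN
      exact h2 hE.two_dvd
    have h2 := alg_odd N hodd (ζ * α) hα' h0' h1' hsym
    rw [hmean, ← hQ, heq] at h2
    exact h2
  have h2N : 2 ∣ N := by
    by_contra h
    have : N.factorization 2 = 0 := Nat.factorization_eq_zero_of_not_dvd h
    omega
  have hN2 : N / 2 ≠ 0 := by
    intro h
    have := Nat.div_mul_cancel h2N
    rw [h] at this
    omega
  have hf2 : (N / 2).factorization 2 = k - 1 := by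
    rw [Nat.factorization_div h2N]
    simp [hNk, Nat.Prime.factorization_self Nat.prime_two]
  by_cases hc1 : ∀ i, ((Q.coeff i : cyc N) : ℂ) ∈ cyc (N / 2)
  · have hz := key (N / 2) Q (ζ * α) hQm hc1 hN2 hQr ζ r α hr hζ rfl
    rw [hf2, heq] at hz
    exact ihk (k - 1) (by omega) α hα h0 h1 hz
  rcases eq_or_lt_of_le (Nat.succ_le_of_lt hkpos) with hk1 | hk2
  · exfalso
    apply hc1
    intro i
    have hodd : Odd (N / 2) := by
      rw [← Nat.not_even_iff_odd]
      intro hE
      have h3 : ¬ (2 ∣ (N / 2)) := by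
        have := (Nat.factorization_eq_zero_iff (N / 2) 2).1 (by rw [hf2]; omega)
        rcases this with h | h | h
        · exact absurd Nat.prime_two h
        · exact h
        · exact absurd h hN2
      exact h3 hE.two_dvd
    have h3 := cyc_two_odd (N / 2) hodd
    rw [Nat.mul_div_cancel' h2N] at h3
    rw [← h3]
    exact (Q.coeff i).2
  have h4 : 4 ∣ N := by
    have : 2 ^ 2 ∣ N := (Nat.prime_two.pow_dvd_iff_le_factorization hN).2 (by omega)
    simpa using this
  by_cases hc2 : ∀ i, (((Q.scaleRoots (zN N)).coeff i : cyc N) : ℂ) ∈ cyc (N / 2)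
  · have hz1 : ((zN N : cyc N) : ℂ) ^ N = 1 := by
      have := (zN_prim N hN).pow_eq_one
      have h5 := congrArg (fun x : cyc N => (x : ℂ)) this
      simpa using h5
    have hr2 : aeval ((zN N : ℂ) * (ζ * α)) (Q.scaleRoots (zN N)) = 0 :=
      scaleRoots_aeval_eq_zero (r := zN N) hQr
    have hz := key (N / 2) (Q.scaleRoots (zN N)) ((zN N : ℂ) * (ζ * α))
      ((monic_scaleRoots_iff _).2 hQm) hc2 hN2 hr2 ((zN N : ℂ) * ζ) (N * r) α
      (Nat.mul_pos (Nat.pos_of_ne_zero hN) hr)
      (by rw [mul_pow, pow_mul, hz1, one_pow, mul_comm N r, pow_mul, hζ, one_pow, one_mul])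
      (by ring)
    rw [hf2, natDegree_scaleRoots, heq] at hz
    exact ihk (k - 1) (by omega) α hα h0 h1 hz
  have h5 := alg_even N hN h4 (ζ * α) hα' h0' hsym hc1 hc2
  rw [hmean, ← hQ, heq] at h5
  exact h5

theorem alg (α : ℂ) (hα : IsIntegral ℤ α) (h0 : α ≠ 0) (h1 : ∀ k : ℕ, 0 < k → α ^ k ≠ 1)
    (N : ℕ) (hN : N ≠ 0) (P : ℂ[X]) (hP : P.Monic) (hc : ∀ i, P.coeff i ∈ cyc N)
    (hr : P.eval α = 0) :
    c1 / C1 ≤ 40 * (P.natDegree : ℝ) ^ 2 * meanC (fun z => phi (lp z)) α :=
  alg_aux P.natDegree (N.factorization 2) α hα h0 h1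
    ⟨N, hN, rfl, 1, 1, one_pos, one_pow 1, P, hP, rfl, hc, by rw [one_mul]; exact hr⟩

end Pool.H22.Lh
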