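import Pool.Agent.H22.Lh.Core
import Pool.Agent.H22.Lh.OddC
import Pool.Agent.H22.Lh.Irr
import Pool.Agent.H22.Lh.Mean
import Pool.Agent.H22.Lh.AlgAux

/-!
# [H22 LH ALGODD] odd conductor

`L = cyc N`, `O = 𝓞 L`, `P₀ = minpoly O α` (`minpoly.isIntegrallyClosed_eq_field_fractions'`: its image over `L` is
`P = minpoly L α`), `d = deg`. `φ` from `odd_cong`, `U = sq (sq P₀)`, `V = (sq P₀).map φ`.
* `odd_cong P₀`: `sq P₀ = P₀.map φ + 2T`, so by `sq_two` `sq (sq P₀) = sq (P₀.map φ) + 4T' = V + 4T'` (`sq_map`).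
* constant terms: `sq_coeff_zero`, `P(0) ≠ 0` (`minpoly.coeff_zero_ne_zero`), injectivity.
* not a square: over `L`, `V` is `(sq P).map φ`, irreducible (`sq_irreducible` and `φ` an automorphism); `nonsq`
  gives `sq (sq P) = (sq P).map φ`; compare `∑_τ ∑_{roots} lp` (apply `τ`, `sq_roots`, `lp (z²) = 2 lp z`,
  reindex `τ ↦ τ ∘ φ`): `4 S = 2 S` with `S = ∑_τ ∑_{z ∈ roots P^τ} lp z = [L:ℚ] d meanC lp α` (`sum_emb`), so
  `meanC lp α = 0`, `mean_zero` contradicts `h1`.
* `hK` with `K = 20 d meanC (phi ∘ lp) α`: roots of `U^τ` are `z⁴`, of `V^τ` are `z²`, `z` root of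
  `P^(τφ)`; `phi (4x) ≤ 16 phi x`, `phi (2x) ≤ 4 phi x`; `sum_emb`.
-/

namespace Pool.H22.Lh

open Polynomial MeasureTheory Metric NumberField

theorem alg_odd (N : ℕ) (hN : Odd N) (α : ℂ) (hα : IsIntegral ℤ α) (h0 : α ≠ 0)
    (h1 : ∀ k : ℕ, 0 < k → α ^ k ≠ 1)
    (hne : (minpoly (cyc N) α).comp (-X) ≠
      C ((-1) ^ (minpoly (cyc N) α).natDegree) * minpoly (cyc N) α) :
    c1 / C1 ≤ 40 * ((minpoly (cyc N) α).natDegree : ℝ) ^ 2 *
      meanC (fun z => phi (lp z)) α := by
  obtain ⟨σ, hcong⟩ := odd_cong N hN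
  have hαL : IsIntegral (cyc N) α := hα.tower_top
  have hαO : IsIntegral (𝓞 (cyc N)) α := hα.tower_top
  set P := minpoly (cyc N) α with hP
  set P0 := minpoly (𝓞 (cyc N)) α with hP0
  have hPP : P = P0.map (algebraMap (𝓞 (cyc N)) (cyc N)) := minpoly_ring N α hα
  have hPm : P.Monic := minpoly.monic hαL
  have hP0m : P0.Monic := minpoly.monic hαO
  have hPi : Irreducible P := minpoly.irreducible hαL
  have hdpos : 0 < P.natDegree := minpoly.natDegree_pos hαL
  have hdeg : P0.natDegree = P.natDegree := by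
    rw [hPP, hP0m.natDegree_map]
  let s : cyc N →+* cyc N := (σ : cyc N →+* cyc N)
  let s' : cyc N ≃+* cyc N := σ.toRingEquiv
  have hss : (s' : cyc N →+* cyc N) = s := rfl
  let sO : 𝓞 (cyc N) →+* 𝓞 (cyc N) := RingOfIntegers.mapRingHom s
  obtain ⟨T0, hT0⟩ := hcong P0
  have hUm : (sq P0).Monic := sq_monic P0 hP0m
  obtain ⟨T, hT⟩ := sq_two (sq P0) (P0.map sO) T0
    (by rw [natDegree_sq _ hP0m, hP0m.natDegree_map]) hT0
  rw [sq_map sO P0 hP0m] at hT
  have hU : (sq P0).map (algebraMap (𝓞 (cyc N)) (cyc N)) = sq P := by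
    rw [hPP, sq_map _ _ hP0m]
  have hUU : (sq (sq P0)).map (algebraMap (𝓞 (cyc N)) (cyc N)) = sq (sq P) := by
    rw [← sq_map _ _ hUm, hU]
  have hV : ((sq P0).map sO).map (algebraMap (𝓞 (cyc N)) (cyc N)) = (sq P).map s := by
    rw [map_ring_comm, hU]
  have hdU : (sq P0).natDegree = P.natDegree := by rw [natDegree_sq _ hP0m, hdeg]
  have hdUU : (sq (sq P0)).natDegree = P.natDegree := by rw [natDegree_sq _ hUm, hdU]
  have hUc : (sq P0).coeff 0 ≠ 0 := by
    rw [sq_coeff_zero]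
    apply mul_ne_zero (pow_ne_zero _ (neg_ne_zero.2 one_ne_zero))
    apply pow_ne_zero
    intro h
    apply minpoly.coeff_zero_ne_zero hαL h0
    change P.coeff 0 = 0
    rw [hPP, coeff_map, h, map_zero]
  have hUUc : (sq (sq P0)).coeff 0 ≠ 0 := by
    rw [sq_coeff_zero]
    exact mul_ne_zero (pow_ne_zero _ (neg_ne_zero.2 one_ne_zero)) (pow_ne_zero _ hUc)
  have hsum : ∀ F : ℂ → ℝ, SS P F = Module.finrank ℚ (cyc N) * P.natDegree *
      meanC F α := fun F => sum_emb (cyc N) α hα.tower_top F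
  have hsqm : (sq P).Monic := sq_monic P hPm
  have key := core' (cyc N) (sq (sq P0)) ((sq P0).map sO) T (sq_monic _ hUm) (hUm.map _)
    (by rw [hUm.natDegree_map, hdUU, hdU]) hT hUUc
    (by
      rw [coeff_map]
      intro h
      apply hUc
      apply mapRingHom_injective s
      rw [map_zero]
      exact h)
    (by
      rw [hUU, hV]
      rintro ⟨g, hg⟩
      have hirr : Irreducible (sq P) := sq_irreducible P hPm hPi hne
      have hirr' : Irreducible ((sq P).map s) := irr_map s' _ hirr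
      have heq := nonsq (sq (sq P)) ((sq P).map s) g (sq_monic _ hsqm) (hsqm.map _) hirr'
        (by rw [hsqm.natDegree_map, natDegree_sq _ hsqm]) hg
      have e1 : SS (sq (sq P)) lp = 4 * SS P lp := by
        rw [SS_sq _ hsqm, SS_sq _ hPm, ← SS_smul]
        congr 1
        funext z
        rw [← pow_mul, lp_pow]
        norm_num
      have e2 : SS ((sq P).map s) lp = 2 * SS P lp := by
        rw [← hss, SS_map, SS_sq _ hPm, ← SS_smul]
        congr 1
        funext z
        rw [lp_pow]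
        norm_num
      have e3 : SS P lp = 0 := by
        have : 4 * SS P lp = 2 * SS P lp := by rw [← e1, ← e2, heq]
        linarith
      rw [hsum] at e3
      have hfr : 0 < Module.finrank ℚ (cyc N) := Module.finrank_pos
      have e4 : meanC lp α = 0 := by
        have h5 : (Module.finrank ℚ (cyc N) : ℝ) * P.natDegree ≠ 0 := by positivity
        exact (mul_eq_zero.1 e3).resolve_left h5
      obtain ⟨k, hk, hk2⟩ := mean_zero α hα h0 e4.le
      exact h1 k hk hk2)
    (20 * P.natDegree * meanC (fun z => phi (lp z)) α)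
    (by
      rw [hUU, hV, ← hss, SS_map]
      have := SS_sq_phi P hPm
      have := SS_sq_sq_phi P hPm
      rw [hsum] at *
      linarith)
  rw [hdUU] at key
  nlinarith
end Pool.H22.Lh
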