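import Pool.Agent.H22.Lh.Defs

/-!
# [H22 LH SQRT] square roots of power series congruent mod 4

`u = v + 4 s`, constant terms of `u, v` equal 1, `R` a domain of characteristic 0, so `s` has constant term
0. `v` is a unit of `R[[X]]` (`PowerSeries.invOfUnit`), `y = s v⁻¹` has constant term 0. There is `h` with
constant term 0 and `h + h² = y` (recursion on coefficients:
`h_k = y_k - ∑_{i+j=k, i,j<k} h_i h_j`, strong recursion). Then `f = v (1 + 2h)`:
`f² = v² (1 + 4h + 4h²) = v² (1 + 4y) = v (v + 4 s) = v u`.
-/

namespace Pool.H22.Lh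

open Polynomial MeasureTheory Metric

/-- coefficients of the solution `h` of `h + h² = y`. -/
noncomputable def hrec {R : Type*} [CommRing R] (y : ℕ → R) (k : ℕ) : R :=
  y k - ∑ i : Fin k, (if _h : 0 < (i : ℕ) then hrec y i * hrec y (k - i) else 0)
termination_by k
decreasing_by
  · exact i.2
  · have := i.2
    omega

theorem hrec_zero {R : Type*} [CommRing R] (y : ℕ → R) : hrec y 0 = y 0 := by
  rw [hrec]; simp

theorem hrec_spec {R : Type*} [CommRing R] (y : PowerSeries R)
    (hy : PowerSeries.constantCoeff y = 0) :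
    PowerSeries.mk (hrec fun k => PowerSeries.coeff k y) +
      PowerSeries.mk (hrec fun k => PowerSeries.coeff k y) *
        PowerSeries.mk (hrec fun k => PowerSeries.coeff k y) = y := by
  have h0 : hrec (fun k => PowerSeries.coeff k y) 0 = 0 := by
    rw [hrec_zero]; simpa using hy
  ext k
  rw [map_add, PowerSeries.coeff_mul, PowerSeries.coeff_mk]
  simp only [PowerSeries.coeff_mk]
  rw [Finset.Nat.sum_antidiagonal_eq_sum_range_succ
    (fun i j => hrec (fun k => PowerSeries.coeff k y) i * hrec (fun k => PowerSeries.coeff k y) j),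
    Finset.sum_range_succ, Nat.sub_self, h0, mul_zero, add_zero]
  have h1 : ∑ i ∈ Finset.range k, hrec (fun k => PowerSeries.coeff k y) i *
      hrec (fun k => PowerSeries.coeff k y) (k - i) =
      ∑ i : Fin k, (if _h : 0 < (i : ℕ) then hrec (fun k => PowerSeries.coeff k y) i *
        hrec (fun k => PowerSeries.coeff k y) (k - i) else 0) := by
    rw [Finset.sum_range]
    refine Finset.sum_congr rfl fun i _ => ?_
    by_cases hi : 0 < (i : ℕ)
    · simp [hi]
    · have : (i : ℕ) = 0 := by omega
      simp [this, h0]
  rw [h1]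
  conv_lhs => rw [hrec]
  ring

theorem exists_sqrt {R : Type*} [CommRing R] [IsDomain R] [CharZero R] (u v s : PowerSeries R)
    (hu : PowerSeries.constantCoeff u = 1) (hv : PowerSeries.constantCoeff v = 1)
    (h : u = v + 4 * s) :
    ∃ f : PowerSeries R, f * f = u * v ∧ PowerSeries.constantCoeff f = 1 := by
  have hs : PowerSeries.constantCoeff s = 0 := by
    have h1 := congrArg PowerSeries.constantCoeff h
    rw [map_add, map_mul, hu, hv] at h1
    have h2 : PowerSeries.constantCoeff (4 : PowerSeries R) = 4 := map_ofNat _ 4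
    rw [h2] at h1
    have h3 : (4 : R) * PowerSeries.constantCoeff s = 0 := by linear_combination -h1
    rcases mul_eq_zero.1 h3 with h4 | h4
    · exfalso
      have : (4 : R) ≠ 0 := by norm_num
      exact this h4
    · exact h4
  have hvi : v * PowerSeries.invOfUnit v 1 = 1 :=
    PowerSeries.mul_invOfUnit v 1 (by rw [hv]; rfl)
  set y := s * PowerSeries.invOfUnit v 1 with hy
  have hy0 : PowerSeries.constantCoeff y = 0 := by rw [hy, map_mul, hs, zero_mul]
  have hspec := hrec_spec y hy0
  set g := PowerSeries.mk (hrec fun k => PowerSeries.coeff k y) with hg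
  have hg0 : PowerSeries.constantCoeff g = 0 := by
    rw [hg, ← PowerSeries.coeff_zero_eq_constantCoeff_apply, PowerSeries.coeff_mk, hrec_zero]
    simpa using hy0
  refine ⟨v * (1 + 2 * g), ?_, ?_⟩
  · have hvy : v * y = s := by
      rw [hy]
      linear_combination s * hvi
    rw [h]
    linear_combination 4 * v ^ 2 * hspec + 4 * v * hvy
  · rw [map_mul, map_add, map_mul, hv, hg0]
    simp

end Pool.H22.Lh
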