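import Pool.Agent.H22.Lh.AT
import Pool.Agent.H22.Lh.Sqrt

/-!
# [H22 LH CORE] two polynomials congruent modulo 4

`at_main` for `R = U V`: `reverse (U V) = reverse U * reverse V` (`reverse_mul_of_domain`), the reverses have
constant term 1 (monic) and are congruent mod 4 as power series (`reverse` of polynomials of the same degree with
nonzero constant terms... coefficientwise: `coeff_reverse`, `revAt`; note `natDegree` of both is the same),
`exists_sqrt` gives `f`. `natDegree (U V) = 2 natDegree U`, roots of a product. Then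
`c1/C1 * [L:ℚ]/(2d) ≤ [L:ℚ] K`.
-/

namespace Pool.H22.Lh

open Polynomial MeasureTheory Metric NumberField

theorem core (L : Type*) [Field L] [NumberField L] (U V T : (𝓞 L)[X]) (hU : U.Monic)
    (hV : V.Monic) (hd : U.natDegree = V.natDegree) (h4 : U = V + C 4 * T)
    (hU0 : U.coeff 0 ≠ 0) (hV0 : V.coeff 0 ≠ 0)
    (hns : ¬ ∃ g : L[X], g * g = U.map (algebraMap (𝓞 L) L) * V.map (algebraMap (𝓞 L) L))
    (K : ℝ)
    (hK : ∑ τ : L →+* ℂ,
      (((U.map (τ.comp (algebraMap (𝓞 L) L))).roots.map (fun z => phi (lp z))).sum +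
        ((V.map (τ.comp (algebraMap (𝓞 L) L))).roots.map (fun z => phi (lp z))).sum) ≤
        Module.finrank ℚ L * K) :
    c1 / C1 ≤ 2 * U.natDegree * K := by
  have hd0 : 0 < U.natDegree := by
    rcases Nat.eq_zero_or_pos U.natDegree with h | h
    · exfalso
      apply hns
      have hU1 : U = 1 := hU.natDegree_eq_zero.1 h
      have hV1 : V = 1 := hV.natDegree_eq_zero.1 (hd ▸ h)
      exact ⟨1, by rw [hU1, hV1, Polynomial.map_one]⟩
    · exact h
  have hRm : (U * V).Monic := hU.mul hV
  have hR0 : (U * V).coeff 0 ≠ 0 := by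
    rw [mul_coeff_zero]
    exact mul_ne_zero hU0 hV0
  have hcU : PowerSeries.constantCoeff (U.reverse : PowerSeries (𝓞 L)) = 1 := by
    rw [← PowerSeries.coeff_zero_eq_constantCoeff_apply, coeff_coe, coeff_zero_reverse]
    exact hU
  have hcV : PowerSeries.constantCoeff (V.reverse : PowerSeries (𝓞 L)) = 1 := by
    rw [← PowerSeries.coeff_zero_eq_constantCoeff_apply, coeff_coe, coeff_zero_reverse]
    exact hV
  have h4' : (U.reverse : PowerSeries (𝓞 L)) = (V.reverse : PowerSeries (𝓞 L)) +
      4 * PowerSeries.mk fun n => T.coeff (revAt U.natDegree n) := by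
    ext1 n
    have e4 : (4 : PowerSeries (𝓞 L)) = PowerSeries.C (4 : 𝓞 L) := by
      rw [map_ofNat]
    rw [map_add, coeff_coe, coeff_coe, e4, PowerSeries.coeff_C_mul, PowerSeries.coeff_mk,
      coeff_reverse, coeff_reverse, ← hd]
    have h5 := congrArg (fun p : (𝓞 L)[X] => p.coeff (revAt U.natDegree n)) h4
    simpa only [coeff_add, coeff_C_mul] using h5
  obtain ⟨f, hf, hf0⟩ := exists_sqrt _ _ _ hcU hcV h4'
  have hrev : ((U * V).reverse : PowerSeries (𝓞 L)) =
      (U.reverse : PowerSeries (𝓞 L)) * (V.reverse : PowerSeries (𝓞 L)) := by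
    rw [reverse_mul_of_domain, Polynomial.coe_mul]
  have hmain := at_main L (U * V) hRm hR0 f (by rw [hf, hrev]) hf0 (by
    rw [Polynomial.map_mul]
    exact hns)
  have hsum : ∑ τ : L →+* ℂ,
        (((U * V).map (τ.comp (algebraMap (𝓞 L) L))).roots.map (fun z => phi (lp z))).sum =
      ∑ τ : L →+* ℂ,
      (((U.map (τ.comp (algebraMap (𝓞 L) L))).roots.map (fun z => phi (lp z))).sum +
        ((V.map (τ.comp (algebraMap (𝓞 L) L))).roots.map (fun z => phi (lp z))).sum) := by
    refine Finset.sum_congr rfl fun τ _ => ?_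
    rw [Polynomial.map_mul, roots_mul, Multiset.map_add, Multiset.sum_add]
    exact mul_ne_zero (hU.map _).ne_zero (hV.map _).ne_zero
  rw [hsum] at hmain
  have hle := hmain.trans hK
  have hnd : (U * V).natDegree = 2 * U.natDegree := by
    rw [hU.natDegree_mul hV, ← hd]
    ring
  rw [hnd] at hle
  have hfin : (0 : ℝ) < Module.finrank ℚ L := by
    exact_mod_cast Module.finrank_pos
  have hdR : (0 : ℝ) < U.natDegree := by exact_mod_cast hd0
  rw [div_le_iff₀ (by push_cast; positivity)] at hle
  push_cast at hle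
  have : c1 / C1 * Module.finrank ℚ L ≤ (2 * U.natDegree * K) * Module.finrank ℚ L := by
    calc c1 / C1 * Module.finrank ℚ L ≤ Module.finrank ℚ L * K * (2 * U.natDegree) := hle
      _ = _ := by ring
  exact le_of_mul_le_mul_right this hfin

end Pool.H22.Lh
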