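import Mathlib

/-!
# Definitions for the quadratic-mean Lehmer inequality (MP_187c26_nt, helper22)
-/

namespace Pool.H22.Lh

open Polynomial MeasureTheory Metric

/-- `phi t = min t (t^2)`. -/
noncomputable def phi (t : ℝ) : ℝ := min t (t ^ 2)

/-- `log^+ |z|`. -/
noncomputable def lp (z : ℂ) : ℝ := Real.posLog ‖z‖

/-- mean of `F` over the conjugates over `ℚ` of `α`. -/
noncomputable def meanC (F : ℂ → ℝ) (α : ℂ) : ℝ :=
  (((minpoly ℚ α).aroots ℂ).map F).sum / (minpoly ℚ α).natDegree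

/-- constant in the gain. -/
noncomputable def c1 : ℝ := 1 / 40000

/-- constant in the loss. -/
noncomputable def C1 : ℝ := 100

theorem phi_nonneg {t : ℝ} (ht : 0 ≤ t) : 0 ≤ phi t := le_min ht (sq_nonneg t)

theorem lp_nonneg (z : ℂ) : 0 ≤ lp z := Real.posLog_nonneg

theorem phi_le (t : ℝ) : phi t ≤ t := min_le_left _ _

theorem phi_le_sq (t : ℝ) : phi t ≤ t ^ 2 := min_le_right _ _

theorem phi_mul_le {a t : ℝ} (ha : 1 ≤ a) (ht : 0 ≤ t) : phi (a * t) ≤ a ^ 2 * phi t := by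
  have h1 : a * t ≤ a ^ 2 * t := by nlinarith [mul_nonneg (sub_nonneg.2 ha) ht]
  unfold phi
  rw [mul_min_of_nonneg _ _ (by positivity)]
  exact min_le_min h1 (le_of_eq (by ring))

theorem phi_eq_sq {t : ℝ} (h0 : 0 ≤ t) (h1 : t ≤ 1) : phi t = t ^ 2 := by
  unfold phi; exact min_eq_right (by nlinarith)

theorem phi_eq_self {t : ℝ} (h1 : 1 ≤ t) : phi t = t := by
  unfold phi; exact min_eq_left (by nlinarith)

/-- uniform probability measure on the unit circle. -/
noncomputable def sig : Measure ℂ :=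
  (ENNReal.ofReal (2 * Real.pi)⁻¹) •
    Measure.map (circleMap 0 1) (volume.restrict (Set.Ioc 0 (2 * Real.pi)))

/-- `A s` = area of the intersection of two unit discs with centres at distance `s`. -/
noncomputable def A (s : ℝ) : ℝ := volume.real (ball (0 : ℂ) 1 ∩ ball (s : ℂ) 1)

/-- `J0 r1 t = int_0^{r1} A(t/r) dr/r`. -/
noncomputable def J0 (r1 t : ℝ) : ℝ := ∫ r in Set.Ioc 0 r1, A (t / r) / r

/-- the constant `pi log T + J0 r1 T`. -/
noncomputable def cst (r1 T : ℝ) : ℝ := Real.pi * Real.log T + J0 r1 T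

/-- the measure `dr/r^3` on `(r0, r1]`. -/
noncomputable def m1 (r0 r1 : ℝ) : Measure ℝ :=
  (volume.restrict (Set.Ioc r0 r1)).withDensity (fun r => ENNReal.ofReal ((r ^ 3)⁻¹))

/-- the measure `dx dr/r^3` on `ℂ × (r0, r1]`. -/
noncomputable def nu (r0 r1 : ℝ) : Measure (ℂ × ℝ) := (volume : Measure ℂ).prod (m1 r0 r1)

/-- the pairs (centre, radius) whose ball contains `z`. -/
def ind (z : ℂ) : Set (ℂ × ℝ) := {p | ‖p.1 - z‖ < p.2}

/-- measure of a ball for the uniform measure on the circle. -/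
noncomputable def sg (p : ℂ × ℝ) : ℝ := sig.real (ball p.1 p.2)

/-- energy kernel. -/
noncomputable def Jk (r0 r1 : ℝ) (z w : ℂ) : ℝ := (nu r0 r1).real (ind z ∩ ind w)

/-- `E t z = int_{B ∋ z} t`. -/
noncomputable def E (r0 r1 : ℝ) (t : ℂ × ℝ → ℝ) (z : ℂ) : ℝ := ∫ p in ind z, t p ∂(nu r0 r1)

/-- `S t = int t sigma(B)`. -/
noncomputable def S (r0 r1 : ℝ) (t : ℂ × ℝ → ℝ) : ℝ := ∫ p, t p * sg p ∂(nu r0 r1)

/-- `Qd t = int t^2`. -/
noncomputable def Qd (r0 r1 : ℝ) (t : ℂ × ℝ → ℝ) : ℝ := ∫ p, t p ^ 2 ∂(nu r0 r1)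

/-- admissible test functions: measurable, bounded, vanishing for large centres. -/
structure Test (t : ℂ × ℝ → ℝ) : Prop where
  meas : Measurable t
  bdd : ∃ b, ∀ p, |t p| ≤ b
  supp : ∃ R, ∀ p : ℂ × ℝ, R < ‖p.1‖ → t p = 0

/-- polynomial whose roots are the squares of the roots of `P`. -/
noncomputable def sq {R : Type*} [CommRing R] (P : R[X]) : R[X] :=
  C ((-1) ^ P.natDegree) * contract 2 (P * P.comp (-X))

/-- the field of `N`-th roots of unity in `ℂ`. -/
noncomputable def cyc (N : ℕ) : IntermediateField ℚ ℂ :=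
  IntermediateField.adjoin ℚ {Complex.exp (2 * Real.pi * Complex.I / N)}

end Pool.H22.Lh
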