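import Pool.Agent.H22.Lh.Defs

/-!
# [H22 LH DETINT] Andreief's identity and the bound of the Hankel determinant

`det (∫ z^(i+j) w) = ∑ sgn π ∏ ∫ z^(π i + i) w = ∫_{ℂ^m} ∏ w(z_i) ∏ z_i^i det(z_i^j)`
(`integral_fintype_prod_eq_prod`); permuting the variables (`volume_measurePreserving_piCongrLeft`,
`MeasurePreserving` of reindexing) and averaging over `ρ`:
`m! det = ∫ ∏ w(z_i) det(z_i^j)²`, and `det(z_i^j) = ∏_{i<j} (z_j - z_i)` (`det_vandermonde`).
So `‖det‖ ≤ (1/m!) ∫ ∏ ‖w(z_i)‖ ∏_{i<j}‖z_j - z_i‖² ≤ (1/m!) (∫‖w‖)^m V`.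
(All integrands are continuous with compact support.)
-/

namespace Pool.H22.Lh

open Polynomial MeasureTheory Metric

private theorem vand_expand {m : ℕ} (z : Fin m → ℂ) :
    (Matrix.vandermonde z).det =
      ∑ σ : Equiv.Perm (Fin m), ((Equiv.Perm.sign σ : ℤ) : ℂ) * ∏ i, z i ^ ((σ i : Fin m) : ℕ) := by
  rw [← Matrix.det_transpose, Matrix.det_apply']
  rfl

private theorem hcs_prod {m : ℕ} (w : ℂ → ℂ) (hws : HasCompactSupport w) (g : (Fin m → ℂ) → ℂ) :
    HasCompactSupport (fun z : Fin m → ℂ => (∏ i, w (z i)) * g z) := by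
  refine HasCompactSupport.intro (K := Set.pi Set.univ (fun _ : Fin m => tsupport w))
    (isCompact_univ_pi fun _ => hws) ?_
  intro z hz
  have : ∃ i, z i ∉ tsupport w := by
    by_contra hcon
    push Not at hcon
    exact hz (fun i _ => hcon i)
  obtain ⟨i, hi⟩ := this
  have h0 : w (z i) = 0 := image_eq_zero_of_notMem_tsupport hi
  have : ∏ i, w (z i) = 0 := Finset.prod_eq_zero (Finset.mem_univ i) h0
  simp [this]

private theorem cont_prodw {m : ℕ} (w : ℂ → ℂ) (hw : Continuous w) :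
    Continuous (fun z : Fin m → ℂ => ∏ i, w (z i)) :=
  continuous_finsetProd _ fun i _ => hw.comp (continuous_apply i)

private theorem int_prod {m : ℕ} (w : ℂ → ℂ) (hw : Continuous w) (hws : HasCompactSupport w)
    (g : (Fin m → ℂ) → ℂ) (hg : Continuous g) :
    Integrable (fun z : Fin m → ℂ => (∏ i, w (z i)) * g z) := by
  exact ((cont_prodw w hw).mul hg).integrable_of_hasCompactSupport (hcs_prod w hws g)

private theorem det_eq {m : ℕ} (w : ℂ → ℂ) (hw : Continuous w) (hws : HasCompactSupport w) :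
    (Matrix.of fun i j : Fin m => ∫ z, z ^ ((i : ℕ) + (j : ℕ)) * w z).det =
      ∫ z : Fin m → ℂ, (∏ i, w (z i)) * ((∏ i, z i ^ (i : ℕ)) * (Matrix.vandermonde z).det) := by
  rw [Matrix.det_apply']
  have h1 : ∀ σ : Equiv.Perm (Fin m),
      ((Equiv.Perm.sign σ : ℤ) : ℂ) * ∏ i, (Matrix.of fun i j : Fin m => ∫ z, z ^ ((i : ℕ) + (j : ℕ)) * w z) (σ i) i =
      ∫ z : Fin m → ℂ, (∏ i, w (z i)) * (((Equiv.Perm.sign σ : ℤ) : ℂ) *
        ∏ i, z i ^ (((σ i : Fin m) : ℕ) + (i : ℕ))) := by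
    intro σ
    have h2 : ∏ i, (Matrix.of fun i j : Fin m => ∫ z, z ^ ((i : ℕ) + (j : ℕ)) * w z) (σ i) i =
        ∫ z : Fin m → ℂ, ∏ i, ((z i) ^ (((σ i : Fin m) : ℕ) + (i : ℕ)) * w (z i)) := by
      rw [integral_fintype_prod_volume_eq_prod (fun i (z : ℂ) => z ^ (((σ i : Fin m) : ℕ) + (i : ℕ)) * w z)]
      rfl
    rw [h2, ← integral_const_mul]
    refine integral_congr_ae (Filter.Eventually.of_forall fun z => ?_)
    simp only
    rw [Finset.prod_mul_distrib]
    ring
  refine (Finset.sum_congr rfl fun σ _ => h1 σ).trans ?_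
  rw [← integral_finsetSum]
  · refine integral_congr_ae (Filter.Eventually.of_forall fun z => ?_)
    simp only
    rw [← Finset.mul_sum, vand_expand]
    congr 1
    rw [Finset.mul_sum]
    apply Finset.sum_congr rfl
    intro σ _
    simp only [pow_add]
    rw [Finset.prod_mul_distrib]
    ring
  · intro σ _
    refine int_prod w hw hws _ ?_
    fun_prop

private theorem int_perm {m : ℕ} (G : (Fin m → ℂ) → ℂ) (ρ : Equiv.Perm (Fin m)) :
    ∫ z : Fin m → ℂ, G z = ∫ z : Fin m → ℂ, G (fun i => z (ρ i)) := by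
  have h := (volume_measurePreserving_piCongrLeft (fun _ : Fin m => ℂ) ρ.symm).integral_comp' (g := G)
  rw [← h]
  refine integral_congr_ae (Filter.Eventually.of_forall fun z => ?_)
  simp only
  congr 1
  ext i
  have := Equiv.piCongrLeft_apply_apply (fun _ : Fin m => ℂ) ρ.symm z (ρ i)
  simp only [Equiv.symm_apply_apply] at this
  exact this

theorem det_int (w : ℂ → ℂ) (hw : Continuous w) (hws : HasCompactSupport w) (m : ℕ) (V : ℝ)
    (hV0 : 0 ≤ V)
    (hV : ∀ z : Fin m → ℂ, (∀ i, w (z i) ≠ 0) → ∏ i, ∏ j ∈ Finset.Ioi i, ‖z j - z i‖ ^ 2 ≤ V) :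
    ‖(Matrix.of fun i j : Fin m => ∫ z, z ^ ((i : ℕ) + (j : ℕ)) * w z).det‖ ≤
      (∫ z, ‖w z‖) ^ m * V := by
  rw [det_eq w hw hws]
  set I : ℂ := ∫ z : Fin m → ℂ, (∏ i, w (z i)) * ((∏ i, z i ^ (i : ℕ)) * (Matrix.vandermonde z).det) with hI
  have hcv : Continuous (fun z : Fin m → ℂ => (Matrix.vandermonde z).det) := by
    have : (fun z : Fin m → ℂ => (Matrix.vandermonde z).det) = fun z =>
      ∑ σ : Equiv.Perm (Fin m), ((Equiv.Perm.sign σ : ℤ) : ℂ) * ∏ i, z i ^ ((σ i : Fin m) : ℕ) := by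
      ext z; exact vand_expand z
    rw [this]
    fun_prop
  -- permuting the variables
  have h1 : ∀ ρ : Equiv.Perm (Fin m), I = ∫ z : Fin m → ℂ, (∏ i, w (z i)) *
      ((Matrix.vandermonde z).det * (((Equiv.Perm.sign ρ : ℤ) : ℂ) * ∏ i, z i ^ ((ρ i : Fin m) : ℕ))) := by
    intro ρ
    rw [hI, int_perm _ ρ.symm]
    refine integral_congr_ae (Filter.Eventually.of_forall fun z => ?_)
    simp only
    have e1 : ∏ i, w (z (ρ.symm i)) = ∏ i, w (z i) := Equiv.prod_comp ρ.symm (fun i => w (z i))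
    have e2 : ∏ i, z (ρ.symm i) ^ (i : ℕ) = ∏ i, z i ^ ((ρ i : Fin m) : ℕ) := by
      rw [← Equiv.prod_comp ρ]
      simp
    have e3 : (Matrix.vandermonde (fun i => z (ρ.symm i))).det =
        ((Equiv.Perm.sign ρ : ℤ) : ℂ) * (Matrix.vandermonde z).det := by
      have : Matrix.vandermonde (fun i => z (ρ.symm i)) = (Matrix.vandermonde z).submatrix ρ.symm id := by
        ext i j
        simp [Matrix.vandermonde]
      rw [this, Matrix.det_permute, Equiv.Perm.sign_symm]
    rw [e1, e2, e3]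
    ring
  have h2 : ((m.factorial : ℕ) : ℂ) * I =
      ∫ z : Fin m → ℂ, (∏ i, w (z i)) * ((Matrix.vandermonde z).det * (Matrix.vandermonde z).det) := by
    have h3 : ((m.factorial : ℕ) : ℂ) * I = ∑ _ρ : Equiv.Perm (Fin m), I := by
      rw [Finset.sum_const, Finset.card_univ, Fintype.card_perm, Fintype.card_fin, nsmul_eq_mul]
    rw [h3, Finset.sum_congr rfl fun ρ _ => h1 ρ, ← integral_finsetSum]
    · refine integral_congr_ae (Filter.Eventually.of_forall fun z => ?_)
      simp only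
      rw [← Finset.mul_sum, ← Finset.mul_sum, ← vand_expand]
    · intro ρ _
      refine int_prod w hw hws _ ?_
      fun_prop
  have h4 : ‖((m.factorial : ℕ) : ℂ) * I‖ ≤ (∫ z, ‖w z‖) ^ m * V := by
    rw [h2]
    refine (norm_integral_le_integral_norm _).trans ?_
    have h5 : ∫ z : Fin m → ℂ, ∏ i, ‖w (z i)‖ = (∫ z, ‖w z‖) ^ m := by
      rw [integral_fintype_prod_volume_eq_prod (fun (_ : Fin m) (z : ℂ) => ‖w z‖)]
      simp
    rw [← h5, ← integral_mul_const]
    refine integral_mono_of_nonneg (Filter.Eventually.of_forall fun z => norm_nonneg _) ?_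
      (Filter.Eventually.of_forall fun z => ?_)
    · have : (fun z : Fin m → ℂ => (∏ i, ‖w (z i)‖) * V) =
        fun z : Fin m → ℂ => ‖(∏ i, w (z i)) * (V : ℂ)‖ := by
        ext z
        rw [norm_mul, norm_prod, Complex.norm_real, Real.norm_of_nonneg hV0]
      rw [this]
      exact (int_prod w hw hws (fun _ => (V : ℂ)) continuous_const).norm
    · simp only
      rw [norm_mul, norm_prod]
      by_cases hz : ∀ i, w (z i) ≠ 0
      · refine mul_le_mul_of_nonneg_left ?_ (Finset.prod_nonneg fun i _ => norm_nonneg _)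
        refine le_trans (le_of_eq ?_) (hV z hz)
        rw [Matrix.det_vandermonde, norm_mul, ← _root_.sq, norm_prod, ← Finset.prod_pow]
        refine Finset.prod_congr rfl fun i _ => ?_
        rw [norm_prod, ← Finset.prod_pow]
      · push Not at hz
        obtain ⟨i, hi⟩ := hz
        have : ∏ i, ‖w (z i)‖ = 0 := Finset.prod_eq_zero (Finset.mem_univ i) (by simp [hi])
        rw [this]
        simp
  have h6 : ‖I‖ ≤ ‖((m.factorial : ℕ) : ℂ) * I‖ := by
    rw [norm_mul]
    have : (1 : ℝ) ≤ ‖((m.factorial : ℕ) : ℂ)‖ := by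
      rw [Complex.norm_natCast]
      exact_mod_cast Nat.succ_le_of_lt (Nat.factorial_pos m)
    nlinarith [norm_nonneg I]
  exact h6.trans h4

end Pool.H22.Lh
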