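import Pool.Agent.H22.Lh.Fub

/-!
# [H22 LH ENERGY] the energy inequality with a test function

Write `N p = #{i : p ∈ ind (z i)}` (real valued: `∑ i, indicator (ind (z i)) 1 p`). Pointwise
`N^2 ≥ 2 m N (sg + t) - m^2 (sg + t)^2`. Integrate against `nu` (everything is bounded with bounded
support in the centre variable, `nu` of such sets is finite):
* `∫ N^2 = ∑ i, ∑ j, Jk (z i) (z j)`;
* `∫ N sg = ∑ i, ∫_{ind (z i)} sg ≥ ∑ i (-π lp (z i) + cst - 2πT/r1 - 2π r0)` (`J3`),
  `∫ N t = ∑ i, E t (z i)`;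
* `∫ (sg + t)^2 = ∫ sg^2 + 2 S t + Qd t ≤ cst + 2 S t + Qd t` (`J4`).
The diagonal is `m π log(r1/r0)` (`Jk_self`), and for `i ≠ j`
`Jk (z i) (z j) ≤ J0 r1 ‖z i - z j‖ ≤ -π log ‖z i - z j‖ + cst` (`Jk_le`, `J0_le`). Hence
`-π ∑_{i≠j} log + m(m-1) cst + m π log(r1/r0) ≥ 2m ∑ (E t (z i) - π lp (z i)) + 2 m^2 cst
 - m^2 (4πT/r1 + 4π r0) - m^2 (cst + 2 S t + Qd t)`, and `cst ≥ 0`.
-/

namespace Pool.H22.Lh

open Polynomial MeasureTheory Metric

/-- cylinders over bounded sets of centres have finite measure. -/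
theorem nu_cyl_lt_top (r0 r1 : ℝ) (h0 : 0 < r0) (R : ℝ) :
    nu r0 r1 {p : ℂ × ℝ | ‖p.1‖ ≤ R} < ⊤ := by
  haveI := m1_sfinite r0 r1
  have : {p : ℂ × ℝ | ‖p.1‖ ≤ R} = closedBall (0 : ℂ) R ×ˢ Set.univ := by
    ext p; simp
  rw [this, nu, Measure.prod_prod]
  exact ENNReal.mul_lt_top measure_closedBall_lt_top (m1_univ_lt r0 r1 h0)

/-- bounded measurable functions vanishing for large centres are integrable. -/
theorem integrable_of_test (r0 r1 : ℝ) (h0 : 0 < r0) (f : ℂ × ℝ → ℝ) (hf : Measurable f)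
    (b : ℝ) (hb : ∀ p, |f p| ≤ b) (R : ℝ) (hR : ∀ p : ℂ × ℝ, R < ‖p.1‖ → f p = 0) :
    Integrable f (nu r0 r1) := by
  have h1 : IntegrableOn f {p : ℂ × ℝ | ‖p.1‖ ≤ R} (nu r0 r1) :=
    Measure.integrableOn_of_bounded (M := b) (nu_cyl_lt_top r0 r1 h0 R).ne
      hf.aestronglyMeasurable (Filter.Eventually.of_forall fun p => by
        rw [Real.norm_eq_abs]; exact hb p)
  refine h1.integrable_of_forall_notMem_eq_zero fun p hp => hR p ?_
  simpa using hp

/-- bounded measurable functions are integrable on `ind w`. -/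
theorem integrableOn_ind (r0 r1 : ℝ) (h0 : 0 < r0) (f : ℂ × ℝ → ℝ) (hf : Measurable f)
    (b : ℝ) (hb : ∀ p, |f p| ≤ b) (w : ℂ) :
    IntegrableOn f (ind w) (nu r0 r1) :=
  Measure.integrableOn_of_bounded (M := b) (nu_ind_lt_top r0 r1 h0 w).ne
      hf.aestronglyMeasurable (Filter.Eventually.of_forall fun p => by
        rw [Real.norm_eq_abs]; exact hb p)

theorem abs_sg_le (p : ℂ × ℝ) : |sg p| ≤ 1 := by
  rw [abs_of_nonneg (sg_nonneg p)]; exact sg_le_one p

theorem energy (r0 r1 T : ℝ) (h0 : 0 < r0) (h01 : r0 < r1) (hT : 2 ≤ T)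
    (t : ℂ × ℝ → ℝ) (ht : Test t) (m : ℕ) (z : Fin m → ℂ) (hz : Function.Injective z)
    (hzT : ∀ i j, ‖z i - z j‖ ≤ T) (hz1 : ∀ i, ‖z i‖ + 1 ≤ T) :
    2 * m * ∑ i, (E r0 r1 t (z i) - Real.pi * lp (z i))
      - (m : ℝ) ^ 2 * (2 * S r0 r1 t + Qd r0 r1 t)
      - (m : ℝ) ^ 2 * (4 * Real.pi * T / r1 + 4 * Real.pi * r0)
      - m * Real.pi * Real.log (r1 / r0)
      ≤ -Real.pi * ∑ i, ∑ j ∈ Finset.univ.erase i, Real.log ‖z i - z j‖ := by
  classical
  obtain ⟨b, hb⟩ := ht.bdd
  obtain ⟨R, hR⟩ := ht.supp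
  have tmeas := ht.meas
  have b0 : 0 ≤ b := (abs_nonneg _).trans (hb (0, 0))
  have hgm : Measurable fun p => sg p + t p := sg_measurable.add tmeas
  have hgb : ∀ p, |sg p + t p| ≤ 1 + b := fun p =>
    (abs_add_le _ _).trans (add_le_add (abs_sg_le p) (hb p))
  -- integrability
  have hI_tsq : Integrable (fun p => t p ^ 2) (nu r0 r1) := by
    refine integrable_of_test r0 r1 h0 _ (tmeas.pow_const 2) (b ^ 2) (fun p => ?_) R
      (fun p hp => by simp [hR p hp])
    rw [abs_pow]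
    exact pow_le_pow_left₀ (abs_nonneg _) (hb p) 2
  have hI_tsg : Integrable (fun p => t p * sg p) (nu r0 r1) := by
    refine integrable_of_test r0 r1 h0 _ (tmeas.mul sg_measurable) b (fun p => ?_) R
      (fun p hp => by simp [hR p hp])
    rw [abs_mul]
    calc |t p| * |sg p| ≤ b * 1 := mul_le_mul (hb p) (abs_sg_le p) (abs_nonneg _) b0
      _ = b := mul_one b
  have hI_sg2 : Integrable (fun p => sg p ^ 2) (nu r0 r1) := sg_sq_integrable r0 r1 h0
  have hI_g2 : Integrable (fun p => (sg p + t p) ^ 2) (nu r0 r1) := by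
    have : (fun p => (sg p + t p) ^ 2) =
        fun p => sg p ^ 2 + 2 * (t p * sg p) + t p ^ 2 := by
      funext p; ring
    rw [this]
    exact (hI_sg2.add (hI_tsg.const_mul 2)).add hI_tsq
  -- the counting function
  have hprod : ∀ i j p, (ind (z i)).indicator (fun _ => (1 : ℝ)) p *
      (ind (z j)).indicator (fun _ => (1 : ℝ)) p =
      (ind (z i) ∩ ind (z j)).indicator (fun _ => (1 : ℝ)) p := by
    intro i j p
    by_cases h1 : p ∈ ind (z i) <;> by_cases h2 : p ∈ ind (z j) <;> simp [h1, h2]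
  have hprodg : ∀ i p, (ind (z i)).indicator (fun _ => (1 : ℝ)) p * (sg p + t p) =
      (ind (z i)).indicator (fun p => sg p + t p) p := by
    intro i p
    by_cases h1 : p ∈ ind (z i) <;> simp [h1]
  have hI2 : ∀ i j, Integrable (fun p => (ind (z i) ∩ ind (z j)).indicator (fun _ => (1 : ℝ)) p)
      (nu r0 r1) := by
    intro i j
    rw [integrable_indicator_iff ((ind_measurable _).inter (ind_measurable _))]
    exact (integrableOn_ind r0 r1 h0 (fun _ => (1 : ℝ)) measurable_const 1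
      (fun p => by simp) (z i)).mono_set Set.inter_subset_left
  have hIg : ∀ i, Integrable (fun p => (ind (z i)).indicator (fun p => sg p + t p) p)
      (nu r0 r1) := by
    intro i
    rw [integrable_indicator_iff (ind_measurable _)]
    exact integrableOn_ind r0 r1 h0 _ hgm (1 + b) hgb (z i)
  have hA : ∫ p, ∑ i, ∑ j, (ind (z i) ∩ ind (z j)).indicator (fun _ => (1 : ℝ)) p ∂(nu r0 r1) =
      ∑ i, ∑ j, Jk r0 r1 (z i) (z j) := by
    rw [integral_finsetSum _ fun i _ => integrable_finsetSum _ fun j _ => hI2 i j]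
    refine Finset.sum_congr rfl fun i _ => ?_
    rw [integral_finsetSum _ fun j _ => hI2 i j]
    refine Finset.sum_congr rfl fun j _ => ?_
    rw [integral_indicator_const _ ((ind_measurable _).inter (ind_measurable _))]
    simp [Jk]
  have hB : ∫ p, ∑ i, (ind (z i)).indicator (fun p => sg p + t p) p ∂(nu r0 r1) =
      ∑ i, ((∫ p in ind (z i), sg p ∂(nu r0 r1)) + E r0 r1 t (z i)) := by
    rw [integral_finsetSum _ fun i _ => hIg i]
    refine Finset.sum_congr rfl fun i _ => ?_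
    rw [integral_indicator (ind_measurable _), integral_add]
    · rfl
    · exact integrableOn_ind r0 r1 h0 _ sg_measurable 1 abs_sg_le (z i)
    · exact integrableOn_ind r0 r1 h0 _ tmeas b hb (z i)
  have hC : ∫ p, (sg p + t p) ^ 2 ∂(nu r0 r1) =
      (∫ p, sg p ^ 2 ∂(nu r0 r1)) + 2 * S r0 r1 t + Qd r0 r1 t := by
    have : (fun p => (sg p + t p) ^ 2) =
        fun p => sg p ^ 2 + 2 * (t p * sg p) + t p ^ 2 := by
      funext p; ring
    rw [this]
    have s1 := integral_add (hI_sg2.add (hI_tsg.const_mul 2)) hI_tsq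
    have s2 := integral_add hI_sg2 (hI_tsg.const_mul 2)
    have s3 : ∫ p, 2 * (t p * sg p) ∂(nu r0 r1) = 2 * ∫ p, t p * sg p ∂(nu r0 r1) :=
      integral_const_mul _ _
    simp only [Pi.add_apply] at s1 s2
    rw [s1, s2, s3]
    rfl
  -- the integrated inequality
  have hmain : 2 * m * ∑ i, ((∫ p in ind (z i), sg p ∂(nu r0 r1)) + E r0 r1 t (z i)) -
      (m : ℝ) ^ 2 * ((∫ p, sg p ^ 2 ∂(nu r0 r1)) + 2 * S r0 r1 t + Qd r0 r1 t) ≤
      ∑ i, ∑ j, Jk r0 r1 (z i) (z j) := by
    rw [← hA, ← hB, ← hC, ← integral_const_mul, ← integral_const_mul, ← integral_sub]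
    · refine integral_mono ?_ ?_ fun p => ?_
      · exact ((integrable_finsetSum _ fun i _ => hIg i).const_mul _).sub
          (hI_g2.const_mul _)
      · exact integrable_finsetSum _ fun i _ => integrable_finsetSum _ fun j _ => hI2 i j
      · have e1 : ∑ i, ∑ j, (ind (z i) ∩ ind (z j)).indicator (fun _ => (1 : ℝ)) p =
            (∑ i, (ind (z i)).indicator (fun _ => (1 : ℝ)) p) ^ 2 := by
          rw [pow_two, Finset.sum_mul_sum]
          exact Finset.sum_congr rfl fun i _ => Finset.sum_congr rfl fun j _ =>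
            (hprod i j p).symm
        have e2 : ∑ i, (ind (z i)).indicator (fun p => sg p + t p) p =
            (∑ i, (ind (z i)).indicator (fun _ => (1 : ℝ)) p) * (sg p + t p) := by
          rw [Finset.sum_mul]
          exact Finset.sum_congr rfl fun i _ => (hprodg i p).symm
        show 2 * (m : ℝ) * ∑ i, (ind (z i)).indicator (fun p => sg p + t p) p -
            (m : ℝ) ^ 2 * (sg p + t p) ^ 2 ≤
          ∑ i, ∑ j, (ind (z i) ∩ ind (z j)).indicator (fun _ => (1 : ℝ)) p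
        rw [e1, e2]
        nlinarith [sq_nonneg ((∑ i, (ind (z i)).indicator (fun _ => (1 : ℝ)) p) -
          m * (sg p + t p))]
    · exact (integrable_finsetSum _ fun i _ => hIg i).const_mul _
    · exact hI_g2.const_mul _
  -- lower bound of the left side
  have hcst : 0 ≤ cst r1 T := cst_nonneg r1 T (by linarith)
  have hJ4 := J4 r0 r1 T h0 h01 hT
  have hJ3 : ∑ i, (E r0 r1 t (z i) - Real.pi * lp (z i)) +
      m * (cst r1 T - 2 * Real.pi * T / r1 - 2 * Real.pi * r0) ≤
      ∑ i, ((∫ p in ind (z i), sg p ∂(nu r0 r1)) + E r0 r1 t (z i)) := by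
    have e1 : (m : ℝ) * (cst r1 T - 2 * Real.pi * T / r1 - 2 * Real.pi * r0) =
        ∑ _i : Fin m, (cst r1 T - 2 * Real.pi * T / r1 - 2 * Real.pi * r0) := by
      rw [Finset.sum_const, Finset.card_univ, Fintype.card_fin, nsmul_eq_mul]
    rw [e1, ← Finset.sum_add_distrib]
    refine Finset.sum_le_sum fun i _ => ?_
    have := J3 r0 r1 T h0 h01 (z i) (hz1 i)
    linarith
  -- upper bound of the right side
  have hR1 : ∑ i, ∑ j, Jk r0 r1 (z i) (z j) ≤
      m * (Real.pi * Real.log (r1 / r0)) +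
        (-Real.pi * (∑ i, ∑ j ∈ Finset.univ.erase i, Real.log ‖z i - z j‖) +
          m * ((m - 1) * cst r1 T)) := by
    have e1 : (m : ℝ) * (Real.pi * Real.log (r1 / r0)) +
        (-Real.pi * (∑ i, ∑ j ∈ Finset.univ.erase i, Real.log ‖z i - z j‖) +
          m * ((m - 1) * cst r1 T)) =
        ∑ i : Fin m, (Real.pi * Real.log (r1 / r0) +
          ∑ j ∈ Finset.univ.erase i, (-Real.pi * Real.log ‖z i - z j‖ + cst r1 T)) := by
      have e2 : ∀ i : Fin m, ∑ j ∈ Finset.univ.erase i,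
          (-Real.pi * Real.log ‖z i - z j‖ + cst r1 T) =
          -Real.pi * (∑ j ∈ Finset.univ.erase i, Real.log ‖z i - z j‖) +
            (m - 1) * cst r1 T := by
        intro i
        rw [Finset.sum_add_distrib, Finset.mul_sum, Finset.sum_const,
          Finset.card_erase_of_mem (Finset.mem_univ i), Finset.card_univ, Fintype.card_fin,
          nsmul_eq_mul]
        have hm : 1 ≤ m := by
          have := i.2
          omega
        push_cast [Nat.cast_sub hm]
        ring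
      simp_rw [e2]
      rw [Finset.sum_add_distrib, Finset.sum_add_distrib, Finset.mul_sum]
      simp
    rw [e1]
    refine Finset.sum_le_sum fun i _ => ?_
    rw [← Finset.add_sum_erase _ _ (Finset.mem_univ i), Jk_self r0 r1 h0 h01.le]
    refine add_le_add le_rfl (Finset.sum_le_sum fun j hj => ?_)
    have hij : z i ≠ z j := fun h => (Finset.ne_of_mem_erase hj) (hz h).symm
    have hr1 : 0 < r1 := h0.trans h01
    exact (Jk_le r0 r1 h0 (z i) (z j) hij).trans
      (J0_le r1 T _ hr1 (norm_pos_iff.2 (sub_ne_zero.2 hij)) (hzT i j))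
  have hm0 : (0 : ℝ) ≤ m := Nat.cast_nonneg m
  have h2m : (0 : ℝ) ≤ 2 * m := by positivity
  have k1 := mul_le_mul_of_nonneg_left hJ3 h2m
  have k2 := mul_le_mul_of_nonneg_left hJ4 (sq_nonneg (m : ℝ))
  have k3 := mul_nonneg hm0 hcst
  have e3 : 4 * Real.pi * T / r1 = 2 * (2 * Real.pi * T / r1) := by ring
  rw [e3]
  generalize hX : 2 * Real.pi * T / r1 = X at *
  generalize hY : (∑ i, ∑ j ∈ Finset.univ.erase i, Real.log ‖z i - z j‖) = Y at *
  generalize hZ : ∑ i, (E r0 r1 t (z i) - Real.pi * lp (z i)) = Z at *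
  generalize hW : ∑ i, ((∫ p in ind (z i), sg p ∂(nu r0 r1)) + E r0 r1 t (z i)) = W at *
  generalize hV : (∫ p, sg p ^ 2 ∂(nu r0 r1)) = V at *
  nlinarith [hmain, hR1, k1, k2, k3]

end Pool.H22.Lh
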