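import Pool.Agent.H22.Lh.Alg

/-!
# [H22 LH FIN] general base field and group

`K(Γ) = K ⊔ ℚ(Γ)`; `Q = minpoly (K(Γ)) α`, `D = deg Q`. Every element of `K(Γ)` lies in `K ⊔ cyc N` for some
`N ≠ 0` (directed union; each `γ = xζ`), so the finitely many coefficients of `Q` lie in `E = K ⊔ cyc N` for one `N`.
`[E : cyc N] ≤ [K:ℚ]`, so `α` has degree at most `D [K:ℚ]` over `cyc N`
(`[E(α) : cyc N] = [E(α):E][E : cyc N] ≤ D [K:ℚ]`); apply `alg` to the image in `ℂ[X]` of
`minpoly (cyc N) α`.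
-/

namespace Pool.H22.Lh

open Polynomial MeasureTheory Metric NumberField

private theorem mem_sup_cyc (K : IntermediateField ℚ ℂ) (Γ : Subgroup ℂˣ)
    (hΓ : ∀ γ ∈ Γ, ∃ x ∈ K, ∃ ζ : ℂ, (∃ r : ℕ, 0 < r ∧ ζ ^ r = 1) ∧ (γ : ℂ) = x * ζ)
    (y : ℂ) (hy : y ∈ K ⊔ IntermediateField.adjoin ℚ ((fun γ : ℂˣ => (γ : ℂ)) '' Γ)) :
    ∃ N : ℕ, N ≠ 0 ∧ y ∈ K ⊔ cyc N := by
  have he : K ⊔ IntermediateField.adjoin ℚ ((fun γ : ℂˣ => (γ : ℂ)) '' Γ) =
      IntermediateField.adjoin ℚ ((K : Set ℂ) ∪ ((fun γ : ℂˣ => (γ : ℂ)) '' Γ)) := by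
    rw [IntermediateField.adjoin_union, IntermediateField.adjoin_self]
  rw [he] at hy
  have hmono : ∀ N M : ℕ, N ≠ 0 → M ≠ 0 → K ⊔ cyc N ≤ K ⊔ cyc (N * M) := fun N M h1 h2 =>
    sup_le_sup_left (cyc_mono N (N * M) (Dvd.intro M rfl) (mul_ne_zero h1 h2)) K
  have hmono' : ∀ N M : ℕ, N ≠ 0 → M ≠ 0 → K ⊔ cyc M ≤ K ⊔ cyc (N * M) := fun N M h1 h2 =>
    sup_le_sup_left (cyc_mono M (N * M) (Dvd.intro_left N rfl) (mul_ne_zero h1 h2)) K
  induction hy using IntermediateField.adjoin_induction with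
  | mem x hx =>
    rcases hx with hx | hx
    · exact ⟨1, one_ne_zero, (le_sup_left : K ≤ K ⊔ cyc 1) hx⟩
    · obtain ⟨γ, hγ, rfl⟩ := hx
      obtain ⟨x, hxK, ζ, ⟨r, hr, hζ⟩, hxe⟩ := hΓ γ hγ
      refine ⟨r, hr.ne', ?_⟩
      simp only [hxe]
      exact mul_mem ((le_sup_left : K ≤ K ⊔ cyc r) hxK)
        ((le_sup_right : cyc r ≤ K ⊔ cyc r) (root_mem_cyc r hr.ne' ζ hζ))
  | algebraMap x => exact ⟨1, one_ne_zero, IntermediateField.algebraMap_mem _ _⟩
  | add x y _ _ h1 h2 =>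
    obtain ⟨N, hN, hx⟩ := h1
    obtain ⟨M, hM, hy⟩ := h2
    exact ⟨N * M, mul_ne_zero hN hM, add_mem (hmono N M hN hM hx) (hmono' N M hN hM hy)⟩
  | inv x _ h1 =>
    obtain ⟨N, hN, hx⟩ := h1
    exact ⟨N, hN, inv_mem hx⟩
  | mul x y _ _ h1 h2 =>
    obtain ⟨N, hN, hx⟩ := h1
    obtain ⟨M, hM, hy⟩ := h2
    exact ⟨N * M, mul_ne_zero hN hM, mul_mem (hmono N M hN hM hx) (hmono' N M hN hM hy)⟩

private theorem coeffs_mem (K L : IntermediateField ℚ ℂ)
    (h : ∀ y ∈ L, ∃ N : ℕ, N ≠ 0 ∧ y ∈ K ⊔ cyc N) (Q : Polynomial L) :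
    ∃ N : ℕ, N ≠ 0 ∧ ∀ i, (Q.coeff i : ℂ) ∈ K ⊔ cyc N := by
  choose f hf0 hf using fun i => h (Q.coeff i) (Q.coeff i).2
  refine ⟨∏ i ∈ Q.support, f i, Finset.prod_ne_zero_iff.mpr fun i _ => hf0 i, fun i => ?_⟩
  by_cases hi : i ∈ Q.support
  · exact sup_le_sup_left (cyc_mono (f i) _ (Finset.dvd_prod_of_mem f hi)
      (Finset.prod_ne_zero_iff.mpr fun i _ => hf0 i)) K (hf i)
  · rw [Polynomial.notMem_support_iff.mp hi]
    exact zero_mem _

/-- degrees over `ℚ` of a simple extension of an intermediate field. -/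
private theorem finrank_simple (E : IntermediateField ℚ ℂ) [FiniteDimensional ℚ E] (α : ℂ)
    (hα : IsIntegral E α) :
    Module.finrank ℚ (IntermediateField.restrictScalars ℚ
      (IntermediateField.adjoin E ({α} : Set ℂ))) =
      Module.finrank ℚ E * (minpoly E α).natDegree := by
  rw [← IntermediateField.adjoin.finrank hα]
  exact (Module.finrank_mul_finrank ℚ E (IntermediateField.adjoin E ({α} : Set ℂ))).symm

private theorem deg_le (C E : IntermediateField ℚ ℂ) [FiniteDimensional ℚ C]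
    [FiniteDimensional ℚ E] (hCE : C ≤ E) (α : ℂ) (hα : IsIntegral ℤ α) :
    Module.finrank ℚ C * (minpoly C α).natDegree ≤
      Module.finrank ℚ E * (minpoly E α).natDegree := by
  have hC : IsIntegral C α := hα.tower_top
  have hE : IsIntegral E α := hα.tower_top
  rw [← finrank_simple C α hC, ← finrank_simple E α hE]
  have hle : IntermediateField.restrictScalars ℚ (IntermediateField.adjoin C ({α} : Set ℂ)) ≤
      IntermediateField.restrictScalars ℚ (IntermediateField.adjoin E ({α} : Set ℂ)) := by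
    intro y hy
    rw [IntermediateField.mem_restrictScalars] at hy ⊢
    induction hy using IntermediateField.adjoin_induction with
    | mem x hx => exact IntermediateField.subset_adjoin _ _ hx
    | algebraMap x =>
      exact IntermediateField.algebraMap_mem (IntermediateField.adjoin E ({α} : Set ℂ))
        (⟨(x : ℂ), hCE x.2⟩ : E)
    | add x y _ _ h1 h2 => exact add_mem h1 h2
    | inv x _ h1 => exact inv_mem h1
    | mul x y _ _ h1 h2 => exact mul_mem h1 h2
  have hfin : FiniteDimensional ℚ (IntermediateField.restrictScalars ℚ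
      (IntermediateField.adjoin E ({α} : Set ℂ))) := by
    have h1 : FiniteDimensional E (IntermediateField.adjoin E ({α} : Set ℂ)) :=
      IntermediateField.adjoin.finiteDimensional hE
    exact Module.Finite.trans (R := ℚ) E (IntermediateField.adjoin E ({α} : Set ℂ))
  exact Submodule.finrank_mono (R := ℚ) (M := ℂ)
    (s := (IntermediateField.restrictScalars ℚ
      (IntermediateField.adjoin C ({α} : Set ℂ))).toSubmodule)
    (t := (IntermediateField.restrictScalars ℚ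
      (IntermediateField.adjoin E ({α} : Set ℂ))).toSubmodule) hle

theorem fin_main (K : IntermediateField ℚ ℂ) [FiniteDimensional ℚ K] (Γ : Subgroup ℂˣ)
    (hΓ : ∀ γ ∈ Γ, ∃ x ∈ K, ∃ ζ : ℂ, (∃ r : ℕ, 0 < r ∧ ζ ^ r = 1) ∧ (γ : ℂ) = x * ζ)
    (α : ℂ) (hα : IsIntegral ℤ α) (h0 : α ≠ 0) (h1 : ∀ k : ℕ, 0 < k → α ^ k ≠ 1) :
    c1 / C1 ≤ 40 * (Module.finrank ℚ K : ℝ) ^ 2 *
      ((minpoly (K ⊔ IntermediateField.adjoin ℚ ((fun γ : ℂˣ => (γ : ℂ)) '' Γ) :
        IntermediateField ℚ ℂ) α).natDegree : ℝ) ^ 2 *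
      meanC (fun z => phi (lp z)) α := by
  set L : IntermediateField ℚ ℂ :=
    K ⊔ IntermediateField.adjoin ℚ ((fun γ : ℂˣ => (γ : ℂ)) '' Γ) with hL
  have hαL : IsIntegral L α := hα.tower_top
  set D := (minpoly L α).natDegree with hD
  obtain ⟨N, hN, hcoef⟩ := coeffs_mem K L (mem_sup_cyc K Γ hΓ) (minpoly L α)
  set E : IntermediateField ℚ ℂ := K ⊔ cyc N with hE
  have hαE : IsIntegral E α := hα.tower_top
  have hαC : IsIntegral (cyc N) α := hα.tower_top
  -- the degree over E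
  have hlift : (minpoly L α).map (algebraMap L ℂ) ∈ Polynomial.lifts (algebraMap E ℂ) := by
    rw [Polynomial.lifts_iff_coeff_lifts]
    intro i
    rw [Polynomial.coeff_map]
    exact ⟨⟨((minpoly L α).coeff i : ℂ), hcoef i⟩, rfl⟩
  obtain ⟨R, hR1, hR2, hR3⟩ := Polynomial.lifts_and_natDegree_eq_and_monic hlift
    ((minpoly.monic hαL).map _)
  have hRr : aeval α R = 0 := by
    rw [Polynomial.aeval_def, ← Polynomial.eval_map, hR1, Polynomial.eval_map,
      ← Polynomial.aeval_def, minpoly.aeval]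
  have hRd : (minpoly E α).natDegree ≤ D := by
    have h1 := Polynomial.natDegree_le_of_dvd (minpoly.dvd E α hRr) hR3.ne_zero
    rw [hR2, (minpoly.monic hαL).natDegree_map] at h1
    exact h1
  -- the degree over the cyclotomic field
  have hEfin : FiniteDimensional ℚ E := by
    rw [hE]
    infer_instance
  have h2 := deg_le (cyc N) E le_sup_right α hα
  have h3 : Module.finrank ℚ E ≤ Module.finrank ℚ K * Module.finrank ℚ (cyc N) :=
    IntermediateField.finrank_sup_le K (cyc N)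
  have h4 : 0 < Module.finrank ℚ (cyc N) := Module.finrank_pos
  have h5 : (minpoly (cyc N) α).natDegree ≤ Module.finrank ℚ K * D := by
    refine Nat.le_of_mul_le_mul_left ?_ h4
    calc Module.finrank ℚ (cyc N) * (minpoly (cyc N) α).natDegree
        ≤ Module.finrank ℚ E * (minpoly E α).natDegree := h2
      _ ≤ (Module.finrank ℚ K * Module.finrank ℚ (cyc N)) * D := Nat.mul_le_mul h3 hRd
      _ = Module.finrank ℚ (cyc N) * (Module.finrank ℚ K * D) := by ring
  -- the conclusion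
  have hmain := alg α hα h0 h1 N hN ((minpoly (cyc N) α).map (algebraMap (cyc N) ℂ))
    ((minpoly.monic hαC).map _) (fun i => by
      rw [Polynomial.coeff_map]
      exact ((minpoly (cyc N) α).coeff i).2) (by
      rw [Polynomial.eval_map, ← Polynomial.aeval_def, minpoly.aeval])
  rw [(minpoly.monic hαC).natDegree_map] at hmain
  refine hmain.trans ?_
  have hmean : 0 ≤ meanC (fun z => phi (lp z)) α := by
    unfold meanC
    refine div_nonneg (Multiset.sum_nonneg fun x hx => ?_) (Nat.cast_nonneg _)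
    rw [Multiset.mem_map] at hx
    obtain ⟨z, -, rfl⟩ := hx
    exact phi_nonneg (lp_nonneg z)
  refine mul_le_mul_of_nonneg_right ?_ hmean
  have h6 : ((minpoly (cyc N) α).natDegree : ℝ) ≤ (Module.finrank ℚ K : ℝ) * (D : ℝ) := by
    exact_mod_cast h5
  calc 40 * ((minpoly (cyc N) α).natDegree : ℝ) ^ 2
      ≤ 40 * ((Module.finrank ℚ K : ℝ) * (D : ℝ)) ^ 2 := by gcongr
    _ = 40 * (Module.finrank ℚ K : ℝ) ^ 2 * (D : ℝ) ^ 2 := by ring

end Pool.H22.Lh
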