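import Pool.Agent.H22.Lh.Defs

/-!
# [H22 LH SIG] the uniform measure on the unit circle

`sig` = push forward of `dθ/(2π)` on `(0, 2π]` under `circleMap 0 1` (`θ ↦ exp(iθ)`).
* `sig_integral`: unfold (`integral_smul_measure`, `integral_map`, `Real.circleAverage_def`,
  `intervalIntegral.integral_of_le`).
* `sig_log`: `circleAverage_log_norm_sub_const_eq_posLog` in
  `Mathlib/Analysis/SpecialFunctions/Integrals/PosLogEqCircleAverage.lean`.
* `sg_le`: if the ball contains no point of the circle the measure is `0`; otherwise all its points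
  `w` of the circle satisfy `‖w - w0‖ < 2ρ`, `w0 = exp(iθ0)`, and `‖exp(iθ) - exp(iθ0)‖ =
  2|sin((θ-θ0)/2)|`; with `θ, θ0 ∈ (0, 2π]` and `ρ < 1` (else trivial, `sg ≤ 1`), Jordan's inequality
  gives `|θ - θ0| < πρ` or `|θ - θ0| > 2π - πρ`, a set of length at most `2πρ + πρ + πρ = 4πρ`.
* `le_sg`: `x = |x| exp(iθ0)`, `θ0 ∈ (0, 2π]`; for `|θ - θ0| < h/2`:
  `‖exp(iθ) - x‖ ≤ |θ - θ0| + |‖x‖ - 1| < h ≤ ρ`; at least one of the intervals
  `(θ0, θ0 + h/2)`, `(θ0 - h/2, θ0)` lies in `(0, 2π]` (as `h ≤ 1`), so the measure is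
  at least `(h/2)/(2π)`.
-/

namespace Pool.H22.Lh

open Polynomial MeasureTheory Metric

lemma sigx_two_pi_pos : (0 : ℝ) < 2 * Real.pi := by positivity

lemma sigx_apply (s : Set ℂ) (hs : MeasurableSet s) :
    sig s = ENNReal.ofReal (2 * Real.pi)⁻¹ *
      volume (circleMap 0 1 ⁻¹' s ∩ Set.Ioc 0 (2 * Real.pi)) := by
  have hm : Measurable (circleMap 0 1) := (continuous_circleMap 0 1).measurable
  unfold sig
  rw [Measure.smul_apply, Measure.map_apply hm hs, Measure.restrict_apply (hm hs), smul_eq_mul]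

instance sig_prob : IsProbabilityMeasure sig := by
  constructor
  rw [sigx_apply _ MeasurableSet.univ, Set.preimage_univ, Set.univ_inter, Real.volume_Ioc,
    sub_zero, ← ENNReal.ofReal_mul (by positivity), inv_mul_cancel₀ (by positivity),
    ENNReal.ofReal_one]

theorem sig_integral (f : ℂ → ℝ) (hf : Measurable f) :
    ∫ w, f w ∂sig = Real.circleAverage f 0 1 := by
  unfold sig
  rw [integral_smul_measure, integral_map (continuous_circleMap 0 1).measurable.aemeasurable
    hf.aestronglyMeasurable, Real.circleAverage_def,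
    intervalIntegral.integral_of_le sigx_two_pi_pos.le,
    ENNReal.toReal_ofReal (by positivity)]

theorem sig_log_integrable (z : ℂ) : Integrable (fun w => Real.log ‖z - w‖) sig := by
  have h1 := circleIntegrable_log_norm_sub_const (c := 0) (a := z) 1
  rw [circleIntegrable_def, intervalIntegrable_iff_integrableOn_Ioc_of_le sigx_two_pi_pos.le] at h1
  unfold sig
  refine Integrable.smul_measure ?_ ENNReal.ofReal_ne_top
  have hm : Measurable (fun w : ℂ => Real.log ‖z - w‖) := by fun_prop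
  rw [integrable_map_measure hm.aestronglyMeasurable
    (continuous_circleMap 0 1).measurable.aemeasurable]
  refine h1.congr (Filter.Eventually.of_forall fun θ => ?_)
  change Real.log ‖circleMap 0 1 θ - z‖ = Real.log ‖z - circleMap 0 1 θ‖
  rw [norm_sub_rev]

theorem sig_log (z : ℂ) : ∫ w, Real.log ‖z - w‖ ∂sig = lp z := by
  have hm : Measurable (fun w : ℂ => Real.log ‖z - w‖) := by fun_prop
  rw [sig_integral _ hm]
  have h : (fun w : ℂ => Real.log ‖z - w‖) = (fun w => Real.log ‖w - z‖) := by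
    funext w
    rw [norm_sub_rev]
  rw [h]
  exact circleAverage_log_norm_sub_const_eq_posLog

theorem sig_norm : ∀ᵐ w ∂sig, ‖w‖ = 1 := by
  have hs : MeasurableSet {w : ℂ | ‖w‖ = 1} := measurableSet_eq_fun measurable_norm measurable_const
  unfold sig
  refine Measure.ae_smul_measure ?_ _
  rw [ae_map_iff (continuous_circleMap 0 1).measurable.aemeasurable hs]
  refine Filter.Eventually.of_forall fun θ => ?_
  simp

theorem sig_singleton (z : ℂ) : sig {z} = 0 := by
  rw [sigx_apply _ (measurableSet_singleton z)]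
  have h1 : volume (circleMap 0 1 ⁻¹' {z}) = 0 :=
    ((Set.countable_singleton z).preimage_circleMap 0 one_ne_zero).measure_zero _
  have h2 : volume (circleMap 0 1 ⁻¹' {z} ∩ Set.Ioc 0 (2 * Real.pi)) = 0 :=
    measure_mono_null Set.inter_subset_left h1
  rw [h2, mul_zero]

theorem sg_nonneg (p : ℂ × ℝ) : 0 ≤ sg p := measureReal_nonneg

theorem sg_le_one (p : ℂ × ℝ) : sg p ≤ 1 := measureReal_le_one

theorem sg_measurable : Measurable sg := by
  have hs : MeasurableSet {q : (ℂ × ℝ) × ℂ | dist q.2 q.1.1 < q.1.2} := by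
    refine measurableSet_lt ?_ ?_
    · fun_prop
    · fun_prop
  have h1 := measurable_measure_prodMk_left (ν := sig) hs
  exact h1.ennreal_toReal

lemma sigx_norm_sub (a b : ℝ) : ‖circleMap 0 1 a - circleMap 0 1 b‖ = 2 * |Real.sin ((a - b) / 2)| := by
  have h1 : circleMap 0 1 a - circleMap 0 1 b
      = circleMap 0 1 b * (Complex.exp (Complex.I * ((a - b : ℝ) : ℂ)) - 1) := by
    unfold circleMap
    simp only [zero_add, Complex.ofReal_one, one_mul]
    rw [mul_sub, mul_one, ← Complex.exp_add]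
    congr 2
    push_cast
    ring
  rw [h1, norm_mul, norm_circleMap_zero, abs_one, one_mul, Complex.norm_exp_I_mul_ofReal_sub_one,
    norm_mul, Real.norm_eq_abs, Real.norm_eq_abs, abs_two]

lemma sigx_norm_sub_le (a b : ℝ) : ‖circleMap 0 1 a - circleMap 0 1 b‖ ≤ |a - b| := by
  rw [sigx_norm_sub]
  have h1 : |Real.sin ((a - b) / 2)| ≤ |(a - b) / 2| := Real.abs_sin_le_abs
  rw [abs_div, abs_two] at h1
  linarith

/-- Jordan inequality on the circle -/
lemma sigx_jordan {a b ρ : ℝ} (ha : a ∈ Set.Ioc 0 (2 * Real.pi)) (hb : b ∈ Set.Ioc 0 (2 * Real.pi))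
    (h : ‖circleMap 0 1 a - circleMap 0 1 b‖ < 2 * ρ) :
    |a - b| < Real.pi * ρ ∨ 2 * Real.pi - Real.pi * ρ < |a - b| := by
  have hpi := Real.pi_pos
  rw [sigx_norm_sub] at h
  have h0 : |Real.sin ((a - b) / 2)| < ρ := by linarith
  have hab : |a - b| < 2 * Real.pi := by
    rw [abs_lt]
    constructor <;> linarith [ha.1, ha.2, hb.1, hb.2]
  rcases le_or_gt |(a - b) / 2| (Real.pi / 2) with h1 | h1
  · left
    have h2 := Real.mul_abs_le_abs_sin h1
    rw [abs_div, abs_two] at h2
    have h3 : |a - b| / Real.pi < ρ := by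
      calc |a - b| / Real.pi = 2 / Real.pi * (|a - b| / 2) := by ring
        _ ≤ _ := h2
        _ < ρ := h0
    rw [div_lt_iff₀ hpi] at h3
    linarith
  · right
    rw [abs_div, abs_two] at h1
    have h2 : |Real.sin ((a - b) / 2)| = Real.sin (Real.pi - |a - b| / 2) := by
      rw [Real.sin_pi_sub]
      rcases le_or_gt 0 (a - b) with h3 | h3
      · rw [abs_of_nonneg h3]
        apply abs_of_nonneg
        rw [abs_of_nonneg h3] at hab
        exact Real.sin_nonneg_of_nonneg_of_le_pi (by linarith) (by linarith)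
      · rw [abs_of_neg h3, neg_div, Real.sin_neg]
        apply abs_of_nonpos
        rw [abs_of_neg h3] at hab
        exact Real.sin_nonpos_of_nonpos_of_neg_pi_le (by linarith) (by linarith)
    rw [h2] at h0
    have h3 := Real.mul_le_sin (x := Real.pi - |a - b| / 2) (by linarith) (by linarith)
    have h4 : (2 * Real.pi - |a - b|) / Real.pi < ρ := by
      calc (2 * Real.pi - |a - b|) / Real.pi = 2 / Real.pi * (Real.pi - |a - b| / 2) := by
            field_simp
        _ ≤ _ := h3
        _ < ρ := h0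
    rw [div_lt_iff₀ hpi] at h4
    linarith

theorem sg_le (p : ℂ × ℝ) (hp : 0 < p.2) : sg p ≤ 2 * p.2 := by
  obtain ⟨x, ρ⟩ := p
  simp only at hp ⊢
  have hpi := Real.pi_pos
  unfold sg
  rw [measureReal_def, sigx_apply _ measurableSet_ball]
  refine ENNReal.toReal_le_of_le_ofReal (by positivity) ?_
  by_cases hex : ∃ b ∈ Set.Ioc 0 (2 * Real.pi), circleMap 0 1 b ∈ ball x ρ
  · obtain ⟨b, hb, hbx⟩ := hex
    have hsub : circleMap 0 1 ⁻¹' ball x ρ ∩ Set.Ioc 0 (2 * Real.pi) ⊆
        (Set.Ioo (b - Real.pi * ρ) (b + Real.pi * ρ) ∪ Set.Ioc (2 * Real.pi - Real.pi * ρ)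
          (2 * Real.pi)) ∪ Set.Ioo 0 (Real.pi * ρ) := by
      rintro a ⟨hax, ha⟩
      have h1 : ‖circleMap 0 1 a - circleMap 0 1 b‖ < 2 * ρ := by
        have h2 : dist (circleMap 0 1 a) (circleMap 0 1 b) < ρ + ρ :=
          lt_of_le_of_lt (dist_triangle_right _ _ x) (add_lt_add (mem_ball.1 hax) (mem_ball.1 hbx))
        rw [dist_eq_norm] at h2
        linarith
      rcases sigx_jordan ha hb h1 with h2 | h2
      · left; left
        rw [abs_lt] at h2
        exact ⟨by linarith [h2.1], by linarith [h2.2]⟩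
      · rcases le_or_gt 0 (a - b) with h3 | h3
        · rw [abs_of_nonneg h3] at h2
          left; right
          exact ⟨by linarith [hb.1], ha.2⟩
        · rw [abs_of_neg h3] at h2
          right
          exact ⟨ha.1, by linarith [hb.2]⟩
    have hvol : volume (circleMap 0 1 ⁻¹' ball x ρ ∩ Set.Ioc 0 (2 * Real.pi)) ≤
        ENNReal.ofReal (4 * Real.pi * ρ) := by
      refine (measure_mono hsub).trans ((measure_union_le _ _).trans
        ((add_le_add_left (measure_union_le _ _) _).trans ?_))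
      rw [Real.volume_Ioo, Real.volume_Ioc, Real.volume_Ioo,
        ← ENNReal.ofReal_add (by nlinarith) (by nlinarith),
        ← ENNReal.ofReal_add (by nlinarith) (by nlinarith)]
      refine ENNReal.ofReal_le_ofReal (by linarith)
    calc ENNReal.ofReal (2 * Real.pi)⁻¹ *
        volume (circleMap 0 1 ⁻¹' ball x ρ ∩ Set.Ioc 0 (2 * Real.pi))
        ≤ ENNReal.ofReal (2 * Real.pi)⁻¹ * ENNReal.ofReal (4 * Real.pi * ρ) := by gcongr
      _ = ENNReal.ofReal (2 * ρ) := by
        rw [← ENNReal.ofReal_mul (by positivity)]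
        congr 1
        field_simp
        ring
  · have h1 : circleMap 0 1 ⁻¹' ball x ρ ∩ Set.Ioc 0 (2 * Real.pi) = ∅ := by
      rw [Set.eq_empty_iff_forall_notMem]
      rintro a ⟨hax, ha⟩
      exact hex ⟨a, ha, hax⟩
    rw [h1, measure_empty, mul_zero]
    exact zero_le

lemma sigx_polar (x : ℂ) : ∃ b ∈ Set.Ioc 0 (2 * Real.pi), (‖x‖ : ℂ) * circleMap 0 1 b = x := by
  have hpi := Real.pi_pos
  have h0 : (‖x‖ : ℂ) * Complex.exp (x.arg * Complex.I) = x := Complex.norm_mul_exp_arg_mul_I x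
  rcases lt_or_ge 0 x.arg with h | h
  · refine ⟨x.arg, ⟨h, by linarith [Complex.arg_le_pi x]⟩, ?_⟩
    unfold circleMap
    simp
  · refine ⟨x.arg + 2 * Real.pi, ⟨by linarith [Complex.neg_pi_lt_arg x], by linarith⟩, ?_⟩
    have h1 : circleMap 0 1 (x.arg + 2 * Real.pi) = circleMap 0 1 x.arg :=
      periodic_circleMap 0 1 x.arg
    rw [h1]
    unfold circleMap
    simp

theorem le_sg (x : ℂ) (r h : ℝ) (h0 : 0 < h) (h1 : h ≤ 1) (hr : h ≤ r)
    (hx : |‖x‖ - 1| < h / 2) : h / (4 * Real.pi) ≤ sg (x, r) := by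
  have hpi := Real.pi_pos
  have hpi3 := Real.pi_gt_three
  obtain ⟨b, hb, hbx⟩ := sigx_polar x
  have key : ∀ a, |a - b| < h / 2 → circleMap 0 1 a ∈ ball x r := by
    intro a ha
    rw [mem_ball, dist_eq_norm]
    have h2 : circleMap 0 1 a - x = (circleMap 0 1 a - circleMap 0 1 b) +
        (1 - (‖x‖ : ℂ)) * circleMap 0 1 b := by
      conv_lhs => rw [← hbx]
      ring
    have h3 : ‖(1 - (‖x‖ : ℂ)) * circleMap 0 1 b‖ = |‖x‖ - 1| := by
      rw [norm_mul, norm_circleMap_zero, abs_one, mul_one, norm_sub_rev]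
      have : ((‖x‖ : ℂ) - 1) = ((‖x‖ - 1 : ℝ) : ℂ) := by push_cast; rfl
      rw [this, Complex.norm_real, Real.norm_eq_abs]
    rw [h2]
    refine lt_of_le_of_lt (norm_add_le _ _) ?_
    rw [h3]
    have h4 := sigx_norm_sub_le a b
    linarith
  have hvol : ENNReal.ofReal (h / 2) ≤
      volume (circleMap 0 1 ⁻¹' ball x r ∩ Set.Ioc 0 (2 * Real.pi)) := by
    rcases le_or_gt b Real.pi with hbp | hbp
    · have h2 : Set.Ioo b (b + h / 2) ⊆ circleMap 0 1 ⁻¹' ball x r ∩ Set.Ioc 0 (2 * Real.pi) := by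
        intro a ha
        refine ⟨key a ?_, ⟨by linarith [ha.1, hb.1], by linarith [ha.2]⟩⟩
        rw [abs_lt]
        exact ⟨by linarith [ha.1], by linarith [ha.2]⟩
      refine le_trans (le_of_eq ?_) (measure_mono h2)
      rw [Real.volume_Ioo]
      congr 1
      ring
    · have h2 : Set.Ioo (b - h / 2) b ⊆ circleMap 0 1 ⁻¹' ball x r ∩ Set.Ioc 0 (2 * Real.pi) := by
        intro a ha
        refine ⟨key a ?_, ⟨by linarith [ha.1], by linarith [ha.2, hb.2]⟩⟩
        rw [abs_lt]
        exact ⟨by linarith [ha.1], by linarith [ha.2]⟩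
      refine le_trans (le_of_eq ?_) (measure_mono h2)
      rw [Real.volume_Ioo]
      congr 1
      ring
  unfold sg
  have hfin : sig (ball (x, r).1 (x, r).2) ≠ ⊤ := measure_ne_top _ _
  rw [measureReal_def, ← ENNReal.ofReal_le_iff_le_toReal hfin, sigx_apply _ measurableSet_ball]
  calc ENNReal.ofReal (h / (4 * Real.pi))
      = ENNReal.ofReal (2 * Real.pi)⁻¹ * ENNReal.ofReal (h / 2) := by
        rw [← ENNReal.ofReal_mul (by positivity)]
        congr 1
        field_simp
        ring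
    _ ≤ _ := by gcongr

end Pool.H22.Lh
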