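import Pool.Agent.H22.Lh.Jlog
import Pool.Agent.H22.Lh.Sig

/-!
# [H22 LH FUB] energy of the uniform measure on the circle

* `ind_sg`: Fubini: `∫_{p ∈ ind z} sig(B_p) dnu = ∫ nu(ind z ∩ ind w) dsig(w)` (the set
  `{(p,w) : p ∈ ind z ∩ ind w}` is open, all measures involved are finite on it; do it with
  `lintegral`/`Measure.prod_apply`, then take `toReal`).
* `J3`: for `w ≠ z` (all but a `sig`-null set) `J0 r1 ‖z-w‖ - Jk r0 r1 z w =
  ∫_{(0,r0]} A(‖z-w‖/r) dr/r = ∫_{(0,r0]} vol(B(z,r) ∩ B(w,r)) dr/r^3`, whose `sig`-integral over `w` is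
  `∫_{(0,r0]} ∫_{x ∈ B(z,r)} sig(B(x,r)) dx dr/r^3 ≤ ∫_{(0,r0]} π r^2 * 2r dr/r^3 = 2π r0`
  (Tonelli, `sg_le`). So `∫ Jk dsig ≥ ∫ J0 r1 ‖z-w‖ dsig(w) - 2π r0`, and `le_J0`
  (with `‖z-w‖ ≤ ‖z‖ + 1 ≤ T`), `sig_log` give the claim. (Integrability of `J0 r1 ‖z-w‖`:
  between `le_J0` and `J0_le`, which are integrable by `sig_log_integrable`.)
* `J4`: `sg p ^ 2 = ∫∫ 1[p ∈ ind z ∩ ind w] dsig dsig`, so the left side is
  `∫∫ Jk r0 r1 z w dsig dsig ≤ ∫∫ (-π log‖z-w‖ + cst) = cst` since `∫ log‖z-w‖ dsig(w) = lp z = 0`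
  for `‖z‖ = 1`.
-/

namespace Pool.H22.Lh

open Polynomial MeasureTheory Metric

theorem m1_ae_mem (r0 r1 : ℝ) : ∀ᵐ r ∂(m1 r0 r1), r0 < r ∧ r ≤ r1 := by
  have h : ∀ᵐ r ∂(volume.restrict (Set.Ioc r0 r1)), r0 < r ∧ r ≤ r1 := by
    filter_upwards [ae_restrict_mem (measurableSet_Ioc (a := r0) (b := r1))] with r hr
    exact hr
  exact (withDensity_absolutelyContinuous _ _).ae_le h

theorem nu_ind_le (r0 r1 : ℝ) (z : ℂ) :
    nu r0 r1 (ind z) ≤ volume (ball (0 : ℂ) r1) * m1 r0 r1 Set.univ := by
  have := m1_sfinite r0 r1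
  unfold nu
  rw [Measure.prod_apply_symm (ind_measurable z)]
  calc ∫⁻ r, volume ((fun x => (x, r)) ⁻¹' ind z) ∂(m1 r0 r1)
      ≤ ∫⁻ r, volume (ball (0 : ℂ) r1) ∂(m1 r0 r1) := by
        apply lintegral_mono_ae
        filter_upwards [m1_ae_mem r0 r1] with r hr
        have h1 : ((fun x : ℂ => (x, r)) ⁻¹' ind z) ⊆ ball z r1 := by
          intro x hx
          have hx' : ‖x - z‖ < r := hx
          rw [mem_ball, dist_eq_norm]
          exact lt_of_lt_of_le hx' hr.2
        calc volume ((fun x : ℂ => (x, r)) ⁻¹' ind z) ≤ volume (ball z r1) := measure_mono h1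
          _ = volume (ball (0 : ℂ) r1) := Measure.addHaar_ball_center volume z r1
    _ = volume (ball (0 : ℂ) r1) * m1 r0 r1 Set.univ := by
        rw [lintegral_const]

theorem nu_ind_lt_top (r0 r1 : ℝ) (h0 : 0 < r0) (z : ℂ) : nu r0 r1 (ind z) < ⊤ :=
  lt_of_le_of_lt (nu_ind_le r0 r1 z)
    (ENNReal.mul_lt_top measure_ball_lt_top (m1_univ_lt r0 r1 h0))

theorem inc_measurable : MeasurableSet {q : (ℂ × ℝ) × ℂ | ‖q.1.1 - q.2‖ < q.1.2} := by
  apply IsOpen.measurableSet
  apply isOpen_lt
  · fun_prop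
  · fun_prop

theorem ofReal_sg (p : ℂ × ℝ) : ENNReal.ofReal (sg p) = sig (ball p.1 p.2) := by
  unfold sg Measure.real
  rw [ENNReal.ofReal_toReal (measure_ne_top _ _)]

theorem sec_left (p : ℂ × ℝ) :
    (Prod.mk p ⁻¹' {q : (ℂ × ℝ) × ℂ | ‖q.1.1 - q.2‖ < q.1.2}) = ball p.1 p.2 := by
  ext w
  simp only [Set.mem_preimage, Set.mem_ofPred_eq, mem_ball, dist_eq_norm]
  rw [norm_sub_rev]

theorem sec_right (w : ℂ) :
    ((fun p : ℂ × ℝ => (p, w)) ⁻¹' {q : (ℂ × ℝ) × ℂ | ‖q.1.1 - q.2‖ < q.1.2}) = ind w := by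
  ext p
  simp only [Set.mem_preimage, Set.mem_ofPred_eq, ind]

/-- Tonelli for the incidence relation. -/
theorem tonelli (μ : Measure (ℂ × ℝ)) [SFinite μ] :
    ∫⁻ p, ENNReal.ofReal (sg p) ∂μ = ∫⁻ w, μ (ind w) ∂sig := by
  have h1 := Measure.prod_apply (μ := μ) (ν := sig) inc_measurable
  have h2 := Measure.prod_apply_symm (μ := μ) (ν := sig) inc_measurable
  rw [h1] at h2
  simp only [sec_left] at h2
  simp only [sec_right] at h2
  simp only [ofReal_sg]
  exact h2

instance nu_sfinite (r0 r1 : ℝ) : SFinite (nu r0 r1) := by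
  have := m1_sfinite r0 r1
  unfold nu
  infer_instance

theorem jk_eq_lint (r0 r1 : ℝ) (h0 : 0 < r0) (z w : ℂ) :
    ENNReal.ofReal (Jk r0 r1 z w) = (nu r0 r1).restrict (ind z) (ind w) := by
  rw [Measure.restrict_apply (ind_measurable w), Set.inter_comm]
  unfold Jk Measure.real
  rw [ENNReal.ofReal_toReal]
  exact ne_top_of_le_ne_top (nu_ind_lt_top r0 r1 h0 z).ne (measure_mono Set.inter_subset_left)

theorem jk_measurable (r0 r1 : ℝ) (h0 : 0 < r0) (z : ℂ) : Measurable (Jk r0 r1 z) := by
  have h1 : Measurable (fun w => (nu r0 r1).restrict (ind z) (ind w)) := by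
    have := measurable_measure_prodMk_right (μ := (nu r0 r1).restrict (ind z)) inc_measurable
    simp only [sec_right] at this
    exact this
  have h2 : Jk r0 r1 z = fun w => ((nu r0 r1).restrict (ind z) (ind w)).toReal := by
    funext w
    rw [← jk_eq_lint r0 r1 h0 z w, ENNReal.toReal_ofReal (Jk_nonneg _ _ _ _)]
  rw [h2]
  exact h1.ennreal_toReal

theorem ind_sg (r0 r1 : ℝ) (h0 : 0 < r0) (z : ℂ) :
    ∫ p in ind z, sg p ∂(nu r0 r1) = ∫ w, Jk r0 r1 z w ∂sig := by
  rw [integral_eq_lintegral_of_nonneg_ae (Filter.Eventually.of_forall fun p => sg_nonneg p)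
    sg_measurable.aestronglyMeasurable]
  rw [integral_eq_lintegral_of_nonneg_ae (Filter.Eventually.of_forall fun w => Jk_nonneg _ _ _ _)
    (jk_measurable r0 r1 h0 z).aestronglyMeasurable]
  congr 1
  rw [tonelli]
  exact lintegral_congr fun w => (jk_eq_lint r0 r1 h0 z w).symm

theorem sig_ne (z : ℂ) : ∀ᵐ w ∂sig, w ≠ z := by
  rw [ae_iff]
  have : {a : ℂ | ¬a ≠ z} = {z} := by ext; simp
  rw [this]
  exact sig_singleton z

theorem upper_integrable (c : ℝ) (z : ℂ) :
    Integrable (fun w => -Real.pi * Real.log ‖z - w‖ + c) sig :=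
  ((sig_log_integrable z).const_mul _).add (integrable_const _)

theorem upper_integral (c : ℝ) (z : ℂ) :
    ∫ w, (-Real.pi * Real.log ‖z - w‖ + c) ∂sig = -Real.pi * lp z + c := by
  rw [integral_add ((sig_log_integrable z).const_mul _) (integrable_const _), integral_const_mul,
    sig_log]
  simp

theorem J0_sig_integrable (r1 T : ℝ) (h1 : 0 < r1) (z : ℂ) (hz : ‖z‖ + 1 ≤ T) :
    Integrable (fun w => J0 r1 ‖z - w‖) sig := by
  apply Integrable.mono' (upper_integrable (cst r1 T) z)
  · exact ((J0_measurable r1).comp (by fun_prop)).aestronglyMeasurable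
  · filter_upwards [sig_ne z, sig_norm] with w hw hn
    rw [Real.norm_eq_abs, abs_of_nonneg (J0_nonneg _ _)]
    apply J0_le r1 T _ h1
    · rw [norm_pos_iff, sub_ne_zero]; exact hw.symm
    · calc ‖z - w‖ ≤ ‖z‖ + ‖w‖ := norm_sub_le _ _
        _ ≤ T := by rw [hn]; exact hz

theorem Jk_sig_integrable (r0 r1 : ℝ) (h0 : 0 < r0) (z : ℂ) :
    Integrable (fun w => Jk r0 r1 z w) sig := by
  apply Integrable.mono' (integrable_const ((nu r0 r1 (ind z)).toReal))
  · exact (jk_measurable r0 r1 h0 z).aestronglyMeasurable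
  · filter_upwards with w
    rw [Real.norm_eq_abs, abs_of_nonneg (Jk_nonneg _ _ _ _)]
    unfold Jk Measure.real
    exact ENNReal.toReal_mono (nu_ind_lt_top r0 r1 h0 z).ne (measure_mono Set.inter_subset_left)

/-- the part of small radii. -/
theorem small_part (r0 : ℝ) (z : ℂ) :
    ∫⁻ w, (∫⁻ r in Set.Ioc (0 : ℝ) r0, ENNReal.ofReal (A (‖z - w‖ / r) / r)) ∂sig ≤
      ENNReal.ofReal (2 * Real.pi * r0) := by
  rw [lintegral_lintegral_swap]
  · calc ∫⁻ r in Set.Ioc (0 : ℝ) r0, (∫⁻ w, ENNReal.ofReal (A (‖z - w‖ / r) / r) ∂sig)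
        ≤ ∫⁻ r in Set.Ioc (0 : ℝ) r0, ENNReal.ofReal (2 * Real.pi) := by
          apply lintegral_mono_ae
          filter_upwards [ae_restrict_mem (measurableSet_Ioc (a := (0 : ℝ)) (b := r0))] with r hr
          have hr0 : 0 < r := hr.1
          have hc : ∀ w : ℂ, ENNReal.ofReal (A (‖z - w‖ / r) / r) =
              ENNReal.ofReal ((r ^ 3)⁻¹) * (volume.restrict (ball z r)) (ball w r) := by
            intro w
            have h1 := vol_inter z w r hr0
            have h2 : A (‖z - w‖ / r) / r = (r ^ 3)⁻¹ * volume.real (ball z r ∩ ball w r) := by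
              rw [h1]; field_simp
            rw [h2, ENNReal.ofReal_mul (by positivity), Measure.restrict_apply measurableSet_ball,
              Set.inter_comm]
            unfold Measure.real
            rw [ENNReal.ofReal_toReal]
            exact ne_top_of_le_ne_top measure_ball_lt_top.ne
              (measure_mono (Set.inter_subset_left : ball w r ∩ ball z r ⊆ ball w r))
          simp only [hc]
          have hm : MeasurableSet {q : ℂ × ℂ | ‖q.1 - q.2‖ < r} := by
            apply IsOpen.measurableSet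
            apply isOpen_lt
            · fun_prop
            · fun_prop
          have hs1 : ∀ x : ℂ, (Prod.mk x ⁻¹' {q : ℂ × ℂ | ‖q.1 - q.2‖ < r}) = ball x r := by
            intro x; ext w
            simp only [Set.mem_preimage, Set.mem_ofPred_eq, mem_ball, dist_eq_norm]
            rw [norm_sub_rev]
          have hs2 : ∀ w : ℂ, ((fun x : ℂ => (x, w)) ⁻¹' {q : ℂ × ℂ | ‖q.1 - q.2‖ < r}) =
              ball w r := by
            intro w; ext x
            simp only [Set.mem_preimage, Set.mem_ofPred_eq, mem_ball, dist_eq_norm]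
          have e1 := Measure.prod_apply (μ := volume.restrict (ball z r)) (ν := sig) hm
          have e2 := Measure.prod_apply_symm (μ := volume.restrict (ball z r)) (ν := sig) hm
          simp only [hs1] at e1
          simp only [hs2] at e2
          have hmeas : Measurable (fun w => (volume.restrict (ball z r)) (ball w r)) := by
            have := measurable_measure_prodMk_right (μ := volume.restrict (ball z r)) hm
            simp only [hs2] at this
            exact this
          rw [lintegral_const_mul _ hmeas, ← e2, e1]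
          calc ENNReal.ofReal ((r ^ 3)⁻¹) * ∫⁻ x in ball z r, sig (ball x r)
              ≤ ENNReal.ofReal ((r ^ 3)⁻¹) * ∫⁻ x in ball z r, ENNReal.ofReal (2 * r) := by
                gcongr with x
                rw [← ofReal_sg (x, r)]
                exact ENNReal.ofReal_le_ofReal (sg_le (x, r) hr0)
            _ = ENNReal.ofReal (2 * Real.pi) := by
                rw [lintegral_const, Measure.restrict_apply MeasurableSet.univ, Set.univ_inter,
                  Complex.volume_ball]
                have : (NNReal.pi : ENNReal) = ENNReal.ofReal Real.pi := by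
                  rw [ENNReal.ofReal, ← NNReal.coe_real_pi, Real.toNNReal_coe]
                rw [this, ← ENNReal.ofReal_pow hr0.le, ← ENNReal.ofReal_mul (by positivity),
                  ← ENNReal.ofReal_mul (by positivity), ← ENNReal.ofReal_mul (by positivity)]
                congr 1
                field_simp
      _ = ENNReal.ofReal (2 * Real.pi * r0) := by
          rw [lintegral_const, Measure.restrict_apply MeasurableSet.univ, Set.univ_inter,
            Real.volume_Ioc, sub_zero, ← ENNReal.ofReal_mul (by positivity)]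
  · apply Measurable.aemeasurable
    apply Measurable.ennreal_ofReal
    apply Measurable.div
    · exact A_measurable.comp (by fun_prop)
    · fun_prop

theorem J3 (r0 r1 T : ℝ) (h0 : 0 < r0) (h01 : r0 < r1) (z : ℂ) (hz : ‖z‖ + 1 ≤ T) :
    -Real.pi * lp z + cst r1 T - 2 * Real.pi * T / r1 - 2 * Real.pi * r0 ≤
      ∫ p in ind z, sg p ∂(nu r0 r1) := by
  have h1 : 0 < r1 := lt_trans h0 h01
  rw [ind_sg r0 r1 h0 z]
  have hi0 := J0_sig_integrable r1 T h1 z hz
  have hik := Jk_sig_integrable r0 r1 h0 z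
  have hA : -Real.pi * lp z + (cst r1 T - 2 * Real.pi * T / r1) ≤ ∫ w, J0 r1 ‖z - w‖ ∂sig := by
    rw [← upper_integral]
    apply integral_mono_ae (upper_integrable _ z) hi0
    filter_upwards [sig_ne z, sig_norm] with w hw hn
    have hp : 0 < ‖z - w‖ := by rw [norm_pos_iff, sub_ne_zero]; exact hw.symm
    have hT : ‖z - w‖ ≤ T := by
      calc ‖z - w‖ ≤ ‖z‖ + ‖w‖ := norm_sub_le _ _
        _ ≤ T := by rw [hn]; exact hz
    have := le_J0 r1 T _ h1 hp hT
    linarith
  have hD : ∫ w, (J0 r1 ‖z - w‖ - Jk r0 r1 z w) ∂sig ≤ 2 * Real.pi * r0 := by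
    rw [integral_eq_lintegral_of_nonneg_ae]
    · apply ENNReal.toReal_le_of_le_ofReal (by positivity)
      refine le_trans ?_ (small_part r0 z)
      apply lintegral_mono_ae
      filter_upwards [sig_ne z] with w hw
      have hp : 0 < ‖z - w‖ := by rw [norm_pos_iff, sub_ne_zero]; exact hw.symm
      have hI := J0_integrable r1 ‖z - w‖ hp
      have hsplit : Set.Ioc (0 : ℝ) r1 = Set.Ioc 0 r0 ∪ Set.Ioc r0 r1 :=
        (Set.Ioc_union_Ioc_eq_Ioc h0.le h01.le).symm
      have e1 : J0 r1 ‖z - w‖ - Jk r0 r1 z w = ∫ r in Set.Ioc 0 r0, A (‖z - w‖ / r) / r := by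
        rw [Jk_eq r0 r1 h0 z w]
        unfold J0
        rw [hsplit] at hI ⊢
        rw [setIntegral_union (Set.Ioc_disjoint_Ioc_of_le le_rfl) measurableSet_Ioc
          (hI.mono_set Set.subset_union_left) (hI.mono_set Set.subset_union_right)]
        ring
      rw [e1, ofReal_integral_eq_lintegral_ofReal]
      · exact hI.mono_set (Set.Ioc_subset_Ioc_right h01.le)
      · filter_upwards [ae_restrict_mem (measurableSet_Ioc (a := (0 : ℝ)) (b := r0))] with r hr
        exact div_nonneg (A_nonneg _) hr.1.le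
    · filter_upwards [sig_ne z] with w hw
      have := Jk_le r0 r1 h0 z w hw.symm
      simpa using this
    · exact (hi0.sub hik).aestronglyMeasurable
  rw [integral_sub hi0 hik] at hD
  linarith

theorem sg_integrable (r0 r1 : ℝ) (h0 : 0 < r0) : Integrable sg (nu r0 r1) := by
  refine ⟨sg_measurable.aestronglyMeasurable, ?_⟩
  rw [hasFiniteIntegral_iff_ofReal (Filter.Eventually.of_forall fun p => sg_nonneg p), tonelli]
  calc ∫⁻ w, nu r0 r1 (ind w) ∂sig
      ≤ ∫⁻ w, volume (ball (0 : ℂ) r1) * m1 r0 r1 Set.univ ∂sig :=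
        lintegral_mono fun w => nu_ind_le r0 r1 w
    _ < ⊤ := by
        rw [lintegral_const]
        exact ENNReal.mul_lt_top (ENNReal.mul_lt_top measure_ball_lt_top (m1_univ_lt r0 r1 h0))
          (measure_lt_top _ _)

theorem sg_sq_integrable (r0 r1 : ℝ) (h0 : 0 < r0) :
    Integrable (fun p => sg p ^ 2) (nu r0 r1) := by
  apply Integrable.mono' (sg_integrable r0 r1 h0)
  · exact (sg_measurable.pow_const 2).aestronglyMeasurable
  · filter_upwards with p
    rw [Real.norm_eq_abs, abs_of_nonneg (sq_nonneg _)]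
    nlinarith [sg_nonneg p, sg_le_one p]

theorem J4 (r0 r1 T : ℝ) (h0 : 0 < r0) (h01 : r0 < r1) (hT : 2 ≤ T) :
    ∫ p, sg p ^ 2 ∂(nu r0 r1) ≤ cst r1 T := by
  have h1 : 0 < r1 := lt_trans h0 h01
  have hc := cst_nonneg r1 T (by linarith)
  rw [integral_eq_lintegral_of_nonneg_ae (Filter.Eventually.of_forall fun p => sq_nonneg _)
    (sg_measurable.pow_const 2).aestronglyMeasurable]
  apply ENNReal.toReal_le_of_le_ofReal hc
  have e1 : ∀ p, ENNReal.ofReal (sg p ^ 2) =
      ∫⁻ w, (ind w).indicator (fun p => ENNReal.ofReal (sg p)) p ∂sig := by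
    intro p
    have hi : ∀ w, (ind w).indicator (fun p => ENNReal.ofReal (sg p)) p =
        (ball p.1 p.2).indicator (fun _ => ENNReal.ofReal (sg p)) w := by
      intro w
      by_cases h : ‖p.1 - w‖ < p.2
      · rw [Set.indicator_of_mem (show p ∈ ind w from h), Set.indicator_of_mem]
        rw [mem_ball, dist_eq_norm, norm_sub_rev]; exact h
      · rw [Set.indicator_of_notMem (show p ∉ ind w from h), Set.indicator_of_notMem]
        rw [mem_ball, dist_eq_norm, norm_sub_rev]; exact h
    simp only [hi]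
    rw [lintegral_indicator measurableSet_ball, lintegral_const,
      Measure.restrict_apply MeasurableSet.univ, Set.univ_inter, ← ofReal_sg, pow_two,
      ENNReal.ofReal_mul (sg_nonneg p)]
  simp only [e1]
  rw [lintegral_lintegral_swap]
  · calc ∫⁻ w, ∫⁻ p, (ind w).indicator (fun p => ENNReal.ofReal (sg p)) p ∂(nu r0 r1) ∂sig
        ≤ ∫⁻ w, ENNReal.ofReal (cst r1 T) ∂sig := by
          apply lintegral_mono_ae
          filter_upwards [sig_norm] with z hz
          rw [lintegral_indicator (ind_measurable z)]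
          rw [← ofReal_integral_eq_lintegral_ofReal]
          · apply ENNReal.ofReal_le_ofReal
            rw [ind_sg r0 r1 h0 z]
            have hlp : lp z = 0 := by
              unfold lp
              rw [hz, Real.posLog_eq_zero_iff]
              simp
            have := upper_integral (cst r1 T) z
            rw [hlp, mul_zero, zero_add] at this
            rw [← this]
            apply integral_mono_ae (Jk_sig_integrable r0 r1 h0 z) (upper_integrable _ z)
            filter_upwards [sig_ne z, sig_norm] with w hw hn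
            have hp : 0 < ‖z - w‖ := by rw [norm_pos_iff, sub_ne_zero]; exact hw.symm
            have hT' : ‖z - w‖ ≤ T := by
              calc ‖z - w‖ ≤ ‖z‖ + ‖w‖ := norm_sub_le _ _
                _ ≤ T := by rw [hn, hz]; linarith
            exact (Jk_le r0 r1 h0 z w hw.symm).trans (J0_le r1 T _ h1 hp hT')
          · exact (sg_integrable r0 r1 h0).restrict
          · exact Filter.Eventually.of_forall fun p => sg_nonneg p
      _ = ENNReal.ofReal (cst r1 T) := by
          rw [lintegral_const, measure_univ, mul_one]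
  · apply Measurable.aemeasurable
    have hset : MeasurableSet {q : (ℂ × ℝ) × ℂ | ‖q.1.1 - q.2‖ < q.1.2} := inc_measurable
    have : (Function.uncurry fun (p : ℂ × ℝ) (w : ℂ) =>
        (ind w).indicator (fun p => ENNReal.ofReal (sg p)) p) =
        {q : (ℂ × ℝ) × ℂ | ‖q.1.1 - q.2‖ < q.1.2}.indicator
          (fun q => ENNReal.ofReal (sg q.1)) := by
      funext q
      obtain ⟨p, w⟩ := q
      by_cases h : ‖p.1 - w‖ < p.2
      · rw [Set.indicator_of_mem (show (p, w) ∈ {q : (ℂ × ℝ) × ℂ | ‖q.1.1 - q.2‖ < q.1.2} from h)]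
        simp only [Function.uncurry]
        rw [Set.indicator_of_mem (show p ∈ ind w from h)]
      · rw [Set.indicator_of_notMem
          (show (p, w) ∉ {q : (ℂ × ℝ) × ℂ | ‖q.1.1 - q.2‖ < q.1.2} from h)]
        simp only [Function.uncurry]
        rw [Set.indicator_of_notMem (show p ∉ ind w from h)]
    rw [this]
    exact ((sg_measurable.comp measurable_fst).ennreal_ofReal).indicator hset

end Pool.H22.Lh
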