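import Pool.Agent.H22.Lh.Mean

/-!
# Height of an algebraic integer
-/

namespace Pool.H22.Lh

open Polynomial MeasureTheory Metric NumberField

/-- For an algebraic integer the absolute logarithmic height is the mean of `log^+` over the
conjugates. -/
theorem height_eq (α : ℂ) (hα : IsIntegral ℤ α) : absLogHeight₁ α = meanC lp α := by
  have hQ : IsIntegral ℚ α := hα.tower_top
  have : FiniteDimensional ℚ (IntermediateField.adjoin ℚ {α}) :=
    IntermediateField.adjoin.finiteDimensional hQ
  have : NumberField (IntermediateField.adjoin ℚ {α}) := {}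
  set L := IntermediateField.adjoin ℚ {α} with hL
  set a : L := IntermediateField.AdjoinSimple.gen ℚ α with ha
  have haα : (a : ℂ) = α := IntermediateField.AdjoinSimple.coe_gen ℚ α
  have hai : IsIntegral ℤ a := by
    have h1 : IsIntegral ℤ (algebraMap L ℂ a) := by
      have : algebraMap L ℂ a = α := haα
      rw [this]; exact hα
    exact (isIntegral_algebraMap_iff (algebraMap L ℂ).injective).1 h1
  have h1 : absLogHeight₁ α = (Module.finrank ℚ L : ℝ)⁻¹ * Height.logHeight₁ a := by
    rw [absLogHeight₁, absMulHeight₁, dif_pos hQ]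
    rw [Real.log_rpow (by positivity)]
    rfl
  have hfin : ∀ v : FinitePlace L, v a ≤ 1 := by
    intro v
    obtain ⟨w, hw⟩ := (show ∃ w : 𝓞 L, algebraMap (𝓞 L) L w = a from
      (IsIntegralClosure.isIntegral_iff (R := ℤ) (A := 𝓞 L)).1 hai)
    rw [← hw]
    have := FinitePlace.norm_le_one L v.maximalIdeal w
    rwa [FinitePlace.norm_embedding_eq] at this
  have h2 : Height.logHeight₁ a = ∑ v : InfinitePlace L, v.mult * Real.posLog (v a) := by
    rw [NumberField.logHeight₁_eq]
    have : ∀ v : FinitePlace L, Real.posLog (v a) = 0 := by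
      intro v
      rw [Real.posLog_eq_zero_iff]
      rw [abs_of_nonneg (apply_nonneg v a)]
      exact hfin v
    simp [this]
  have h3 : ∑ v : InfinitePlace L, v.mult * Real.posLog (v a) = ∑ τ : L →+* ℂ, lp (τ a) := by
    classical
    rw [← Finset.sum_fiberwise Finset.univ InfinitePlace.mk (fun φ : L →+* ℂ => lp (φ a))]
    refine Finset.sum_congr rfl fun w _ => ?_
    have (φ) (hφ : φ ∈ (Finset.univ.filter (fun φ : L →+* ℂ => InfinitePlace.mk φ = w))) :
        lp (φ a) = Real.posLog (w a) := by
      rw [← (Finset.mem_filter.mp hφ).2, InfinitePlace.apply]; rfl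
    rw [Finset.sum_congr rfl this, Finset.sum_const, InfinitePlace.card_filter_mk_eq, nsmul_eq_mul]
  rw [h1, h2, h3, meanC_eq, haα]
  have : (Module.finrank ℚ L : ℝ) ≠ 0 := by
    exact_mod_cast (Module.finrank_pos (R := ℚ) (M := L)).ne'
  field_simp

end Pool.H22.Lh
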