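import Pool.Agent.H22.Lh.Ker

/-!
# [H22 LH JLOG] the ball energy kernel and the logarithm

`J0 r1 t = ∫_{(0,r1]} A(t/r) dr/r`, `cst r1 T = π log T + J0 r1 T`,
`m1 r0 r1 = dr/r^3` on `(r0,r1]`, `nu = dx × m1`, `Jk r0 r1 z w = nu {(x,r) : z, w ∈ B(x,r)}`.

* For `t > 0` the integrand of `J0 r1 t` vanishes for `r ≤ t/2` (`A_eq_zero`) and is at most `2π/t`,
  measurable (`A_measurable`); so it is integrable.
* `J0_le`, `le_J0`: substitution `r = r' t/T`:
  `J0 r1 t = ∫_{(0, r1 T/t]} A(T/r') dr'/r' = J0 r1 T + ∫_{(r1, r1 T/t]} A(T/r') dr'/r'`, and on the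
  last interval `π - 2πT/r' ≤ A(T/r') ≤ π`; `∫_{r1}^{r1 T/t} dr'/r' = log(T/t)` and
  `∫_{r1}^{r1T/t} 2πT dr'/r'^2 ≤ 2πT/r1`.
* `Jk_eq`: Fubini for the product measure (`Measure.prod_apply_symm` or `prod_apply` after swap):
  the section of `ind z ∩ ind w` at radius `r` is `ball z r ∩ ball w r`; `vol_inter`.
* `Jk_self`: `A 0 = π`, `∫_{r0}^{r1} π dr/r = π log(r1/r0)`.
-/

namespace Pool.H22.Lh

open Polynomial MeasureTheory Metric

theorem jl_meas (t : ℝ) : Measurable (fun r : ℝ => A (t / r) / r) :=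
  (A_measurable.comp (measurable_const.div measurable_id)).div measurable_id

theorem jl_bound (t r : ℝ) (ht : 0 < t) (hr : 0 < r) : ‖A (t / r) / r‖ ≤ 2 * Real.pi / t := by
  rw [Real.norm_of_nonneg (div_nonneg (A_nonneg _) hr.le)]
  rcases le_or_gt r (t / 2) with h | h
  · rw [A_eq_zero _ (by rw [le_div_iff₀ hr]; linarith), zero_div]
    positivity
  · rw [div_le_div_iff₀ hr ht]
    have h1 := A_le (t / r)
    have h2 := A_nonneg (t / r)
    have h3 := Real.pi_pos
    nlinarith [mul_le_mul_of_nonneg_right h1 ht.le]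

theorem J0_integrable (r1 t : ℝ) (ht : 0 < t) :
    IntegrableOn (fun r => A (t / r) / r) (Set.Ioc 0 r1) := by
  refine Measure.integrableOn_of_bounded (M := 2 * Real.pi / t) ?_ ?_ ?_
  · exact measure_Ioc_lt_top.ne
  · exact (jl_meas t).aestronglyMeasurable
  · refine (ae_restrict_iff' measurableSet_Ioc).2 (Filter.Eventually.of_forall ?_)
    intro r hr
    exact jl_bound t r ht hr.1

theorem J0_nonneg (r1 t : ℝ) : 0 ≤ J0 r1 t := by
  unfold J0
  exact setIntegral_nonneg measurableSet_Ioc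
    (fun r hr => div_nonneg (A_nonneg _) hr.1.le)

theorem J0_measurable (r1 : ℝ) : Measurable (J0 r1) := by
  have h : StronglyMeasurable (Function.uncurry (fun t r : ℝ => A (t / r) / r)) := by
    apply Measurable.stronglyMeasurable
    exact (A_measurable.comp (measurable_fst.div measurable_snd)).div measurable_snd
  exact (h.integral_prod_right (ν := volume.restrict (Set.Ioc 0 r1))).measurable

theorem J0_eq_interval (r1 t : ℝ) (h1 : 0 ≤ r1) : J0 r1 t = ∫ r in (0 : ℝ)..r1, A (t / r) / r := by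
  rw [intervalIntegral.integral_of_le h1]; rfl

theorem J0_scale (r1 T t : ℝ) (h1 : 0 < r1) (ht : 0 < t) (htT : t ≤ T) :
    J0 r1 t = J0 r1 T + ∫ r in r1..(T / t * r1), A (T / r) / r := by
  have hT : 0 < T := lt_of_lt_of_le ht htT
  have hc : 0 < T / t := by positivity
  have hc1 : 1 ≤ T / t := by rw [le_div_iff₀ ht]; linarith
  have h2 : r1 ≤ T / t * r1 := by nlinarith
  have h3 := intervalIntegral.mul_integral_comp_mul_left (a := 0) (b := r1)
    (f := fun r => A (T / r) / r) (T / t)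
  rw [mul_zero, ← intervalIntegral.integral_const_mul] at h3
  have h4 : ∀ r : ℝ, T / t * (A (T / (T / t * r)) / (T / t * r)) = A (t / r) / r := by
    intro r
    have e1 : T / (T / t * r) = t / r := by
      rcases eq_or_ne r 0 with rfl | hr
      · simp
      · field_simp
    rw [e1]
    rcases eq_or_ne r 0 with rfl | hr
    · simp
    · field_simp
  rw [intervalIntegral.integral_congr (g := fun r => A (t / r) / r) (fun r _ => h4 r)] at h3
  rw [J0_eq_interval r1 t h1.le, h3, J0_eq_interval r1 T h1.le]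
  rw [intervalIntegral.integral_add_adjacent_intervals]
  · rw [intervalIntegrable_iff_integrableOn_Ioc_of_le h1.le]
    exact J0_integrable r1 T hT
  · rw [intervalIntegrable_iff_integrableOn_Ioc_of_le h2]
    exact (J0_integrable (T / t * r1) T hT).mono_set (Set.Ioc_subset_Ioc_left h1.le)

theorem jl_ii (r1 T c : ℝ) (h1 : 0 < r1) (hT : 0 < T) (h2 : r1 ≤ c) :
    IntervalIntegrable (fun r => A (T / r) / r) volume r1 c := by
  rw [intervalIntegrable_iff_integrableOn_Ioc_of_le h2]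
  exact (J0_integrable c T hT).mono_set (Set.Ioc_subset_Ioc_left h1.le)

theorem jl_inv (r1 c : ℝ) (h1 : 0 < r1) (h2 : r1 ≤ c) :
    IntervalIntegrable (fun r : ℝ => r⁻¹) volume r1 c := by
  refine intervalIntegral.intervalIntegrable_inv (fun r hr => ?_) continuousOn_id
  rw [Set.uIcc_of_le h2] at hr
  exact (lt_of_lt_of_le h1 hr.1).ne'

theorem J0_le (r1 T t : ℝ) (h1 : 0 < r1) (ht : 0 < t) (htT : t ≤ T) :
    J0 r1 t ≤ -Real.pi * Real.log t + cst r1 T := by
  have hT : 0 < T := lt_of_lt_of_le ht htT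
  have hc : 0 < T / t := by positivity
  have hc1 : 1 ≤ T / t := by rw [le_div_iff₀ ht]; linarith
  have h2 : r1 ≤ T / t * r1 := by nlinarith
  rw [J0_scale r1 T t h1 ht htT]
  have h3 : ∫ r in r1..(T / t * r1), A (T / r) / r ≤ ∫ r in r1..(T / t * r1), Real.pi * r⁻¹ := by
    refine intervalIntegral.integral_mono_on h2 (jl_ii r1 T _ h1 hT h2)
      ((jl_inv r1 _ h1 h2).const_mul _) ?_
    intro r hr
    have hr0 : 0 < r := lt_of_lt_of_le h1 hr.1
    rw [← div_eq_mul_inv]
    exact div_le_div_of_nonneg_right (A_le _) hr0.le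
  rw [intervalIntegral.integral_const_mul, integral_inv_of_pos h1 (by positivity),
    mul_div_assoc, div_self h1.ne', mul_one, Real.log_div hT.ne' ht.ne'] at h3
  unfold cst
  linarith

theorem le_J0 (r1 T t : ℝ) (h1 : 0 < r1) (ht : 0 < t) (htT : t ≤ T) :
    -Real.pi * Real.log t + cst r1 T - 2 * Real.pi * T / r1 ≤ J0 r1 t := by
  have hT : 0 < T := lt_of_lt_of_le ht htT
  have hc : 0 < T / t := by positivity
  have hc1 : 1 ≤ T / t := by rw [le_div_iff₀ ht]; linarith
  have h2 : r1 ≤ T / t * r1 := by nlinarith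
  rw [J0_scale r1 T t h1 ht htT]
  have hd : ∀ r ∈ Set.uIcc r1 (T / t * r1), HasDerivAt (fun r : ℝ => Real.pi * Real.log r +
      2 * Real.pi * T * r⁻¹) (Real.pi * r⁻¹ + 2 * Real.pi * T * (-(r ^ 2)⁻¹)) r := by
    intro r hr
    rw [Set.uIcc_of_le h2] at hr
    have hr0 : 0 < r := lt_of_lt_of_le h1 hr.1
    exact ((Real.hasDerivAt_log hr0.ne').const_mul _).add ((hasDerivAt_inv hr0.ne').const_mul _)
  have hcont : IntervalIntegrable (fun r : ℝ => Real.pi * r⁻¹ + 2 * Real.pi * T * (-(r ^ 2)⁻¹))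
      volume r1 (T / t * r1) := by
    apply ContinuousOn.intervalIntegrable
    rw [Set.uIcc_of_le h2]
    have hne : ∀ r ∈ Set.Icc r1 (T / t * r1), r ≠ 0 := fun r hr => (lt_of_lt_of_le h1 hr.1).ne'
    refine ContinuousOn.add (continuousOn_const.mul (continuousOn_id.inv₀ hne))
      (continuousOn_const.mul ((continuousOn_id.pow 2).inv₀ (fun r hr => ?_)).neg)
    exact pow_ne_zero 2 (hne r hr)
  have h4 := intervalIntegral.integral_eq_sub_of_hasDerivAt hd hcont
  have h3 : ∫ r in r1..(T / t * r1), (Real.pi * r⁻¹ + 2 * Real.pi * T * (-(r ^ 2)⁻¹)) ≤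
      ∫ r in r1..(T / t * r1), A (T / r) / r := by
    refine intervalIntegral.integral_mono_on h2 hcont (jl_ii r1 T _ h1 hT h2) ?_
    intro r hr
    have hr0 : 0 < r := lt_of_lt_of_le h1 hr.1
    have h5 := le_A (T / r) (by positivity)
    have h6 : Real.pi * r⁻¹ + 2 * Real.pi * T * (-(r ^ 2)⁻¹) =
        (Real.pi - 2 * Real.pi * (T / r)) / r := by
      field_simp
      ring
    rw [h6]
    exact div_le_div_of_nonneg_right h5 hr0.le
  rw [h4] at h3
  have h7 : Real.log (T / t * r1) = Real.log T - Real.log t + Real.log r1 := by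
    rw [Real.log_mul hc.ne' h1.ne', Real.log_div hT.ne' ht.ne']
  rw [h7] at h3
  have h8 : 0 ≤ 2 * Real.pi * T * (T / t * r1)⁻¹ := by positivity
  have h9 : 2 * Real.pi * T * r1⁻¹ = 2 * Real.pi * T / r1 := by rw [div_eq_mul_inv]
  unfold cst
  linarith

theorem cst_nonneg (r1 T : ℝ) (hT : 1 ≤ T) : 0 ≤ cst r1 T := by
  unfold cst
  have := J0_nonneg r1 T
  have := Real.log_nonneg hT
  positivity

theorem m1_univ_lt (r0 r1 : ℝ) (h0 : 0 < r0) : m1 r0 r1 Set.univ < ⊤ := by
  unfold m1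
  rw [withDensity_apply _ MeasurableSet.univ, Measure.restrict_univ]
  calc ∫⁻ r in Set.Ioc r0 r1, ENNReal.ofReal ((r ^ 3)⁻¹)
      ≤ ∫⁻ r in Set.Ioc r0 r1, ENNReal.ofReal ((r0 ^ 3)⁻¹) := by
        refine setLIntegral_mono measurable_const (fun r hr => ?_)
        apply ENNReal.ofReal_le_ofReal
        apply inv_anti₀ (by positivity)
        exact pow_le_pow_left₀ h0.le hr.1.le 3
    _ < ⊤ := by
        rw [setLIntegral_const]
        exact ENNReal.mul_lt_top ENNReal.ofReal_lt_top measure_Ioc_lt_top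

theorem m1_sfinite (r0 r1 : ℝ) : SFinite (m1 r0 r1) := by
  unfold m1
  infer_instance

theorem ind_measurable (z : ℂ) : MeasurableSet (ind z) := by
  unfold ind
  exact measurableSet_lt (by fun_prop) measurable_snd

theorem Jk_eq (r0 r1 : ℝ) (h0 : 0 < r0) (z w : ℂ) :
    Jk r0 r1 z w = ∫ r in Set.Ioc r0 r1, A (‖z - w‖ / r) / r := by
  have := m1_sfinite r0 r1
  have hm : MeasurableSet (ind z ∩ ind w) := (ind_measurable z).inter (ind_measurable w)
  have hsec : ∀ r : ℝ, (fun x : ℂ => (x, r)) ⁻¹' (ind z ∩ ind w) = ball z r ∩ ball w r := by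
    intro r
    ext x
    simp [ind, mem_ball, dist_eq_norm]
  unfold Jk nu Measure.real
  rw [Measure.prod_apply_symm hm]
  simp only [hsec]
  have hmv : Measurable (fun r : ℝ => (volume : Measure ℂ) (ball z r ∩ ball w r)) := by
    have := measurable_measure_prodMk_right (μ := (volume : Measure ℂ)) hm
    simpa only [hsec] using this
  unfold m1
  rw [lintegral_withDensity_eq_lintegral_mul _ (by fun_prop) hmv]
  rw [integral_eq_lintegral_of_nonneg_ae]
  · congr 1
    refine setLIntegral_congr_fun measurableSet_Ioc (fun r hr => ?_)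
    have hr0 : 0 < r := lt_trans h0 hr.1
    have hfin : (volume : Measure ℂ) (ball z r ∩ ball w r) ≠ ⊤ :=
      ((measure_mono Set.inter_subset_left).trans_lt measure_ball_lt_top).ne
    simp only [Pi.mul_apply]
    rw [← ENNReal.ofReal_toReal hfin]
    change _ * ENNReal.ofReal (volume.real (ball z r ∩ ball w r)) = _
    rw [vol_inter z w r hr0, ← ENNReal.ofReal_mul (by positivity)]
    congr 1
    field_simp
  · refine (ae_restrict_iff' measurableSet_Ioc).2 (Filter.Eventually.of_forall ?_)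
    intro r hr
    exact div_nonneg (A_nonneg _) (lt_trans h0 hr.1).le
  · exact (jl_meas _).aestronglyMeasurable

theorem Jk_nonneg (r0 r1 : ℝ) (z w : ℂ) : 0 ≤ Jk r0 r1 z w := measureReal_nonneg

theorem Jk_le (r0 r1 : ℝ) (h0 : 0 < r0) (z w : ℂ) (hzw : z ≠ w) :
    Jk r0 r1 z w ≤ J0 r1 ‖z - w‖ := by
  rw [Jk_eq r0 r1 h0]
  unfold J0
  have ht : 0 < ‖z - w‖ := norm_pos_iff.2 (sub_ne_zero.2 hzw)
  refine setIntegral_mono_set (J0_integrable r1 _ ht) ?_ ?_
  · refine (ae_restrict_iff' measurableSet_Ioc).2 (Filter.Eventually.of_forall ?_)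
    intro r hr
    exact div_nonneg (A_nonneg _) hr.1.le
  · exact (Set.Ioc_subset_Ioc_left h0.le).eventuallyLE

theorem Jk_self (r0 r1 : ℝ) (h0 : 0 < r0) (h01 : r0 ≤ r1) (z : ℂ) :
    Jk r0 r1 z z = Real.pi * Real.log (r1 / r0) := by
  rw [Jk_eq r0 r1 h0, sub_self, norm_zero]
  simp only [div_eq_mul_inv, zero_mul, A_zero]
  rw [← intervalIntegral.integral_of_le h01, intervalIntegral.integral_const_mul,
    integral_inv_of_pos h0 (lt_of_lt_of_le h0 h01), div_eq_mul_inv]

end Pool.H22.Lh
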