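import Pool.Agent.H22.Lh.Defs

/-!
# [H22 LH KER] area of the intersection of two discs

`A s = vol (B(0,1) ∩ B(s,1))`.
* `A_le`: `volume (ball 0 1) = π` (`Complex.volume_ball`).
* `le_A`: for `s ≥ 1` the left side is at most `0 - ...`: `π - 2πs ≤ -π < 0`; for `s < 1`,
  `B(0, 1 - s) ⊆ B(0,1) ∩ B(s,1)` and `π (1-s)^2 ≥ π - 2πs`.
* `A_measurable`: measure of the sections of the open set `{(s,x) : ‖x‖ < 1 ∧ ‖x - s‖ < 1}`
  (`measurable_measure_prodMk_left`).
* `vol_inter`: translate by `z`, scale by `ρ`, rotate `(w - z)/ρ` to the positive real axis.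
-/

namespace Pool.H22.Lh

open Polynomial MeasureTheory Metric
open scoped Pointwise

theorem ker_vol_ball (a : ℂ) (r : ℝ) (hr : 0 ≤ r) :
    volume.real (ball a r) = r ^ 2 * Real.pi := by
  rw [Measure.real, Complex.volume_ball, ENNReal.toReal_mul, ENNReal.toReal_pow,
    ENNReal.toReal_ofReal hr]
  rfl

theorem ker_ne_top (a : ℂ) (r : ℝ) : volume (ball a r) ≠ ⊤ := measure_ball_lt_top.ne

theorem A_nonneg (s : ℝ) : 0 ≤ A s := measureReal_nonneg

theorem A_le (s : ℝ) : A s ≤ Real.pi := by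
  have h := ker_vol_ball 0 1 zero_le_one
  rw [one_pow, one_mul] at h
  rw [A, ← h]
  exact measureReal_mono Set.inter_subset_left (ker_ne_top _ _)

theorem le_A (s : ℝ) (hs : 0 ≤ s) : Real.pi - 2 * Real.pi * s ≤ A s := by
  have hpi := Real.pi_pos
  rcases le_or_gt 1 s with h | h
  · refine le_trans ?_ (A_nonneg s)
    nlinarith
  · have hsub : ball (0 : ℂ) (1 - s) ⊆ ball (0 : ℂ) 1 ∩ ball (s : ℂ) 1 := by
      intro x hx
      rw [mem_ball_zero_iff] at hx
      refine ⟨?_, ?_⟩
      · rw [mem_ball_zero_iff]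
        linarith
      · rw [mem_ball, dist_eq_norm]
        have h1 := norm_sub_le x (s : ℂ)
        rw [Complex.norm_real, Real.norm_of_nonneg hs] at h1
        linarith
    have h1 : volume.real (ball (0 : ℂ) (1 - s)) ≤ A s :=
      measureReal_mono hsub
        (ne_top_of_le_ne_top (ker_ne_top 0 1) (measure_mono Set.inter_subset_left))
    rw [ker_vol_ball 0 (1 - s) (by linarith)] at h1
    nlinarith [mul_nonneg hpi.le (sq_nonneg s)]

theorem A_eq_zero (s : ℝ) (hs : 2 ≤ s) : A s = 0 := by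
  have h : ball (0 : ℂ) 1 ∩ ball (s : ℂ) 1 = ∅ := by
    ext x
    simp only [Set.mem_inter_iff, Set.mem_empty_iff_false, iff_false, not_and]
    intro h1 h2
    rw [mem_ball_zero_iff] at h1
    rw [mem_ball, dist_eq_norm] at h2
    have h3 : ‖(s : ℂ)‖ ≤ ‖x‖ + ‖x - s‖ := by
      have := norm_sub_le x (x - s)
      rwa [sub_sub_cancel] at this
    rw [Complex.norm_real, Real.norm_of_nonneg (by linarith)] at h3
    linarith
  rw [A, h]
  simp

theorem A_zero : A 0 = Real.pi := by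
  rw [A, Complex.ofReal_zero, Set.inter_self, ker_vol_ball 0 1 zero_le_one, one_pow, one_mul]

theorem A_measurable : Measurable A := by
  have hS : IsOpen {p : ℝ × ℂ | ‖p.2‖ < 1 ∧ ‖p.2 - (p.1 : ℂ)‖ < 1} := by
    have h1 : IsOpen {p : ℝ × ℂ | ‖p.2‖ < 1} :=
      isOpen_lt (continuous_norm.comp continuous_snd) continuous_const
    have h2 : IsOpen {p : ℝ × ℂ | ‖p.2 - (p.1 : ℂ)‖ < 1} :=
      isOpen_lt (continuous_snd.sub (Complex.continuous_ofReal.comp continuous_fst)).norm
        continuous_const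
    exact h1.inter h2
  have h := measurable_measure_prodMk_left (ν := (volume : Measure ℂ)) hS.measurableSet
  have h2 := h.ennreal_toReal
  have h3 : A = fun x : ℝ => (volume (Prod.mk x ⁻¹' {p : ℝ × ℂ | ‖p.2‖ < 1 ∧
      ‖p.2 - (p.1 : ℂ)‖ < 1})).toReal := by
    funext s
    rw [A, Measure.real]
    congr 2
    ext x
    simp [dist_eq_norm]
  rw [h3]
  exact h2

theorem ker_rot (u : ℂ) : ∃ c : Circle, (c : ℂ) * ‖u‖ = u := by
  refine ⟨Circle.exp (Complex.arg u), ?_⟩
  rw [Circle.coe_exp, mul_comm]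
  exact Complex.norm_mul_exp_arg_mul_I u

theorem vol_inter (z w : ℂ) (r : ℝ) (hr : 0 < r) :
    volume.real (ball z r ∩ ball w r) = r ^ 2 * A (‖z - w‖ / r) := by
  obtain ⟨c, hc⟩ := ker_rot (w - z)
  set s : ℝ := ‖z - w‖ / r with hs
  have e1 : (rotation c) '' (ball (0 : ℂ) 1 ∩ ball (s : ℂ) 1) =
      ball (0 : ℂ) 1 ∩ ball ((c : ℂ) * s) 1 := by
    rw [Set.image_inter (rotation c).injective, LinearIsometryEquiv.image_ball,
      LinearIsometryEquiv.image_ball, map_zero, rotation_apply]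
  have e2 : r • (ball (0 : ℂ) 1 ∩ ball ((c : ℂ) * s) 1) = ball (0 : ℂ) r ∩ ball (w - z) r := by
    rw [Set.smul_set_inter₀ hr.ne', _root_.smul_ball hr.ne', _root_.smul_ball hr.ne', smul_zero, mul_one,
      Real.norm_of_nonneg hr.le]
    congr 2
    rw [Complex.real_smul, hs, Complex.ofReal_div, norm_sub_rev]
    have : (r : ℂ) ≠ 0 := by exact_mod_cast hr.ne'
    field_simp
    linear_combination hc
  have e3 : z +ᵥ (ball (0 : ℂ) r ∩ ball (w - z) r) = ball z r ∩ ball w r := by
    rw [Set.vadd_set_inter, vadd_ball, vadd_ball]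
    simp
  have m1 : volume ((rotation c) '' (ball (0 : ℂ) 1 ∩ ball (s : ℂ) 1)) =
      volume (ball (0 : ℂ) 1 ∩ ball (s : ℂ) 1) := by
    rw [LinearIsometryEquiv.image_eq_preimage_symm]
    exact (rotation c).symm.measurePreserving.measure_preimage
      (isOpen_ball.inter isOpen_ball).measurableSet.nullMeasurableSet
  have m2 : volume (ball z r ∩ ball w r) =
      ENNReal.ofReal (r ^ 2) * volume (ball (0 : ℂ) 1 ∩ ball (s : ℂ) 1) := by
    rw [← e3, measure_vadd, ← e2, Measure.addHaar_smul, ← e1, m1, Complex.finrank_real_complex,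
      abs_of_pos (by positivity)]
  rw [Measure.real, m2, ENNReal.toReal_mul, ENNReal.toReal_ofReal (by positivity)]
  rfl

end Pool.H22.Lh
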