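import Pool.Agent.H22.Lh.Fub

/-!
# [H22 LH WINW] the windows at the tips of the long spikes

`uu b = b/|b|`, `setW β` = pairs `(x,r)` with `|x - uu (β j)| ≤ δ`, `3δ ≤ r ≤ 4δ`, `δ = lp (β j) > 0`
for some `j`; `tW β = 12 r` on `setW β`.
* `tW_E`: if `‖z - ρ uu‖ ≤ δ/4`, `1 ≤ ρ ≤ ‖β j‖ = e^δ`, `0 < δ ≤ 1`, then for `(x,r)` in the `j`-th window
  `‖x - z‖ ≤ δ + (e^δ - 1) + δ/4 < 3δ ≤ r` (`e^δ - 1 ≤ 1.72 δ` on `[0,1]`: convexity of `exp`, or
  `Real.exp_bound`, `e < 2.7183`), so the whole window lies in `ind z`, and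
  `∫_{window} 12 r dnu = 12 π δ^2 ∫_{3δ}^{4δ} r dr/r^3 = 12 π δ^2 (1/(3δ) - 1/(4δ)) = π δ`
  (`closedBall` of radius `δ` has area `πδ²`; the window is a product set; all radii are in `(r0,r1]`).
* `tW_S`: `tW * sg ≤ 24 r^2` on `setW` (`sg_le`), `indicator setW ≤ ∑ j indicator window j`,
  `∫_{window j} r^2 dnu ≤ π δ^2 ∫_{3δ}^{4δ} dr/r = π δ^2 log(4/3)` and `log(4/3) ≤ 7/24`.
* `tW_Q`: the same with `144 r^2` and `144 * 7/24 = 42`.
-/

namespace Pool.H22.Lh

open Polynomial MeasureTheory Metric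

/-- unit vector in the direction of `b`. -/
noncomputable def uu (b : ℂ) : ℂ := b / (‖b‖ : ℂ)

/-- the union of the windows. -/
def setW {n : ℕ} (β : Fin n → ℂ) : Set (ℂ × ℝ) :=
  {p | ∃ j, 0 < lp (β j) ∧ ‖p.1 - uu (β j)‖ ≤ lp (β j) ∧ 3 * lp (β j) ≤ p.2 ∧
    p.2 ≤ 4 * lp (β j)}

/-- the test function of the windows. -/
noncomputable def tW {n : ℕ} (β : Fin n → ℂ) : ℂ × ℝ → ℝ :=
  (setW β).indicator (fun p => 12 * p.2)

/-- one window -/
private noncomputable def win (b : ℂ) : Set (ℂ × ℝ) :=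
  if 0 < lp b then closedBall (uu b) (lp b) ×ˢ Set.Icc (3 * lp b) (4 * lp b) else ∅

private theorem win_pos {b : ℂ} (hb : 0 < lp b) :
    win b = closedBall (uu b) (lp b) ×ˢ Set.Icc (3 * lp b) (4 * lp b) := if_pos hb

private theorem mem_win {b : ℂ} {p : ℂ × ℝ} :
    p ∈ win b ↔ 0 < lp b ∧ ‖p.1 - uu b‖ ≤ lp b ∧ 3 * lp b ≤ p.2 ∧ p.2 ≤ 4 * lp b := by
  unfold win
  split_ifs with h
  · rw [Set.mem_prod, mem_closedBall_iff_norm, Set.mem_Icc]
    tauto
  · simp [h]

private theorem win_meas (b : ℂ) : MeasurableSet (win b) := by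
  unfold win
  split_ifs
  · exact isClosed_closedBall.measurableSet.prod measurableSet_Icc
  · exact MeasurableSet.empty

private theorem setW_eq {n : ℕ} (β : Fin n → ℂ) : setW β = ⋃ j, win (β j) := by
  ext p
  rw [Set.mem_iUnion]
  unfold setW
  rw [Set.mem_setOf_eq]
  exact exists_congr fun j => mem_win.symm

private theorem setW_meas {n : ℕ} (β : Fin n → ℂ) : MeasurableSet (setW β) := by
  rw [setW_eq]
  exact MeasurableSet.iUnion fun j => win_meas _

private theorem tW_meas {n : ℕ} (β : Fin n → ℂ) : Measurable (tW β) :=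
  (measurable_snd.const_mul 12).indicator (setW_meas β)

private theorem tW_nonneg {n : ℕ} (β : Fin n → ℂ) (p : ℂ × ℝ) : 0 ≤ tW β p := by
  unfold tW
  refine Set.indicator_nonneg ?_ p
  rintro q ⟨j, h1, _, h3, _⟩
  have : 0 < q.2 := by linarith
  positivity

private theorem uu_norm_le (b : ℂ) : ‖uu b‖ ≤ 1 := by
  unfold uu
  rw [norm_div, Complex.norm_real, norm_norm]
  exact div_self_le_one _

theorem tW_test {n : ℕ} (β : Fin n → ℂ) : Test (tW β) := by
  have hsum : ∀ j, lp (β j) ≤ ∑ i, lp (β i) := fun j =>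
    Finset.single_le_sum (f := fun i => lp (β i)) (fun i _ => lp_nonneg _) (Finset.mem_univ j)
  refine ⟨tW_meas β, ⟨48 * ∑ i, lp (β i), fun p => ?_⟩, ⟨1 + ∑ i, lp (β i), fun p hp => ?_⟩⟩
  · rw [abs_of_nonneg (tW_nonneg β p)]
    unfold tW
    by_cases h : p ∈ setW β
    · rw [Set.indicator_of_mem h]
      obtain ⟨j, h1, _, _, h4⟩ := h
      have := hsum j
      show 12 * p.2 ≤ _
      linarith
    · rw [Set.indicator_of_notMem h]
      have : 0 ≤ ∑ i, lp (β i) := Finset.sum_nonneg fun i _ => lp_nonneg _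
      linarith
  · unfold tW
    refine Set.indicator_of_notMem ?_ _
    rintro ⟨j, h1, h2, _, _⟩
    have h3 := hsum j
    have h4 := uu_norm_le (β j)
    have h5 : ‖p.1‖ ≤ ‖p.1 - uu (β j)‖ + ‖uu (β j)‖ := by
      simpa using norm_add_le (p.1 - uu (β j)) (uu (β j))
    linarith

theorem tW_E_nonneg {n : ℕ} (β : Fin n → ℂ) (r0 r1 : ℝ) (h0 : 0 < r0) (z : ℂ) :
    0 ≤ E r0 r1 (tW β) z := by
  have := h0
  exact integral_nonneg (fun p => tW_nonneg β p)

/-- integrals over the radii -/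
private theorem m1_lint (r0 r1 a b : ℝ) (ha : 0 < a) (hab : a ≤ b) (g : ℝ → ℝ)
    (hg : Continuous g) (hg0 : ∀ r ∈ Set.Icc a b, 0 ≤ g r) :
    (∫⁻ r in Set.Icc a b, ENNReal.ofReal (g r) ∂(m1 r0 r1) ≤
      ENNReal.ofReal (∫ r in a..b, (r ^ 3)⁻¹ * g r)) ∧
    (Set.Icc a b ⊆ Set.Ioc r0 r1 →
      ∫⁻ r in Set.Icc a b, ENNReal.ofReal (g r) ∂(m1 r0 r1) =
        ENNReal.ofReal (∫ r in a..b, (r ^ 3)⁻¹ * g r)) := by
  have hmeas3 : Measurable (fun r : ℝ => ENNReal.ofReal ((r ^ 3)⁻¹)) :=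
    ENNReal.measurable_ofReal.comp ((measurable_id.pow_const 3).inv)
  have hmeasg : Measurable (fun r : ℝ => ENNReal.ofReal (g r)) :=
    ENNReal.measurable_ofReal.comp hg.measurable
  have e1 : ∫⁻ r in Set.Icc a b, ENNReal.ofReal (g r) ∂(m1 r0 r1) =
      ∫⁻ r in Set.Icc a b ∩ Set.Ioc r0 r1, ENNReal.ofReal ((r ^ 3)⁻¹) * ENNReal.ofReal (g r) := by
    unfold m1
    rw [setLIntegral_withDensity_eq_setLIntegral_mul _ hmeas3 hmeasg measurableSet_Icc,
      Measure.restrict_restrict measurableSet_Icc]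
    rfl
  have hcont : ContinuousOn (fun r : ℝ => (r ^ 3)⁻¹ * g r) (Set.Icc a b) := by
    refine ContinuousOn.mul ?_ hg.continuousOn
    refine ContinuousOn.inv₀ (by fun_prop) fun r hr => ?_
    have : 0 < r := lt_of_lt_of_le ha hr.1
    positivity
  have e2 : ∫⁻ r in Set.Icc a b, ENNReal.ofReal ((r ^ 3)⁻¹) * ENNReal.ofReal (g r) =
      ENNReal.ofReal (∫ r in a..b, (r ^ 3)⁻¹ * g r) := by
    rw [intervalIntegral.integral_of_le hab, ← integral_Icc_eq_integral_Ioc,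
      ofReal_integral_eq_lintegral_ofReal (hcont.integrableOn_compact isCompact_Icc)]
    · refine setLIntegral_congr_fun measurableSet_Icc fun r hr => ?_
      have : 0 < r := lt_of_lt_of_le ha hr.1
      exact (ENNReal.ofReal_mul (by positivity)).symm
    · refine (ae_restrict_iff' measurableSet_Icc).2 (Filter.Eventually.of_forall fun r hr => ?_)
      have : 0 < r := lt_of_lt_of_le ha hr.1
      exact mul_nonneg (by positivity) (hg0 r hr)
  constructor
  · rw [e1, ← e2]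
    exact lintegral_mono_set Set.inter_subset_left
  · intro hsub
    rw [e1, ← e2, Set.inter_eq_left.2 hsub]

/-- integrals over a window -/
private theorem win_lint (r0 r1 : ℝ) (b : ℂ) (hb : 0 < lp b) (g : ℝ → ℝ) (hg : Continuous g) :
    ∫⁻ p in win b, ENNReal.ofReal (g p.2) ∂(nu r0 r1) =
      ENNReal.ofReal (Real.pi * lp b ^ 2) *
        ∫⁻ r in Set.Icc (3 * lp b) (4 * lp b), ENNReal.ofReal (g r) ∂(m1 r0 r1) := by
  haveI := m1_sfinite r0 r1
  have hmeasg : Measurable (fun r : ℝ => ENNReal.ofReal (g r)) :=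
    ENNReal.measurable_ofReal.comp hg.measurable
  rw [win_pos hb]
  unfold nu
  rw [← Measure.prod_restrict]
  have e := lintegral_prod_mul (μ := (volume : Measure ℂ).restrict (closedBall (uu b) (lp b)))
    (ν := (m1 r0 r1).restrict (Set.Icc (3 * lp b) (4 * lp b))) (f := fun _ => 1)
    (g := fun r => ENNReal.ofReal (g r)) aemeasurable_const hmeasg.aemeasurable
  simp only [one_mul] at e
  rw [e, lintegral_const, one_mul, Measure.restrict_apply_univ, Complex.volume_closedBall]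
  congr 1
  rw [ENNReal.ofReal_mul Real.pi_pos.le, ENNReal.ofReal_pow hb.le, mul_comm]
  congr 1
  exact (ENNReal.ofReal_coe_nnreal (p := NNReal.pi)).symm

private theorem log_bound : Real.log (4 / 3) ≤ 7 / 24 := by
  rw [Real.log_le_iff_le_exp (by norm_num)]
  have := Real.quadratic_le_exp_of_nonneg (show (0 : ℝ) ≤ 7 / 24 by norm_num)
  linarith [show (4 : ℝ) / 3 ≤ 1 + 7 / 24 + (7 / 24) ^ 2 / 2 by norm_num]

private theorem int_sq (c δ : ℝ) (hδ : 0 < δ) :
    ∫ r in (3 * δ)..(4 * δ), (r ^ 3)⁻¹ * (c * r ^ 2) = c * Real.log (4 / 3) := by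
  have e : ∫ r in (3 * δ)..(4 * δ), (r ^ 3)⁻¹ * (c * r ^ 2) =
      ∫ r in (3 * δ)..(4 * δ), c * r⁻¹ := by
    refine intervalIntegral.integral_congr fun r hr => ?_
    rw [Set.uIcc_of_le (by linarith)] at hr
    have : 0 < r := by linarith [hr.1]
    show (r ^ 3)⁻¹ * (c * r ^ 2) = c * r⁻¹
    field_simp
  rw [e, intervalIntegral.integral_const_mul, integral_inv_of_pos (by positivity) (by positivity)]
  congr 2
  field_simp

private theorem int_lin (δ : ℝ) (hδ : 0 < δ) :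
    ∫ r in (3 * δ)..(4 * δ), (r ^ 3)⁻¹ * (12 * r) = 1 / δ := by
  have e : ∫ r in (3 * δ)..(4 * δ), (r ^ 3)⁻¹ * (12 * r) =
      ∫ r in (3 * δ)..(4 * δ), 12 * r ^ (-2 : ℤ) := by
    refine intervalIntegral.integral_congr fun r hr => ?_
    rw [Set.uIcc_of_le (by linarith)] at hr
    have : 0 < r := by linarith [hr.1]
    show (r ^ 3)⁻¹ * (12 * r) = 12 * r ^ (-2 : ℤ)
    rw [zpow_neg]
    norm_cast
    field_simp
  rw [e, intervalIntegral.integral_const_mul, integral_zpow]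
  · norm_num
    field_simp
    norm_num
  · right
    refine ⟨by norm_num, ?_⟩
    rw [Set.uIcc_of_le (by linarith)]
    intro h
    linarith [h.1]

/-- domination by the windows -/
private theorem lint_le {n : ℕ} (β : Fin n → ℂ) (r0 r1 : ℝ) (f : ℂ × ℝ → ℝ) (g : ℝ → ℝ)
    (hfg : ∀ p, p ∈ setW β → f p ≤ g p.2) (hf0 : ∀ p, p ∉ setW β → f p = 0) :
    ∫⁻ p, ENNReal.ofReal (f p) ∂(nu r0 r1) ≤
      ∑ j, ∫⁻ p in win (β j), ENNReal.ofReal (g p.2) ∂(nu r0 r1) := by
  have h1 : ∫⁻ p, ENNReal.ofReal (f p) ∂(nu r0 r1) ≤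
      ∫⁻ p in ⋃ j, win (β j), ENNReal.ofReal (g p.2) ∂(nu r0 r1) := by
    rw [← setW_eq, ← lintegral_indicator (setW_meas β)]
    refine lintegral_mono fun p => ?_
    by_cases h : p ∈ setW β
    · rw [Set.indicator_of_mem h]
      exact ENNReal.ofReal_le_ofReal (hfg p h)
    · rw [Set.indicator_of_notMem h, hf0 p h, ENNReal.ofReal_zero]
  refine h1.trans ((lintegral_iUnion_le _ _).trans (le_of_eq ?_))
  rw [tsum_fintype]

private theorem sum_bound {n : ℕ} (β : Fin n → ℂ) (r0 r1 c : ℝ) (hc : 0 ≤ c) :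
    ∑ j, ∫⁻ p in win (β j), ENNReal.ofReal (c * p.2 ^ 2) ∂(nu r0 r1) ≤
      ENNReal.ofReal (c * (7 / 24) * Real.pi * ∑ j, lp (β j) ^ 2) := by
  rw [Finset.mul_sum, ENNReal.ofReal_sum_of_nonneg (fun j _ => by positivity)]
  refine Finset.sum_le_sum fun j _ => ?_
  rcases (lp_nonneg (β j)).eq_or_lt with h | h
  · have : win (β j) = ∅ := if_neg (by rw [← h]; exact lt_irrefl _)
    rw [this]
    simp
  · rw [win_lint r0 r1 (β j) h (fun r => c * r ^ 2) (by fun_prop)]
    have h1 := (m1_lint r0 r1 (3 * lp (β j)) (4 * lp (β j)) (by positivity) (by linarith)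
      (fun r => c * r ^ 2) (by fun_prop) (fun r _ => by positivity)).1
    rw [int_sq c _ h] at h1
    calc _ ≤ ENNReal.ofReal (Real.pi * lp (β j) ^ 2) * ENNReal.ofReal (c * Real.log (4 / 3)) := by
          gcongr
      _ = ENNReal.ofReal (Real.pi * lp (β j) ^ 2 * (c * Real.log (4 / 3))) :=
          (ENNReal.ofReal_mul (by positivity)).symm
      _ ≤ _ := by
          refine ENNReal.ofReal_le_ofReal ?_
          have h2 := mul_le_mul_of_nonneg_left log_bound hc
          have h3 := mul_le_mul_of_nonneg_left h2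
            (show 0 ≤ Real.pi * lp (β j) ^ 2 by positivity)
          linarith

private theorem int_le {n : ℕ} (β : Fin n → ℂ) (r0 r1 c : ℝ) (hc : 0 ≤ c) (f : ℂ × ℝ → ℝ)
    (hf : Measurable f) (hf1 : ∀ p, 0 ≤ f p) (hfg : ∀ p, p ∈ setW β → f p ≤ c * p.2 ^ 2)
    (hf0 : ∀ p, p ∉ setW β → f p = 0) :
    ∫ p, f p ∂(nu r0 r1) ≤ c * (7 / 24) * Real.pi * ∑ j, lp (β j) ^ 2 := by
  rw [integral_eq_lintegral_of_nonneg_ae (Filter.Eventually.of_forall hf1)
    hf.aestronglyMeasurable]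
  have h := (lint_le β r0 r1 f (fun r => c * r ^ 2) hfg hf0).trans (sum_bound β r0 r1 c hc)
  have h2 := ENNReal.toReal_mono ENNReal.ofReal_ne_top h
  rwa [ENNReal.toReal_ofReal (by
    have : 0 ≤ ∑ j, lp (β j) ^ 2 := Finset.sum_nonneg fun j _ => sq_nonneg _
    positivity)] at h2

private theorem tW_integrable {n : ℕ} (β : Fin n → ℂ) (r0 r1 : ℝ) :
    Integrable (tW β) (nu r0 r1) := by
  refine ⟨(tW_meas β).aestronglyMeasurable, ?_⟩
  rw [hasFiniteIntegral_iff_ofReal (Filter.Eventually.of_forall (tW_nonneg β))]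
  refine lt_of_le_of_lt (lint_le β r0 r1 (tW β) (fun r => 12 * r) (fun p hp => ?_) (fun p hp => ?_)) ?_
  · unfold tW
    rw [Set.indicator_of_mem hp]
  · exact Set.indicator_of_notMem hp _
  · refine ENNReal.sum_lt_top.2 fun j _ => ?_
    rcases (lp_nonneg (β j)).eq_or_lt with h | h
    · have : win (β j) = ∅ := if_neg (by rw [← h]; exact lt_irrefl _)
      rw [this]
      simp
    · rw [win_lint r0 r1 (β j) h (fun r => 12 * r) (by fun_prop)]
      have h1 := (m1_lint r0 r1 (3 * lp (β j)) (4 * lp (β j)) (by positivity) (by linarith)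
        (fun r => 12 * r) (by fun_prop) (fun r hr => by
          have : 0 < r := lt_of_lt_of_le (by positivity) hr.1
          positivity)).1
      exact ENNReal.mul_lt_top ENNReal.ofReal_lt_top (lt_of_le_of_lt h1 ENNReal.ofReal_lt_top)

private theorem exp_bound {δ : ℝ} (h0 : 0 ≤ δ) (h1 : δ ≤ 1) : Real.exp δ ≤ 1 + 1.72 * δ := by
  have h := convexOn_exp.2 (Set.mem_univ (0 : ℝ)) (Set.mem_univ (1 : ℝ))
    (show (0 : ℝ) ≤ 1 - δ by linarith) h0 (by ring)
  simp only [smul_eq_mul, mul_zero, mul_one, zero_add, Real.exp_zero] at h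
  have h2 := Real.exp_one_lt_d9
  nlinarith

theorem tW_E {n : ℕ} (β : Fin n → ℂ) (r0 r1 : ℝ) (h0 : 0 < r0) (z : ℂ) (j : Fin n)
    (hr0 : r0 < 3 * lp (β j)) (hr1 : 4 * lp (β j) ≤ r1) (hj0 : 0 < lp (β j)) (hj1 : lp (β j) ≤ 1)
    (ρ : ℝ) (hρ : 1 ≤ ρ) (hρ' : ρ ≤ ‖β j‖) (hz : ‖z - ρ * uu (β j)‖ ≤ lp (β j) / 4) :
    Real.pi * lp (β j) ≤ E r0 r1 (tW β) z := by
  have _ := h0
  set δ := lp (β j) with hδ
  -- the norm
  have hb1 : 1 ≤ ‖β j‖ := hρ.trans hρ'
  have hlog : δ = Real.log ‖β j‖ := by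
    rw [hδ]
    unfold lp
    exact Real.posLog_eq_log (by rw [abs_norm]; exact hb1)
  have hexp : ‖β j‖ = Real.exp δ := by
    rw [hlog, Real.exp_log (by linarith)]
  have huu : ‖uu (β j)‖ = 1 := by
    unfold uu
    rw [norm_div, Complex.norm_real, norm_norm]
    exact div_self (by linarith)
  have hsub : win (β j) ⊆ ind z := by
    intro p hp
    obtain ⟨_, h2, h3, _⟩ := mem_win.1 hp
    show ‖p.1 - z‖ < p.2
    have h4 : ‖uu (β j) - ρ * uu (β j)‖ = ρ - 1 := by
      rw [show uu (β j) - ρ * uu (β j) = ((1 - ρ : ℝ) : ℂ) * uu (β j) by push_cast; ring,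
        norm_mul, huu, mul_one, Complex.norm_real, Real.norm_eq_abs, abs_sub_comm,
        abs_of_nonneg (by linarith)]
    have h5 : ‖p.1 - z‖ ≤ ‖p.1 - uu (β j)‖ + ‖uu (β j) - ρ * uu (β j)‖ + ‖z - ρ * uu (β j)‖ := by
      calc ‖p.1 - z‖ = ‖(p.1 - uu (β j)) + (uu (β j) - ρ * uu (β j)) - (z - ρ * uu (β j))‖ := by
            congr 1
            ring
        _ ≤ ‖(p.1 - uu (β j)) + (uu (β j) - ρ * uu (β j))‖ + ‖z - ρ * uu (β j)‖ := norm_sub_le _ _
        _ ≤ _ := by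
            gcongr
            exact norm_add_le _ _
    have h6 := exp_bound hj0.le hj1
    rw [h4] at h5
    rw [hexp] at hρ'
    linarith
  have hsub2 : win (β j) ⊆ setW β := by
    rw [setW_eq]
    exact Set.subset_iUnion (fun j => win (β j)) j
  have hint := tW_integrable β r0 r1
  have e1 : ∫ p in win (β j), tW β p ∂(nu r0 r1) = Real.pi * δ := by
    have e2 : ∫ p in win (β j), tW β p ∂(nu r0 r1) = ∫ p in win (β j), 12 * p.2 ∂(nu r0 r1) := by
      refine setIntegral_congr_fun (win_meas _) fun p hp => ?_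
      exact Set.indicator_of_mem (hsub2 hp) _
    rw [e2, integral_eq_lintegral_of_nonneg_ae]
    · rw [win_lint r0 r1 (β j) hj0 (fun r => 12 * r) (by fun_prop)]
      have h1 := (m1_lint r0 r1 (3 * lp (β j)) (4 * lp (β j)) (by positivity) (by linarith)
        (fun r => 12 * r) (by fun_prop) (fun r hr => by
          have : 0 < r := lt_of_lt_of_le (by positivity) hr.1
          positivity)).2 (fun r hr => ⟨lt_of_lt_of_le hr0 hr.1, hr.2.trans hr1⟩)
      rw [h1, int_lin _ hj0, ← ENNReal.ofReal_mul (by positivity),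
        ENNReal.toReal_ofReal (by positivity)]
      rw [← hδ]
      field_simp
    · refine (ae_restrict_iff' (win_meas _)).2 (Filter.Eventually.of_forall fun p hp => ?_)
      obtain ⟨h1, _, h3, _⟩ := mem_win.1 hp
      have : 0 < p.2 := by linarith
      show 0 ≤ 12 * p.2
      positivity
    · exact ((measurable_snd.const_mul 12).aestronglyMeasurable)
  rw [← e1]
  unfold E
  refine setIntegral_mono_set hint.integrableOn ?_ (Filter.Eventually.of_forall hsub)
  exact Filter.Eventually.of_forall fun p => tW_nonneg β p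

theorem tW_S {n : ℕ} (β : Fin n → ℂ) (r0 r1 : ℝ) (h0 : 0 < r0) :
    S r0 r1 (tW β) ≤ 7 * Real.pi * ∑ j, lp (β j) ^ 2 := by
  have _ := h0
  have h := int_le β r0 r1 24 (by norm_num) (fun p => tW β p * sg p)
    ((tW_meas β).mul sg_measurable) (fun p => mul_nonneg (tW_nonneg β p) (sg_nonneg p))
    (fun p hp => ?_) (fun p hp => ?_)
  · calc S r0 r1 (tW β) ≤ 24 * (7 / 24) * Real.pi * ∑ j, lp (β j) ^ 2 := h
      _ = _ := by ring
  · obtain ⟨j, h1, _, h3, _⟩ := id hp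
    have hp2 : 0 < p.2 := by linarith
    have h4 := sg_le p hp2
    have h5 : tW β p = 12 * p.2 := Set.indicator_of_mem hp _
    show tW β p * sg p ≤ 24 * p.2 ^ 2
    rw [h5]
    nlinarith
  · show tW β p * sg p = 0
    have h5 : tW β p = 0 := Set.indicator_of_notMem hp _
    rw [h5, zero_mul]

theorem tW_Q {n : ℕ} (β : Fin n → ℂ) (r0 r1 : ℝ) (h0 : 0 < r0) :
    Qd r0 r1 (tW β) ≤ 42 * Real.pi * ∑ j, lp (β j) ^ 2 := by
  have _ := h0
  have h := int_le β r0 r1 144 (by norm_num) (fun p => tW β p ^ 2)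
    ((tW_meas β).pow_const 2) (fun p => sq_nonneg _)
    (fun p hp => ?_) (fun p hp => ?_)
  · calc Qd r0 r1 (tW β) ≤ 144 * (7 / 24) * Real.pi * ∑ j, lp (β j) ^ 2 := h
      _ = _ := by ring
  · have h5 : tW β p = 12 * p.2 := Set.indicator_of_mem hp _
    show tW β p ^ 2 ≤ 144 * p.2 ^ 2
    rw [h5]
    nlinarith
  · show tW β p ^ 2 = 0
    have h5 : tW β p = 0 := Set.indicator_of_notMem hp _
    rw [h5]
    norm_num

end Pool.H22.Lh
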