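import Pool.Agent.H22.Lh.Fub
import Pool.Agent.H22.Lh.WinW

/-!
# [H22 LH WING] the gaps between the spikes

`h = hh n = 1/(40 n)`, `setG β` = pairs `(x,r)` with `| |x| - 1 | < h/2`, `dist(x, [0, β j]) > 2.5 h`
for all `j`, `h ≤ r ≤ 2h`; `tG β = -kap/n` on `setG β`, `kap = 1/(320π)`.
* `tG_E`: for `z` within `h/4` of a segment and `(x,r) ∈ setG`: `‖x - z‖ > 2.5h - h/4 > 2h ≥ r`, so
  `setG ∩ ind z = ∅` (`infDist_le_infDist_add_dist`).
* `tG_SQ`: with `I = nu(setG) = area(X) * ∫_h^{2h} dr/r^3 = area(X) * 3/(8h^2)`: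
  `S ≤ -(kap/n) (h/(4π)) I` (`le_sg`), `Qd = (kap/n)^2 I`, so
  `2S + 2Q ≤ (2 kap/n) (-h/(4π) + kap/n) I = -I/(51200 π² n²)`.
  `area(X) ≥ area(annulus) - n π (5.5h)² = 2πh - 30.25 π h/40 ≥ 1.24 π h`: the annulus
  `{ | |x| - 1 | < h/2 }` has area `π((1+h/2)² - (1-h/2)²) = 2πh` (at least: ball minus closed ball), and a
  point `x` of the annulus with `dist(x,[0,β j]) ≤ 2.5h` is in `closedBall (uu (β j)) (5.5 h)`: a point
  `y = s uu` of the segment (compact, so the distance is attained) with `‖x-y‖ ≤ 2.5h` has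
  `|s - 1| ≤ |s - ‖x‖| + h/2 ≤ 3h`, so `‖x - uu‖ ≤ 2.5h + 3h`. (If `β j = 0` the distance is
  `‖x‖ > 2.5h`, no such point.) Hence `I ≥ 1.24 π h * 3/(8h²) = 0.465 π * 40 n = 18.6 π n` and
  `I/(51200π²n²) ≥ 18.6/(51200 π n) ≥ π * (3/100000)/n` (as `π² < 9.87`, `18.6/51200 = 3.63e-4`,
  `9.87 * 3e-5 = 2.97e-4`).
-/

namespace Pool.H22.Lh

open Polynomial MeasureTheory Metric

/-- the width of the gaps. -/
noncomputable def hh (n : ℕ) : ℝ := 1 / (40 * n)

/-- small constant. -/
noncomputable def kap : ℝ := 1 / (320 * Real.pi)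

/-- the pairs in the gaps. -/
def setG {n : ℕ} (β : Fin n → ℂ) : Set (ℂ × ℝ) :=
  {p | |‖p.1‖ - 1| < hh n / 2 ∧ (∀ j, 5 / 2 * hh n < infDist p.1 (segment ℝ 0 (β j))) ∧
    hh n ≤ p.2 ∧ p.2 ≤ 2 * hh n}

/-- the test function of the gaps. -/
noncomputable def tG {n : ℕ} (β : Fin n → ℂ) : ℂ × ℝ → ℝ :=
  (setG β).indicator (fun _ => -kap / n)

theorem hh_nonneg (n : ℕ) : 0 ≤ hh n := by
  unfold hh
  positivity

theorem hh_pos {n : ℕ} (hn : 0 < n) : 0 < hh n := by
  unfold hh
  have : (0 : ℝ) < n := by exact_mod_cast hn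
  positivity

theorem hh_le {n : ℕ} (hn : 0 < n) : hh n ≤ 1 / 40 := by
  unfold hh
  have h1 : (1 : ℝ) ≤ n := by exact_mod_cast hn
  apply one_div_le_one_div_of_le (by norm_num)
  linarith

theorem kap_pos : 0 < kap := by
  unfold kap
  have := Real.pi_pos
  positivity

/-- the set of centres in the gaps. -/
def xG {n : ℕ} (β : Fin n → ℂ) : Set ℂ :=
  {x | |‖x‖ - 1| < hh n / 2 ∧ ∀ j, 5 / 2 * hh n < infDist x (segment ℝ 0 (β j))}

theorem setG_eq {n : ℕ} (β : Fin n → ℂ) :
    setG β = xG β ×ˢ Set.Icc (hh n) (2 * hh n) := by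
  ext p
  simp only [setG, xG, Set.mem_ofPred_eq, Set.mem_prod, Set.mem_Icc]
  tauto

theorem xG_measurable {n : ℕ} (β : Fin n → ℂ) : MeasurableSet (xG β) := by
  have h1 : xG β = {x | |‖x‖ - 1| < hh n / 2} ∩
      ⋂ j, {x | 5 / 2 * hh n < infDist x (segment ℝ 0 (β j))} := by
    ext x
    simp [xG]
  rw [h1]
  refine (measurableSet_lt (by fun_prop) measurable_const).inter
    (MeasurableSet.iInter fun j => measurableSet_lt measurable_const ?_)
  exact (continuous_infDist_pt _).measurable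

theorem setG_measurable {n : ℕ} (β : Fin n → ℂ) : MeasurableSet (setG β) := by
  rw [setG_eq]
  exact (xG_measurable β).prod measurableSet_Icc

theorem tG_test {n : ℕ} (β : Fin n → ℂ) : Test (tG β) := by
  refine ⟨measurable_const.indicator (setG_measurable β), ⟨kap / n, fun p => ?_⟩,
    ⟨1 + hh n / 2, fun p hp => ?_⟩⟩
  · unfold tG
    by_cases h : p ∈ setG β
    · rw [Set.indicator_of_mem h, neg_div, abs_neg, abs_of_nonneg]
      exact div_nonneg kap_pos.le (Nat.cast_nonneg _)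
    · rw [Set.indicator_of_notMem h, abs_zero]
      exact div_nonneg kap_pos.le (Nat.cast_nonneg _)
  · unfold tG
    refine Set.indicator_of_notMem (fun h => ?_) _
    have h1 := (abs_lt.mp h.1).2
    linarith

theorem tG_E {n : ℕ} (β : Fin n → ℂ) (r0 r1 : ℝ) (hn : 0 < n) (z : ℂ)
    (hz : ∃ j, infDist z (segment ℝ 0 (β j)) ≤ hh n / 4) :
    E r0 r1 (tG β) z = 0 := by
  obtain ⟨j, hj⟩ := hz
  unfold E
  refine setIntegral_eq_zero_of_forall_eq_zero fun p hp => ?_
  unfold tG
  refine Set.indicator_of_notMem (fun h => ?_) _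
  obtain ⟨-, h2, -, h4⟩ := h
  have h5 := h2 j
  have h6 : ‖p.1 - z‖ < p.2 := hp
  have h7 := infDist_le_infDist_add_dist (s := segment ℝ 0 (β j)) (x := p.1) (y := z)
  rw [dist_eq_norm] at h7
  have h8 := hh_pos hn
  linarith

theorem isCompact_segment_zero (b : ℂ) : IsCompact (segment ℝ 0 b) := by
  rw [segment_eq_image]
  refine isCompact_Icc.image ?_
  fun_prop

/-- a point of the annulus near a spike is near its unit vector. -/
theorem near_uu {n : ℕ} (hn : 0 < n) (b x : ℂ) (hx : |‖x‖ - 1| < hh n / 2)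
    (hd : infDist x (segment ℝ 0 b) ≤ 5 / 2 * hh n) :
    x ∈ closedBall (uu b) (11 / 2 * hh n) := by
  obtain ⟨y, hy, hxy⟩ := (isCompact_segment_zero b).exists_infDist_eq_dist
    ⟨0, left_mem_segment ℝ 0 b⟩ x
  rw [hxy, dist_eq_norm] at hd
  have hh1 := hh_pos hn
  have hh2 := hh_le hn
  obtain ⟨c, d, hc, hd0, hcd, hyy⟩ := hy
  rw [smul_zero, zero_add] at hyy
  have hx' := abs_lt.mp hx
  by_cases hb : b = 0
  · exfalso
    rw [hb, smul_zero] at hyy
    rw [← hyy, sub_zero] at hd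
    linarith [hx'.1]
  · have hbn : 0 < ‖b‖ := norm_pos_iff.mpr hb
    have hyn : ‖y‖ = d * ‖b‖ := by
      rw [← hyy, norm_smul, Real.norm_of_nonneg hd0]
    have hyu : y - uu b = ((‖y‖ - 1 : ℝ) : ℂ) * uu b := by
      have : y = ((‖y‖ : ℝ) : ℂ) * uu b := by
        unfold uu
        rw [hyn, ← hyy, Complex.real_smul]
        have : (‖b‖ : ℂ) ≠ 0 := by exact_mod_cast hbn.ne'
        push_cast
        field_simp
      push_cast
      rw [sub_mul, one_mul, ← this]
    have hun : ‖uu b‖ = 1 := by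
      unfold uu
      rw [norm_div, Complex.norm_real, norm_norm, div_self hbn.ne']
    have h1 : ‖y - uu b‖ = |‖y‖ - 1| := by
      rw [hyu, norm_mul, hun, mul_one, Complex.norm_real, Real.norm_eq_abs]
    have h2 : |‖y‖ - ‖x‖| ≤ 5 / 2 * hh n := by
      refine (abs_norm_sub_norm_le y x).trans ?_
      rw [norm_sub_rev]
      exact hd
    have h3 : ‖y - uu b‖ ≤ 3 * hh n := by
      rw [h1]
      have := abs_le.mp h2
      rw [abs_le]
      constructor <;> linarith
    rw [mem_closedBall, dist_eq_norm]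
    calc ‖x - uu b‖ = ‖(x - y) + (y - uu b)‖ := by ring_nf
      _ ≤ ‖x - y‖ + ‖y - uu b‖ := norm_add_le _ _
      _ ≤ 5 / 2 * hh n + 3 * hh n := add_le_add hd h3
      _ = 11 / 2 * hh n := by ring

theorem real_ball (a : ℂ) {r : ℝ} (hr : 0 ≤ r) : volume.real (ball a r) = Real.pi * r ^ 2 := by
  rw [Measure.real, Complex.volume_ball, ENNReal.toReal_mul, ENNReal.toReal_pow,
    ENNReal.toReal_ofReal hr]
  simp [mul_comm]

theorem real_closedBall (a : ℂ) {r : ℝ} (hr : 0 ≤ r) :
    volume.real (closedBall a r) = Real.pi * r ^ 2 := by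
  rw [Measure.real, Complex.volume_closedBall, ENNReal.toReal_mul, ENNReal.toReal_pow,
    ENNReal.toReal_ofReal hr]
  simp [mul_comm]

theorem xG_subset {n : ℕ} (β : Fin n → ℂ) : xG β ⊆ ball 0 (1 + hh n / 2) := by
  intro x hx
  rw [mem_ball_zero_iff]
  linarith [(abs_lt.mp hx.1).2]

theorem xG_lt_top {n : ℕ} (β : Fin n → ℂ) : volume (xG β) < ⊤ :=
  (measure_mono (xG_subset β)).trans_lt measure_ball_lt_top

theorem area_xG {n : ℕ} (β : Fin n → ℂ) (hn : 0 < n) :
    Real.pi * hh n * (2 - 30.25 / 40) ≤ volume.real (xG β) := by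
  have hh1 := hh_pos hn
  have hh2 := hh_le hn
  have hnh : (n : ℝ) * hh n = 1 / 40 := by
    unfold hh
    have : (0 : ℝ) < n := by exact_mod_cast hn
    field_simp
  have hsub : ball (0 : ℂ) (1 + hh n / 2) ⊆ closedBall 0 (1 - hh n / 2) ∪ (xG β ∪
      ⋃ j ∈ (Finset.univ : Finset (Fin n)), closedBall (uu (β j)) (11 / 2 * hh n)) := by
    intro x hx
    rw [mem_ball_zero_iff] at hx
    by_cases h1 : ‖x‖ ≤ 1 - hh n / 2
    · left
      rwa [mem_closedBall_zero_iff]
    · right
      rw [not_le] at h1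
      have hx2 : |‖x‖ - 1| < hh n / 2 := by
        rw [abs_lt]
        constructor <;> linarith
      by_cases h2 : ∀ j, 5 / 2 * hh n < infDist x (segment ℝ 0 (β j))
      · left
        exact ⟨hx2, h2⟩
      · right
        push Not at h2
        obtain ⟨j, hj⟩ := h2
        simp only [Set.mem_iUnion]
        exact ⟨j, Finset.mem_univ _, near_uu hn (β j) x hx2 hj⟩
  have hfin1 : volume (closedBall (0 : ℂ) (1 - hh n / 2)) ≠ ⊤ := measure_closedBall_lt_top.ne
  have hfin3 : volume (⋃ j ∈ (Finset.univ : Finset (Fin n)),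
      closedBall (uu (β j)) (11 / 2 * hh n)) ≠ ⊤ := by
    refine ((measure_biUnion_finset_le _ _).trans_lt ?_).ne
    exact ENNReal.sum_lt_top.mpr fun j _ => measure_closedBall_lt_top
  have hfin2 : volume (xG β ∪ ⋃ j ∈ (Finset.univ : Finset (Fin n)),
      closedBall (uu (β j)) (11 / 2 * hh n)) ≠ ⊤ :=
    (measure_union_lt_top (xG_lt_top β) hfin3.lt_top).ne
  have h1 : volume.real (ball (0 : ℂ) (1 + hh n / 2)) ≤
      volume.real (closedBall (0 : ℂ) (1 - hh n / 2)) + (volume.real (xG β) +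
        ∑ j : Fin n, volume.real (closedBall (uu (β j)) (11 / 2 * hh n))) := by
    refine (measureReal_mono hsub (measure_union_lt_top hfin1.lt_top hfin2.lt_top).ne).trans ?_
    refine (measureReal_union_le _ _).trans ?_
    refine add_le_add le_rfl ((measureReal_union_le _ _).trans ?_)
    refine add_le_add le_rfl ?_
    exact measureReal_biUnion_finset_le _ _
  have h2 : ∀ j : Fin n, volume.real (closedBall (uu (β j)) (11 / 2 * hh n)) =
      Real.pi * (11 / 2 * hh n) ^ 2 := fun j => real_closedBall _ (by positivity)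
  rw [real_ball _ (by positivity), real_closedBall _ (by linarith)] at h1
  simp_rw [h2] at h1
  rw [Finset.sum_const, Finset.card_univ, Fintype.card_fin, nsmul_eq_mul] at h1
  have h3 : (n : ℝ) * (Real.pi * (11 / 2 * hh n) ^ 2) = Real.pi * hh n * (30.25 / 40) := by
    calc (n : ℝ) * (Real.pi * (11 / 2 * hh n) ^ 2) =
        Real.pi * hh n * (30.25 * (n * hh n)) := by ring
      _ = Real.pi * hh n * (30.25 / 40) := by rw [hnh]; ring
  rw [h3] at h1
  have h4 : Real.pi * (1 + hh n / 2) ^ 2 - Real.pi * (1 - hh n / 2) ^ 2 =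
      Real.pi * hh n * 2 := by ring
  linarith

theorem m1_Icc (r0 r1 h : ℝ) (h0 : 0 < r0) (hr0 : r0 < h) (hr1 : 2 * h ≤ r1) :
    m1 r0 r1 (Set.Icc h (2 * h)) = ENNReal.ofReal (3 / (8 * h ^ 2)) := by
  have hh0 : 0 < h := h0.trans hr0
  unfold m1
  rw [withDensity_apply _ measurableSet_Icc, Measure.restrict_restrict measurableSet_Icc]
  have hinter : Set.Icc h (2 * h) ∩ Set.Ioc r0 r1 = Set.Icc h (2 * h) := by
    refine Set.inter_eq_left.mpr fun x hx => ⟨lt_of_lt_of_le hr0 hx.1, hx.2.trans hr1⟩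
  rw [hinter]
  have hcont : ContinuousOn (fun r : ℝ => (r ^ 3)⁻¹) (Set.Icc h (2 * h)) := by
    refine ContinuousOn.inv₀ (by fun_prop) fun x hx => ?_
    have : 0 < x := lt_of_lt_of_le hh0 hx.1
    positivity
  rw [← ofReal_integral_eq_lintegral_ofReal]
  · congr 1
    rw [integral_Icc_eq_integral_Ioc, ← intervalIntegral.integral_of_le (by linarith)]
    have hderiv : ∀ x ∈ Set.uIcc h (2 * h),
        HasDerivAt (fun r : ℝ => -(1 / 2) * (r ^ 2)⁻¹) ((x ^ 3)⁻¹) x := by
      intro x hx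
      rw [Set.uIcc_of_le (by linarith)] at hx
      have hx0 : 0 < x := lt_of_lt_of_le hh0 hx.1
      have h1 : HasDerivAt (fun r : ℝ => r ^ 2) (2 * x) x := by
        simpa using hasDerivAt_pow 2 x
      have h2 := (h1.inv (by positivity)).const_mul (-(1 / 2) : ℝ)
      convert! h2 using 1
      field_simp
    rw [intervalIntegral.integral_eq_sub_of_hasDerivAt hderiv]
    · field_simp
      ring
    · refine ContinuousOn.intervalIntegrable ?_
      rwa [Set.uIcc_of_le (by linarith)]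
  · exact hcont.integrableOn_compact isCompact_Icc
  · refine (ae_restrict_iff' measurableSet_Icc).mpr (Filter.Eventually.of_forall fun x hx => ?_)
    have : 0 < x := lt_of_lt_of_le hh0 hx.1
    simp only [Pi.zero_apply]
    positivity

theorem tG_SQ {n : ℕ} (β : Fin n → ℂ) (r0 r1 : ℝ) (hn : 0 < n) (h0 : 0 < r0)
    (hr0 : r0 < hh n) (hr1 : 2 * hh n ≤ r1) :
    2 * S r0 r1 (tG β) + 2 * Qd r0 r1 (tG β) ≤ -Real.pi * (3 / 100000) / n := by
  have := m1_sfinite r0 r1
  have hh1 := hh_pos hn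
  have hh2 := hh_le hn
  have hn0 : (0 : ℝ) < n := by exact_mod_cast hn
  have hpi := Real.pi_pos
  have hnh : (n : ℝ) * hh n = 1 / 40 := by
    unfold hh
    field_simp
  have hnu : nu r0 r1 (setG β) = volume (xG β) * ENNReal.ofReal (3 / (8 * hh n ^ 2)) := by
    unfold nu
    rw [setG_eq, Measure.prod_prod, m1_Icc r0 r1 (hh n) h0 hr0 hr1]
  have hfin : nu r0 r1 (setG β) < ⊤ := by
    rw [hnu]
    exact ENNReal.mul_lt_top (xG_lt_top β) ENNReal.ofReal_lt_top
  have hI : (nu r0 r1).real (setG β) = volume.real (xG β) * (3 / (8 * hh n ^ 2)) := by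
    rw [Measure.real, hnu, ENNReal.toReal_mul, ENNReal.toReal_ofReal (by positivity)]
    rfl
  set I := (nu r0 r1).real (setG β) with hIdef
  have hIlow : 18.6 * Real.pi * n ≤ I := by
    rw [hI]
    have h1 := area_xG β hn
    have h2 : (0 : ℝ) ≤ 3 / (8 * hh n ^ 2) := by positivity
    have h3 := mul_le_mul_of_nonneg_right h1 h2
    refine le_trans ?_ h3
    have h4 : Real.pi * hh n * (2 - 30.25 / 40) * (3 / (8 * hh n ^ 2)) =
        Real.pi * (2 - 30.25 / 40) * (3 / 8) * (1 / hh n) := by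
      field_simp
    rw [h4]
    have h5 : 1 / hh n = 40 * n := by
      unfold hh
      field_simp
    rw [h5]
    have h6 : (0 : ℝ) ≤ Real.pi * n := by positivity
    nlinarith
  have hSint : ∀ p ∈ setG β, hh n / (4 * Real.pi) ≤ sg p := by
    intro p hp
    obtain ⟨hp1, -, hp3, -⟩ := hp
    exact le_sg p.1 p.2 (hh n) hh1 (by linarith) hp3 hp1
  have hsgint : IntegrableOn sg (setG β) (nu r0 r1) := by
    refine Measure.integrableOn_of_bounded hfin.ne sg_measurable.aestronglyMeasurable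
      (M := 1) ?_
    refine Filter.Eventually.of_forall fun p => ?_
    rw [Real.norm_of_nonneg (sg_nonneg p)]
    exact sg_le_one p
  have hS1 : hh n / (4 * Real.pi) * I ≤ ∫ p in setG β, sg p ∂(nu r0 r1) := by
    have h1 : ∫ _p in setG β, hh n / (4 * Real.pi) ∂(nu r0 r1) =
        hh n / (4 * Real.pi) * I := by
      rw [setIntegral_const, smul_eq_mul, mul_comm]
    rw [← h1]
    refine setIntegral_mono_on ?_ hsgint (setG_measurable β) hSint
    exact integrableOn_const hfin.ne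
  have hS : S r0 r1 (tG β) = -kap / n * ∫ p in setG β, sg p ∂(nu r0 r1) := by
    unfold S
    rw [← integral_const_mul, ← integral_indicator (setG_measurable β)]
    refine integral_congr_ae (Filter.Eventually.of_forall fun p => ?_)
    unfold tG
    by_cases h : p ∈ setG β
    · simp only [Set.indicator_of_mem h]
    · simp only [Set.indicator_of_notMem h, zero_mul]
  have hQ : Qd r0 r1 (tG β) = (kap / n) ^ 2 * I := by
    unfold Qd
    have h1 : (fun p => tG β p ^ 2) = (setG β).indicator (fun _ => (kap / n) ^ 2) := by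
      ext p
      unfold tG
      by_cases h : p ∈ setG β
      · simp only [Set.indicator_of_mem h]
        ring
      · simp only [Set.indicator_of_notMem h]
        norm_num
    rw [h1, integral_indicator (setG_measurable β), setIntegral_const, smul_eq_mul, mul_comm]
  rw [hS, hQ]
  have hk := kap_pos
  have h1 : -kap / n * ∫ p in setG β, sg p ∂(nu r0 r1) ≤
      -kap / n * (hh n / (4 * Real.pi) * I) := by
    refine mul_le_mul_of_nonpos_left hS1 ?_
    rw [neg_div]
    have : 0 ≤ kap / n := by positivity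
    linarith
  have h2 : 2 * (-kap / n * (hh n / (4 * Real.pi) * I)) + 2 * ((kap / n) ^ 2 * I) =
      -(1 / (51200 * Real.pi ^ 2 * n ^ 2)) * I := by
    unfold kap hh
    field_simp
    ring
  have h3 : -(1 / (51200 * Real.pi ^ 2 * (n : ℝ) ^ 2)) * I ≤
      -(1 / (51200 * Real.pi ^ 2 * (n : ℝ) ^ 2)) * (18.6 * Real.pi * n) := by
    refine mul_le_mul_of_nonpos_left hIlow ?_
    have : (0 : ℝ) ≤ 1 / (51200 * Real.pi ^ 2 * (n : ℝ) ^ 2) := by positivity
    linarith
  have h4 : -(1 / (51200 * Real.pi ^ 2 * (n : ℝ) ^ 2)) * (18.6 * Real.pi * n) =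
      -(18.6 / (51200 * Real.pi)) / n := by
    field_simp
  have h5 : -(18.6 / (51200 * Real.pi)) / (n : ℝ) ≤ -Real.pi * (3 / 100000) / n := by
    refine div_le_div_of_nonneg_right ?_ hn0.le
    rw [neg_mul]
    refine neg_le_neg ?_
    rw [le_div_iff₀ (by positivity)]
    have h6 : Real.pi < 3.15 := Real.pi_lt_d2
    nlinarith
  linarith

end Pool.H22.Lh
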