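import Pool.Agent.H22.Lh.Energy
import Pool.Agent.H22.Lh.WinW
import Pool.Agent.H22.Lh.WinG

/-!
# [H22 LH VAND] Vandermonde products near a hedgehog

Given `e > 0` choose `ε`, `r0`, `r1`, `T` as follows. If `z` is not injective the product is `0`.
Otherwise apply `energy` and use
`∏_{i<j} ‖z i - z j‖² = exp (∑_i ∑_{j≠i} log ‖z i - z j‖)`.

Case 1: all `δ_j = lp (β j) ≤ 1`. `t = tW + tG` (sum of test functions); `E t = E tW + E tG`,
`S t = S tW + S tG`, `Qd t ≤ 2 Qd tW + 2 Qd tG`. `ε ≤ hh n/4`, `ε ≤ δ_j/4` for all `j` with `δ_j > 0`,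
`ε ≤ e/8`. For `z` with `infDist z (segment 0 (β j)) ≤ ε`: the distance is attained at `s uu (β j)`,
`0 ≤ s ≤ ‖β j‖`; if `δ_j > 0` and `s ≥ 1` then `E tW z ≥ π δ_j` (`tW_E`) and
`lp z ≤ δ_j + ε` (`‖z‖ ≤ e^{δ_j} + ε ≤ e^{δ_j}(1+ε)`); otherwise `‖z‖ ≤ 1 + ε`, `lp z ≤ ε`. So
`E t z - π lp z ≥ -π ε`. Then
`∑_{i≠j} log ≤ m² (2ε + (2S + Qd)/π + 4T/r1 + 4 r0) + m log(r1/r0)` and
`(2S + Qd)/π ≤ (14 + 84) ∑ δ_j² - (3/100000)/n ≤ C1 ∑ phi(δ_j) - c1/n`
(`phi δ = δ²` for `δ ≤ 1`).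

Case 2: some `δ_j > 1`: `t = 0`, `ε ≤ e/8`, `lp z ≤ max δ + ε`, so
`∑_{i≠j} log ≤ m² (2 max δ + 2ε + 4T/r1 + 4 r0) + m log(r1/r0)`, `max δ ≤ ∑ phi δ_j`
(`phi δ = δ` for `δ ≥ 1`) and `98 ∑ phi ≥ c1/n`.
-/

namespace Pool.H22.Lh

open Polynomial MeasureTheory Metric

theorem vand_integrable (r0 r1 : ℝ) (h0 : 0 < r0) (f : ℂ × ℝ → ℝ) (hm : Measurable f)
    (b : ℝ) (hb : ∀ p, |f p| ≤ b) (R : ℝ) (hR : ∀ p : ℂ × ℝ, R < ‖p.1‖ → f p = 0) :
    Integrable f (nu r0 r1) := by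
  have : IsFiniteMeasure (m1 r0 r1) := ⟨m1_univ_lt r0 r1 h0⟩
  have hK : MeasurableSet (closedBall (0 : ℂ) R ×ˢ (Set.univ : Set ℝ)) :=
    isClosed_closedBall.measurableSet.prod MeasurableSet.univ
  have hind : (closedBall (0 : ℂ) R ×ˢ (Set.univ : Set ℝ)).indicator f = f := by
    rw [Set.indicator_eq_self]
    intro p hp
    simp only [Set.mem_prod, mem_closedBall, dist_zero_right, Set.mem_univ, and_true]
    by_contra h
    exact hp (hR p (not_le.1 h))
  rw [← hind, integrable_indicator_iff hK]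
  apply Measure.integrableOn_of_bounded (M := b)
  · unfold nu
    rw [Measure.prod_prod]
    exact (ENNReal.mul_lt_top (measure_closedBall_lt_top) (measure_lt_top _ _)).ne
  · exact hm.aestronglyMeasurable
  · exact Filter.Eventually.of_forall (fun p => by rw [Real.norm_eq_abs]; exact hb p)

theorem vand_test_int (r0 r1 : ℝ) (h0 : 0 < r0) (t : ℂ × ℝ → ℝ) (ht : Test t) :
    Integrable t (nu r0 r1) := by
  obtain ⟨b, hb⟩ := ht.bdd
  obtain ⟨R, hR⟩ := ht.supp
  exact vand_integrable r0 r1 h0 t ht.meas b hb R hR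

theorem vand_test_sg (r0 r1 : ℝ) (h0 : 0 < r0) (t : ℂ × ℝ → ℝ) (ht : Test t) :
    Integrable (fun p => t p * sg p) (nu r0 r1) := by
  obtain ⟨b, hb⟩ := ht.bdd
  obtain ⟨R, hR⟩ := ht.supp
  refine vand_integrable r0 r1 h0 _ (ht.meas.mul sg_measurable) b (fun p => ?_) R
    (fun p hp => by rw [hR p hp, zero_mul])
  rw [abs_mul, abs_of_nonneg (sg_nonneg p)]
  have h1 := sg_le_one p
  have h2 := sg_nonneg p
  have h3 := abs_nonneg (t p)
  nlinarith [hb p]

theorem vand_test_sq (r0 r1 : ℝ) (h0 : 0 < r0) (t : ℂ × ℝ → ℝ) (ht : Test t) :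
    Integrable (fun p => t p ^ 2) (nu r0 r1) := by
  obtain ⟨b, hb⟩ := ht.bdd
  obtain ⟨R, hR⟩ := ht.supp
  refine vand_integrable r0 r1 h0 _ (ht.meas.pow_const 2) (b ^ 2) (fun p => ?_) R
    (fun p hp => by rw [hR p hp]; ring)
  rw [abs_pow]
  exact pow_le_pow_left₀ (abs_nonneg _) (hb p) 2

theorem vand_test_add (t1 t2 : ℂ × ℝ → ℝ) (h1 : Test t1) (h2 : Test t2) :
    Test (fun p => t1 p + t2 p) where
  meas := h1.meas.add h2.meas
  bdd := by
    obtain ⟨b1, hb1⟩ := h1.bdd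
    obtain ⟨b2, hb2⟩ := h2.bdd
    exact ⟨b1 + b2, fun p => (abs_add_le _ _).trans (add_le_add (hb1 p) (hb2 p))⟩
  supp := by
    obtain ⟨R1, hR1⟩ := h1.supp
    obtain ⟨R2, hR2⟩ := h2.supp
    refine ⟨max R1 R2, fun p hp => ?_⟩
    rw [hR1 p (lt_of_le_of_lt (le_max_left _ _) hp), hR2 p (lt_of_le_of_lt (le_max_right _ _) hp),
      add_zero]

theorem vand_E_add (r0 r1 : ℝ) (h0 : 0 < r0) (t1 t2 : ℂ × ℝ → ℝ) (h1 : Test t1) (h2 : Test t2)
    (z : ℂ) : E r0 r1 (fun p => t1 p + t2 p) z = E r0 r1 t1 z + E r0 r1 t2 z := by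
  unfold E
  exact integral_add (vand_test_int r0 r1 h0 t1 h1).integrableOn
    (vand_test_int r0 r1 h0 t2 h2).integrableOn

theorem vand_S_add (r0 r1 : ℝ) (h0 : 0 < r0) (t1 t2 : ℂ × ℝ → ℝ) (h1 : Test t1) (h2 : Test t2) :
    S r0 r1 (fun p => t1 p + t2 p) = S r0 r1 t1 + S r0 r1 t2 := by
  unfold S
  rw [← integral_add (vand_test_sg r0 r1 h0 t1 h1) (vand_test_sg r0 r1 h0 t2 h2)]
  congr 1
  funext p
  ring

theorem vand_Q_add (r0 r1 : ℝ) (h0 : 0 < r0) (t1 t2 : ℂ × ℝ → ℝ) (h1 : Test t1) (h2 : Test t2) :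
    Qd r0 r1 (fun p => t1 p + t2 p) ≤ 2 * Qd r0 r1 t1 + 2 * Qd r0 r1 t2 := by
  unfold Qd
  rw [← integral_const_mul, ← integral_const_mul, ← integral_add
    ((vand_test_sq r0 r1 h0 t1 h1).const_mul 2) ((vand_test_sq r0 r1 h0 t2 h2).const_mul 2)]
  refine integral_mono (vand_test_sq r0 r1 h0 _ (vand_test_add t1 t2 h1 h2))
    (((vand_test_sq r0 r1 h0 t1 h1).const_mul 2).add
      ((vand_test_sq r0 r1 h0 t2 h2).const_mul 2)) (fun p => ?_)
  change (t1 p + t2 p) ^ 2 ≤ 2 * t1 p ^ 2 + 2 * t2 p ^ 2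
  nlinarith [sq_nonneg (t1 p - t2 p)]

theorem vand_min {n : ℕ} (hn : 0 < n) (f : Fin n → ℝ) :
    ∃ η : ℝ, 0 < η ∧ ∀ j, 0 < f j → η ≤ f j := by
  have hne : (Finset.univ : Finset (Fin n)).Nonempty := ⟨⟨0, hn⟩, Finset.mem_univ _⟩
  refine ⟨Finset.univ.inf' hne (fun j => if 0 < f j then f j else 1), ?_, ?_⟩
  · rw [Finset.lt_inf'_iff]
    intro j _
    split_ifs with h
    · exact h
    · exact one_pos
  · intro j hj
    have h := Finset.inf'_le (fun j => if 0 < f j then f j else 1) (Finset.mem_univ j)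
    rwa [if_pos hj] at h

/-- `log^+ (a + ε) ≤ log^+ a + ε`. -/
theorem vand_lp {z : ℂ} {a ε : ℝ} (ha : 0 ≤ a) (hε : 0 ≤ ε) (hz : ‖z‖ ≤ a + ε) :
    lp z ≤ Real.posLog a + ε := by
  have h1 : Real.posLog ‖z‖ ≤ Real.posLog (a + ε) :=
    Real.posLog_le_posLog (norm_nonneg z) hz
  refine h1.trans ?_
  have h0 : Real.posLog (a + ε) = max 0 (Real.log (a + ε)) := rfl
  rw [h0]
  apply max_le
  · have := Real.posLog_nonneg (x := a)
    linarith
  · rcases le_or_gt (a + ε) 1 with h | h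
    · have h2 : Real.log (a + ε) ≤ 0 := Real.log_nonpos (by linarith) h
      have := Real.posLog_nonneg (x := a)
      linarith
    · have h3 : a + ε ≤ max 1 a * (1 + ε) := by
        have h4 : 1 ≤ max 1 a := le_max_left _ _
        have h5 : a ≤ max 1 a := le_max_right _ _
        nlinarith
      have h6 : Real.log (a + ε) ≤ Real.log (max 1 a * (1 + ε)) :=
        Real.log_le_log (by linarith) h3
      have h7 : Real.log (max 1 a * (1 + ε)) = Real.log (max 1 a) + Real.log (1 + ε) :=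
        Real.log_mul (by positivity) (by positivity)
      have h8 : Real.log (1 + ε) ≤ ε := by
        have := Real.log_le_sub_one_of_pos (show 0 < 1 + ε by linarith)
        linarith
      have h9 : Real.log (max 1 a) = Real.posLog a := by
        rw [Real.posLog_eq_log_max_one ha]
      linarith

theorem vand_near {z b : ℂ} {ε : ℝ} (hz : infDist z (segment ℝ 0 b) ≤ ε) :
    ∃ s : ℝ, 0 ≤ s ∧ s ≤ ‖b‖ ∧ ‖z - s * uu b‖ ≤ ε ∧ ‖z‖ ≤ s + ε := by
  have hc : IsCompact (segment ℝ (0 : ℂ) b) := by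
    rw [segment_eq_image]
    exact isCompact_Icc.image (by fun_prop)
  obtain ⟨y, hy, hyd⟩ := hc.exists_infDist_eq_dist ⟨0, left_mem_segment ℝ 0 b⟩ z
  rw [segment_eq_image] at hy
  obtain ⟨θ, ⟨hθ0, hθ1⟩, rfl⟩ := hy
  have hy2 : (1 - θ) • (0 : ℂ) + θ • b = ((θ * ‖b‖ : ℝ) : ℂ) * uu b := by
    rw [smul_zero, zero_add, Complex.real_smul, uu]
    by_cases hb : b = 0
    · simp [hb]
    · have : (‖b‖ : ℂ) ≠ 0 := by
        rw [Complex.ofReal_ne_zero, norm_ne_zero_iff]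
        exact hb
      push_cast
      field_simp
  refine ⟨θ * ‖b‖, mul_nonneg hθ0 (norm_nonneg b), ?_, ?_, ?_⟩
  · nlinarith [norm_nonneg b]
  · rw [← hy2, ← dist_eq_norm, ← hyd]
    exact hz
  · have h1 : ‖z‖ ≤ ‖z - (θ • b)‖ + ‖θ • b‖ := by
      have := norm_add_le (z - θ • b) (θ • b)
      rwa [sub_add_cancel] at this
    have h2 : ‖z - θ • b‖ ≤ ε := by
      have h4 : (fun θ : ℝ => (1 - θ) • (0 : ℂ) + θ • b) θ = θ • b := by
        simp
      rw [h4] at hyd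
      rw [← dist_eq_norm, ← hyd]
      exact hz
    have h3 : ‖θ • b‖ = θ * ‖b‖ := by
      rw [norm_smul, Real.norm_of_nonneg hθ0]
    linarith

theorem vand_prod (m : ℕ) (z : Fin m → ℂ) (hz : Function.Injective z) :
    ∏ i, ∏ j ∈ Finset.Ioi i, ‖z j - z i‖ ^ 2 =
      Real.exp (∑ i, ∑ j ∈ Finset.univ.erase i, Real.log ‖z i - z j‖) := by
  have h1 : ∏ i, ∏ j ∈ Finset.Ioi i, ‖z j - z i‖ ^ 2 =
      ∏ i, ∏ j ∈ Finset.Ioi i, ‖z j - z i‖ * ‖z i - z j‖ := by
    refine Finset.prod_congr rfl fun i _ => Finset.prod_congr rfl fun j _ => ?_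
    rw [norm_sub_rev (z i) (z j), pow_two]
  rw [h1, Finset.prod_prod_Ioi_mul_eq_prod_prod_off_diag (fun j i => ‖z j - z i‖),
    Real.exp_sum]
  refine Finset.prod_congr rfl fun i _ => ?_
  rw [Real.exp_sum]
  have h2 : (Finset.univ.erase i : Finset (Fin m)) = {i}ᶜ := by
    ext j
    simp
  rw [h2]
  refine Finset.prod_congr rfl fun j hj => ?_
  have hji : j ≠ i := by simpa using hj
  have hne : z i - z j ≠ 0 := sub_ne_zero.2 (fun h => hji (hz h).symm)
  rw [Real.exp_log (norm_pos_iff.2 hne), norm_sub_rev]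

theorem vand_prod_zero (m : ℕ) (z : Fin m → ℂ) (hz : ¬ Function.Injective z) :
    ∏ i, ∏ j ∈ Finset.Ioi i, ‖z j - z i‖ ^ 2 = 0 := by
  rw [Function.Injective] at hz
  push Not at hz
  obtain ⟨i, j, hij, hne⟩ := hz
  rcases lt_or_gt_of_ne hne with h | h
  · refine Finset.prod_eq_zero (Finset.mem_univ i) (Finset.prod_eq_zero (Finset.mem_Ioi.2 h) ?_)
    rw [hij, sub_self, norm_zero]
    ring
  · refine Finset.prod_eq_zero (Finset.mem_univ j) (Finset.prod_eq_zero (Finset.mem_Ioi.2 h) ?_)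
    rw [hij, sub_self, norm_zero]
    ring

/-- the final arithmetic: from the energy inequality to the bound of the sum of logarithms -/
theorem vand_fin (m : ℕ) (r0 r1 T e L B SQ X : ℝ) (he : 0 < e)
    (h4 : 4 * r0 ≤ e / 4) (hT : 4 * T / r1 ≤ e / 4)
    (hSQ : SQ ≤ Real.pi * B) (hX : -(Real.pi * (e / 8)) * m ≤ X)
    (hen : 2 * m * X - (m : ℝ) ^ 2 * SQ - (m : ℝ) ^ 2 * (4 * Real.pi * T / r1 + 4 * Real.pi * r0)
      - m * Real.pi * Real.log (r1 / r0) ≤ -Real.pi * L) :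
    L ≤ (B + e) * (m : ℝ) ^ 2 + Real.log (r1 / r0) * m := by
  have hpi := Real.pi_pos
  have hm : (0 : ℝ) ≤ m := Nat.cast_nonneg m
  have h1 : (m : ℝ) ^ 2 * SQ ≤ (m : ℝ) ^ 2 * (Real.pi * B) :=
    mul_le_mul_of_nonneg_left hSQ (sq_nonneg _)
  have h2 : 4 * Real.pi * T / r1 + 4 * Real.pi * r0 ≤ Real.pi * (e / 2) := by
    have h5 : 4 * Real.pi * T / r1 = Real.pi * (4 * T / r1) := by ring
    rw [h5]
    nlinarith
  have h3 : (m : ℝ) ^ 2 * (4 * Real.pi * T / r1 + 4 * Real.pi * r0) ≤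
      (m : ℝ) ^ 2 * (Real.pi * (e / 2)) := mul_le_mul_of_nonneg_left h2 (sq_nonneg _)
  have h6 : 2 * m * (-(Real.pi * (e / 8)) * m) ≤ 2 * m * X :=
    mul_le_mul_of_nonneg_left hX (by positivity)
  have h7 : Real.pi * L ≤ Real.pi * ((B + e) * (m : ℝ) ^ 2 + Real.log (r1 / r0) * m) := by
    have h8 : 0 ≤ Real.pi * e * (m : ℝ) ^ 2 := by positivity
    nlinarith
  exact le_of_mul_le_mul_left h7 hpi


theorem vand (n : ℕ) (hn : 0 < n) (β : Fin n → ℂ) (e : ℝ) (he : 0 < e) :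
    ∃ ε : ℝ, 0 < ε ∧ ∃ Cc : ℝ, ∀ (m : ℕ) (z : Fin m → ℂ),
      (∀ i, ∃ j, infDist (z i) (segment ℝ 0 (β j)) ≤ ε) →
      ∏ i, ∏ j ∈ Finset.Ioi i, ‖z j - z i‖ ^ 2 ≤
        Real.exp ((-c1 / n + C1 * ∑ j, phi (lp (β j)) + e) * (m : ℝ) ^ 2 + Cc * m) := by
  have hpi := Real.pi_pos
  have hn' : (0 : ℝ) < n := Nat.cast_pos.2 hn
  have hn1 : (1 : ℝ) ≤ n := by exact_mod_cast hn
  have hh0 : 0 < hh n := by unfold hh; positivity
  have hh1 : hh n ≤ 1 := by
    unfold hh
    rw [div_le_one (by positivity)]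
    linarith
  obtain ⟨η, hη, hηj⟩ := vand_min hn (fun j => lp (β j))
  set ε : ℝ := min (min (hh n / 4) (η / 4)) (min (e / 8) 1) with hε
  have hε0 : 0 < ε := by
    apply lt_min (lt_min _ _) (lt_min _ _) <;> first | positivity | exact one_pos
  have hεh : ε ≤ hh n / 4 := (min_le_left _ _).trans (min_le_left _ _)
  have hεη : ε ≤ η / 4 := (min_le_left _ _).trans (min_le_right _ _)
  have hεe : ε ≤ e / 8 := (min_le_right _ _).trans (min_le_left _ _)
  have hε1 : ε ≤ 1 := (min_le_right _ _).trans (min_le_right _ _)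
  set Bm : ℝ := ∑ j, ‖β j‖ with hBm
  have hBm0 : 0 ≤ Bm := Finset.sum_nonneg fun j _ => norm_nonneg _
  have hBmj : ∀ j, ‖β j‖ ≤ Bm := fun j =>
    Finset.single_le_sum (f := fun j => ‖β j‖) (fun j _ => norm_nonneg _) (Finset.mem_univ j)
  set T : ℝ := 2 * Bm + 4 with hT
  have hT2 : 2 ≤ T := by rw [hT]; linarith
  set r0 : ℝ := min (min (e / 16) (η / 2)) (hh n / 2) with hr0
  have hr00 : 0 < r0 := by
    apply lt_min (lt_min _ _) _ <;> positivity
  have hr0e : r0 ≤ e / 16 := (min_le_left _ _).trans (min_le_left _ _)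
  have hr0η : r0 ≤ η / 2 := (min_le_left _ _).trans (min_le_right _ _)
  have hr0h : r0 ≤ hh n / 2 := min_le_right _ _
  set r1 : ℝ := 16 * T / e + 4 with hr1
  have hr14 : 4 ≤ r1 := by
    rw [hr1]
    have : 0 ≤ 16 * T / e := by positivity
    linarith
  have hr10 : 0 < r1 := by linarith
  have h01 : r0 < r1 := by linarith
  have hTr : 4 * T / r1 ≤ e / 4 := by
    rw [div_le_iff₀ hr10, hr1]
    have : e / 4 * (16 * T / e + 4) = 4 * T + e := by
      field_simp
      ring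
    rw [this]
    linarith
  refine ⟨ε, hε0, Real.log (r1 / r0), ?_⟩
  intro m z hz
  by_cases hinj : Function.Injective z
  swap
  · rw [vand_prod_zero m z hinj]
    exact (Real.exp_pos _).le
  rw [vand_prod m z hinj]
  apply Real.exp_le_exp.2
  have hm : (0 : ℝ) ≤ m := Nat.cast_nonneg m
  have hzn : ∀ i, ‖z i‖ ≤ Bm + 1 := by
    intro i
    obtain ⟨j, hj⟩ := hz i
    obtain ⟨s, -, h2, -, h4⟩ := vand_near hj
    have := hBmj j
    linarith
  have hzT : ∀ i j, ‖z i - z j‖ ≤ T := by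
    intro i j
    have h1 := norm_sub_le (z i) (z j)
    have h2 := hzn i
    have h3 := hzn j
    rw [hT]
    linarith
  have hz1 : ∀ i, ‖z i‖ + 1 ≤ T := by
    intro i
    have h2 := hzn i
    rw [hT]
    linarith
  by_cases hbig : ∃ j, 1 < lp (β j)
  · -- some spike is long
    obtain ⟨j0, hj0⟩ := hbig
    have hphin : ∀ j, 0 ≤ phi (lp (β j)) := fun j => phi_nonneg (lp_nonneg _)
    have hlpj : ∀ j, lp (β j) ≤ ∑ j, phi (lp (β j)) := by
      intro j
      rcases le_or_gt 1 (lp (β j)) with h | h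
      · have h1 := Finset.single_le_sum (f := fun j => phi (lp (β j)))
          (fun j _ => hphin j) (Finset.mem_univ j)
        simp only [phi_eq_self h] at h1
        exact h1
      · have h1 := Finset.single_le_sum (f := fun j => phi (lp (β j)))
          (fun j _ => hphin j) (Finset.mem_univ j0)
        simp only [phi_eq_self hj0.le] at h1
        linarith
    have hsum1 : 1 ≤ ∑ j, phi (lp (β j)) := hj0.le.trans (hlpj j0)
    have hen := energy r0 r1 T hr00 h01 hT2 (fun _ => 0)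
      ⟨measurable_const, ⟨0, fun p => by simp⟩, ⟨0, fun p _ => rfl⟩⟩ m z hinj hzT hz1
    have hE0 : ∀ w, E r0 r1 (fun _ => 0) w = 0 := by intro w; simp [E]
    have hS0 : S r0 r1 (fun _ => 0) = 0 := by simp [S]
    have hQ0 : Qd r0 r1 (fun _ => 0) = 0 := by simp [Qd]
    rw [hS0, hQ0] at hen
    simp only [hE0] at hen
    have hc1n : c1 / n ≤ 1 := by
      rw [div_le_one hn']
      unfold c1
      linarith
    -- bound of the sum of `lp`
    have hX : -(Real.pi * (e / 8)) * m ≤ ∑ i, (0 - Real.pi * lp (z i)) +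
        m * (Real.pi * ∑ j, phi (lp (β j))) := by
      have h1 : ∀ i, -(Real.pi * (e / 8)) - Real.pi * ∑ j, phi (lp (β j)) ≤
          0 - Real.pi * lp (z i) := by
        intro i
        obtain ⟨j, hj⟩ := hz i
        obtain ⟨s, hs0, hs1, -, h4⟩ := vand_near hj
        have h5 : ‖z i‖ ≤ ‖β j‖ + ε := by linarith
        have h6 := vand_lp (norm_nonneg (β j)) hε0.le h5
        have h7 : Real.posLog ‖β j‖ ≤ ∑ j, phi (lp (β j)) := hlpj j
        have h8 : lp (z i) ≤ e / 8 + ∑ j, phi (lp (β j)) := by linarith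
        have h9 := mul_le_mul_of_nonneg_left h8 hpi.le
        linarith
      have h2 := Finset.sum_le_sum (fun i (_ : i ∈ Finset.univ) => h1 i)
      rw [Finset.sum_const, Finset.card_univ, Fintype.card_fin, nsmul_eq_mul] at h2
      linarith
    refine vand_fin m r0 r1 T e _ (-c1 / n + C1 * ∑ j, phi (lp (β j)))
      (2 * (Real.pi * ∑ j, phi (lp (β j)))) _ he (by linarith) hTr ?_ hX ?_
    · have h3 : 2 * ∑ j, phi (lp (β j)) ≤ -c1 / n + C1 * ∑ j, phi (lp (β j)) := by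
        unfold C1
        rw [neg_div]
        linarith
      have h4 := mul_le_mul_of_nonneg_left h3 hpi.le
      linarith
    · refine le_trans (le_of_eq ?_) hen
      ring
  · -- all spikes are short
    push Not at hbig
    have htW := tW_test β
    have htG := tG_test β
    have hen := energy r0 r1 T hr00 h01 hT2 (fun p => tW β p + tG β p)
      (vand_test_add _ _ htW htG) m z hinj hzT hz1
    have hr0hh : r0 < hh n := by linarith
    have hr1hh : 2 * hh n ≤ r1 := by linarith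
    have hSW := tW_S β r0 r1 hr00
    have hQW := tW_Q β r0 r1 hr00
    have hSG := tG_SQ β r0 r1 hn hr00 hr0hh hr1hh
    have hS := vand_S_add r0 r1 hr00 _ _ htW htG
    have hQ := vand_Q_add r0 r1 hr00 _ _ htW htG
    have hphi : ∑ j, phi (lp (β j)) = ∑ j, lp (β j) ^ 2 :=
      Finset.sum_congr rfl fun j _ => phi_eq_sq (lp_nonneg _) (hbig j)
    have hsq0 : 0 ≤ ∑ j, lp (β j) ^ 2 := Finset.sum_nonneg fun j _ => sq_nonneg _
    refine vand_fin m r0 r1 T e _ (-c1 / n + C1 * ∑ j, phi (lp (β j))) _ _ he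
      (by linarith) hTr ?_ ?_ hen
    · rw [hphi, hS]
      have h1 : Real.pi * (-c1 / n + C1 * ∑ j, lp (β j) ^ 2) =
          -(Real.pi * (c1 / n)) + 100 * (Real.pi * ∑ j, lp (β j) ^ 2) := by
        unfold C1
        ring
      rw [h1]
      have h2 : Real.pi * (c1 / n) ≤ Real.pi * ((3 / 100000) / n) := by
        apply mul_le_mul_of_nonneg_left _ hpi.le
        apply div_le_div_of_nonneg_right _ hn'.le
        unfold c1
        norm_num
      have h3 : -Real.pi * (3 / 100000) / n = -(Real.pi * ((3 / 100000) / n)) := by ring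
      rw [h3] at hSG
      have h4 : 0 ≤ Real.pi * ∑ j, lp (β j) ^ 2 := mul_nonneg hpi.le hsq0
      have h5 : 7 * Real.pi * ∑ j, lp (β j) ^ 2 = 7 * (Real.pi * ∑ j, lp (β j) ^ 2) := by ring
      have h6 : 42 * Real.pi * ∑ j, lp (β j) ^ 2 = 42 * (Real.pi * ∑ j, lp (β j) ^ 2) := by ring
      rw [h5] at hSW
      rw [h6] at hQW
      linarith
    · have h1 : ∀ i, -(Real.pi * (e / 8)) ≤
          E r0 r1 (fun p => tW β p + tG β p) (z i) - Real.pi * lp (z i) := by
        intro i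
        obtain ⟨j, hj⟩ := hz i
        rw [vand_E_add r0 r1 hr00 _ _ htW htG, tG_E β r0 r1 hn (z i) ⟨j, hj.trans hεh⟩, add_zero]
        obtain ⟨s, hs0, hs1, hs2, hs3⟩ := vand_near hj
        have hπε : Real.pi * ε ≤ Real.pi * (e / 8) := mul_le_mul_of_nonneg_left hεe hpi.le
        by_cases hout : 0 < lp (β j) ∧ 1 ≤ s
        · obtain ⟨hlp, hs⟩ := hout
          have hηl := hηj j hlp
          have hE := tW_E β r0 r1 hr00 (z i) j (by linarith) (by linarith [hbig j]) hlp (hbig j)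
            s hs hs1 (hs2.trans (by linarith))
          have h5 : ‖z i‖ ≤ ‖β j‖ + ε := by linarith
          have h6 : lp (z i) ≤ lp (β j) + ε := vand_lp (norm_nonneg (β j)) hε0.le h5
          have h7 := mul_le_mul_of_nonneg_left h6 hpi.le
          linarith
        · have hs1' : s ≤ 1 := by
            by_contra hs
            push Not at hs
            apply hout
            refine ⟨?_, hs.le⟩
            have h8 : 1 < ‖β j‖ := lt_of_lt_of_le hs hs1
            exact lt_of_lt_of_le (Real.log_pos h8) (le_max_right _ _)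
          have hEn := tW_E_nonneg β r0 r1 hr00 (z i)
          have h5 : ‖z i‖ ≤ 1 + ε := by linarith
          have h6 := vand_lp zero_le_one hε0.le h5
          have h7 : Real.posLog (1 : ℝ) = 0 := by simp [Real.posLog]
          rw [h7, zero_add] at h6
          have h8 := mul_le_mul_of_nonneg_left h6 hpi.le
          linarith
      have h2 := Finset.sum_le_sum (fun i (_ : i ∈ Finset.univ) => h1 i)
      rw [Finset.sum_const, Finset.card_univ, Fintype.card_fin, nsmul_eq_mul] at h2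
      linarith

end Pool.H22.Lh
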