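import Pool.Agent.H22.Lh.RepC
import Pool.Agent.H22.Lh.DetInt
import Pool.Agent.H22.Lh.Vand

/-!
# [H22 LH PE] the estimate for one embedding

`vand` with `e/2` gives `ε`, `Cc`; `rep` with this `ε` gives `w`; `det_int` with
`V = exp((B + e/2) m² + Cc m)`. Then `(∫‖w‖)^m exp(Cc m) ≤ C exp((e/2) m²)` with
`C = exp(a²/(2e))`, `a = |Cc| + log(1 + ∫‖w‖)` (`a m ≤ a²/(2e) + (e/2) m²`).
-/

namespace Pool.H22.Lh

open Polynomial MeasureTheory Metric

theorem pe {n : ℕ} (hn : 0 < n) (β : Fin n → ℂ) (g : PowerSeries ℂ)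
    (hg : g * g = ∏ j, (1 - PowerSeries.C (β j) * PowerSeries.X))
    (hg0 : PowerSeries.coeff 0 g = 1) (e : ℝ) (he : 0 < e) :
    ∃ Cc : ℝ, 0 < Cc ∧ ∀ m : ℕ,
      ‖(Matrix.of fun i j : Fin m => PowerSeries.coeff ((i : ℕ) + (j : ℕ) + 1) g).det‖ ≤
        Cc * Real.exp ((-c1 / n + C1 * ∑ j, phi (lp (β j)) + e) * (m : ℝ) ^ 2) := by
  obtain ⟨ε, hε, Cv, hv⟩ := vand n hn β (e / 2) (by positivity)
  obtain ⟨w, hw, hws, hwn, hwc⟩ := rep hn β g hg hg0 ε hε
  set B : ℝ := -c1 / n + C1 * ∑ j, phi (lp (β j)) with hB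
  set W : ℝ := ∫ z, ‖w z‖ with hW
  have hW0 : 0 ≤ W := integral_nonneg fun z => norm_nonneg _
  set a : ℝ := |Cv| + Real.log (1 + W) with ha
  refine ⟨Real.exp (a ^ 2 / (2 * e)), Real.exp_pos _, fun m => ?_⟩
  have h1 := det_int w hw hws m (Real.exp ((B + e / 2) * (m : ℝ) ^ 2 + Cv * m))
    (Real.exp_pos _).le (fun z hz => hv m z fun i => hwn (z i) (hz i))
  have h2 : (Matrix.of fun i j : Fin m => PowerSeries.coeff ((i : ℕ) + (j : ℕ) + 1) g) =
      (Matrix.of fun i j : Fin m => ∫ z, z ^ ((i : ℕ) + (j : ℕ)) * w z) := by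
    ext i j
    simp only [Matrix.of_apply]
    rw [hwc]
  rw [h2]
  refine h1.trans ?_
  have hm0 : (0 : ℝ) ≤ m := Nat.cast_nonneg m
  have h3 : W ^ m ≤ Real.exp (Real.log (1 + W) * m) := by
    rw [mul_comm, Real.exp_nat_mul, Real.exp_log (by linarith)]
    exact pow_le_pow_left₀ hW0 (by linarith) m
  calc W ^ m * Real.exp ((B + e / 2) * (m : ℝ) ^ 2 + Cv * m)
      ≤ Real.exp (Real.log (1 + W) * m) * Real.exp ((B + e / 2) * (m : ℝ) ^ 2 + Cv * m) :=
        mul_le_mul_of_nonneg_right h3 (Real.exp_pos _).le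
    _ = Real.exp (Real.log (1 + W) * m + ((B + e / 2) * (m : ℝ) ^ 2 + Cv * m)) :=
        (Real.exp_add _ _).symm
    _ ≤ Real.exp (a ^ 2 / (2 * e) + (B + e) * (m : ℝ) ^ 2) := by
        refine Real.exp_le_exp.2 ?_
        have h4 : Cv * m ≤ |Cv| * m := mul_le_mul_of_nonneg_right (le_abs_self Cv) hm0
        have h5 : a * m ≤ a ^ 2 / (2 * e) + e / 2 * (m : ℝ) ^ 2 := by
          have h6 : a ^ 2 / (2 * e) + e / 2 * (m : ℝ) ^ 2 - a * m =
              (a - e * m) ^ 2 / (2 * e) := by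
            field_simp
            ring
          have h7 : 0 ≤ (a - e * m) ^ 2 / (2 * e) := by positivity
          linarith
        have h8 : a * m = |Cv| * m + Real.log (1 + W) * m := by rw [ha]; ring
        linarith
    _ = Real.exp (a ^ 2 / (2 * e)) * Real.exp ((B + e) * (m : ℝ) ^ 2) :=
        Real.exp_add _ _

end Pool.H22.Lh
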