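import Pool.Agent.H22.Lh.Defs

/-!
# [H22 LH REPA] the square root of a polynomial near infinity

`F z = FF β z = ∏ (1 - β_j/z)^(1/2)` (principal branch `cpow`), `KK β = ⋃ [0, β_j]`.
* `FF_diff`: `z ∉ KK β`, so `z ≠ 0` (`n > 0`), and `1 - β_j/z` is in `Complex.slitPlane`: otherwise
  `β_j/z = t` real, `t ≥ 1`, `z = β_j/t ∈ [0, β_j]`.
* `series`: for `|z| > |β_j|` for all `j`: with `x = z⁻¹`, `(1 - β_j x)^(1/2) = ∑ Ring.choose (1/2) k (-β_j x)^k`
  (`Complex.one_add_cpow_hasFPowerSeriesOnBall_zero`), absolutely convergent as `|β_j x| < 1`. The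
  formal series `b_j = ∑ Ring.choose (1/2) k (-β_j)^k X^k` satisfies `b_j² = 1 - β_j X` (e.g. from the analytic
  identity for `j` fixed, or the Vandermonde identity `Ring.add_choose_eq`), constant term 1.
  `∏ b_j` and `g` have the same square and constant term 1, so they agree (`ℂ[[X]]` is a domain).
  Products of absolutely summable series: `tsum_mul_tsum_eq_tsum_sum_antidiagonal_of_summable_norm`,
  `summable_norm_sum_mul_antidiagonal_of_summable_norm`; induction over a `Finset` of indices.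
-/

namespace Pool.H22.Lh

open Polynomial MeasureTheory Metric

/-- the branch of the square root off the hedgehog. -/
noncomputable def FF {n : ℕ} (β : Fin n → ℂ) (z : ℂ) : ℂ :=
  ∏ j, (1 - β j / z) ^ (1 / 2 : ℂ)

/-- the hedgehog. -/
def KK {n : ℕ} (β : Fin n → ℂ) : Set ℂ := ⋃ j, segment ℝ 0 (β j)

theorem KK_compact {n : ℕ} (β : Fin n → ℂ) : IsCompact (KK β) := by
  unfold KK
  refine isCompact_iUnion fun j => ?_
  rw [segment_eq_image]
  refine isCompact_Icc.image ?_
  fun_prop

theorem repA_slit {β z : ℂ} (hz : z ∉ segment ℝ 0 β) (hz0 : z ≠ 0) :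
    1 - β / z ∈ Complex.slitPlane := by
  rw [Complex.mem_slitPlane_iff]
  by_contra hcon
  push Not at hcon
  obtain ⟨h1, h2⟩ := hcon
  -- β / z = t, real, t ≥ 1
  set t : ℝ := (β / z).re with ht
  have him : (β / z).im = 0 := by
    have : (1 - β / z).im = -(β / z).im := by simp
    rw [this] at h2
    linarith
  have ht1 : 1 ≤ t := by
    have : (1 - β / z).re = 1 - t := by simp [ht]
    rw [this] at h1
    linarith
  have hbt : β / z = (t : ℂ) := Complex.ext (by simp [ht]) (by simp [him])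
  have hβ : β = t * z := by
    rw [← hbt]
    field_simp
  apply hz
  rw [segment_eq_image]
  refine ⟨t⁻¹, ⟨by positivity, inv_le_one_of_one_le₀ ht1⟩, ?_⟩
  have ht0 : (t : ℂ) ≠ 0 := by
    have : t ≠ 0 := by linarith
    exact_mod_cast this
  simp only [smul_zero, zero_add]
  rw [hβ, Complex.real_smul]
  push_cast
  field_simp

theorem FF_diff {n : ℕ} (hn : 0 < n) (β : Fin n → ℂ) (z : ℂ) (hz : z ∉ KK β) :
    DifferentiableAt ℂ (FF β) z := by
  have hzj : ∀ j, z ∉ segment ℝ 0 (β j) := by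
    intro j hj
    exact hz (Set.mem_iUnion.2 ⟨j, hj⟩)
  have hz0 : z ≠ 0 := by
    rintro rfl
    exact hzj ⟨0, hn⟩ (left_mem_segment ℝ _ _)
  have hfun : FF β = ∏ j, fun z => (1 - β j / z) ^ (1 / 2 : ℂ) := by
    funext w
    unfold FF
    rw [Finset.prod_apply]
  rw [hfun]
  refine DifferentiableAt.finsetProd fun j _ => ?_
  refine DifferentiableAt.cpow ?_ (differentiableAt_const _) (repA_slit (hzj j) hz0)
  refine (differentiableAt_const _).sub ?_
  exact (differentiableAt_const _).div differentiableAt_id hz0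

/-- the binomial series of `(1 - β X)^(1/2)` -/
noncomputable def repA_bs (β : ℂ) : PowerSeries ℂ :=
  PowerSeries.rescale (-β) (PowerSeries.binomialSeries ℂ (1 / 2 : ℂ))

theorem repA_bs_sq (β : ℂ) :
    repA_bs β * repA_bs β = 1 - PowerSeries.C β * PowerSeries.X := by
  unfold repA_bs
  rw [← map_mul, ← PowerSeries.binomialSeries_add]
  have h1 : (1 / 2 + 1 / 2 : ℂ) = ((1 : ℕ) : ℂ) := by norm_num
  rw [h1, PowerSeries.binomialSeries_nat, pow_one, map_add, map_one, PowerSeries.rescale_X]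
  rw [map_neg]
  ring

theorem repA_bs_coeff (β : ℂ) (k : ℕ) :
    PowerSeries.coeff k (repA_bs β) = (-β) ^ k * Ring.choose (1 / 2 : ℂ) k := by
  unfold repA_bs
  rw [PowerSeries.coeff_rescale, PowerSeries.binomialSeries_coeff]
  simp

theorem repA_bs_zero (β : ℂ) : PowerSeries.constantCoeff (repA_bs β) = 1 := by
  rw [← PowerSeries.coeff_zero_eq_constantCoeff_apply, repA_bs_coeff]
  simp

theorem repA_one (β x : ℂ) (h : ‖β * x‖ < 1) :
    Summable (fun l => ‖PowerSeries.coeff l (repA_bs β) * x ^ l‖) ∧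
      HasSum (fun l => PowerSeries.coeff l (repA_bs β) * x ^ l) ((1 - β * x) ^ (1 / 2 : ℂ)) := by
  have hterm : ∀ l, PowerSeries.coeff l (repA_bs β) * x ^ l =
      (_root_.binomialSeries ℂ (1 / 2 : ℂ)) l (fun _ => -(β * x)) := by
    intro l
    rw [repA_bs_coeff, binomialSeries_apply]
    simp only [List.ofFn_const, List.prod_replicate, smul_eq_mul]
    rw [show -(β * x) = (-β) * x by ring, mul_pow]
    ring
  have hmem : -(β * x) ∈ Metric.eball (0 : ℂ) 1 := by
    rw [Metric.mem_eball, edist_zero_right, enorm_neg, ← ofReal_norm]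
    rw [ENNReal.ofReal_lt_one]
    exact h
  have hps := Complex.one_add_cpow_hasFPowerSeriesOnBall_zero (a := (1 / 2 : ℂ))
  constructor
  · simp_rw [hterm]
    exact FormalMultilinearSeries.summable_norm_apply _ (Metric.eball_subset_eball hps.r_le hmem)
  · simp_rw [hterm]
    have := hps.hasSum hmem
    rw [zero_add] at this
    simpa [sub_eq_add_neg] using this

theorem repA_prod {ι : Type*} (s : Finset ι) (β : ι → ℂ) (x : ℂ) (h : ∀ j, ‖β j * x‖ < 1) :
    Summable (fun l => ‖PowerSeries.coeff l (∏ j ∈ s, repA_bs (β j)) * x ^ l‖) ∧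
      HasSum (fun l => PowerSeries.coeff l (∏ j ∈ s, repA_bs (β j)) * x ^ l)
        (∏ j ∈ s, (1 - β j * x) ^ (1 / 2 : ℂ)) := by
  classical
  induction s using Finset.induction_on with
  | empty =>
    simp only [Finset.prod_empty]
    have h0 : ∀ l, l ≠ 0 → PowerSeries.coeff l (1 : PowerSeries ℂ) * x ^ l = 0 := by
      intro l hl
      rw [PowerSeries.coeff_one, if_neg hl, zero_mul]
    constructor
    · refine summable_of_ne_finset_zero (s := {0}) ?_
      intro l hl
      rw [h0 l (by simpa using hl), norm_zero]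
    · have := hasSum_single 0 h0
      simpa using this
  | insert a s ha ih =>
    rw [Finset.prod_insert ha, Finset.prod_insert ha]
    obtain ⟨h1, h2⟩ := repA_one (β a) x (h a)
    obtain ⟨h3, h4⟩ := ih
    have hterm : ∀ l, PowerSeries.coeff l (repA_bs (β a) * ∏ j ∈ s, repA_bs (β j)) * x ^ l =
        ∑ p ∈ Finset.HasAntidiagonal.antidiagonal l, (PowerSeries.coeff p.1 (repA_bs (β a)) * x ^ p.1) *
          (PowerSeries.coeff p.2 (∏ j ∈ s, repA_bs (β j)) * x ^ p.2) := by
      intro l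
      rw [PowerSeries.coeff_mul, Finset.sum_mul]
      refine Finset.sum_congr rfl fun p hp => ?_
      rw [← Finset.HasAntidiagonal.mem_antidiagonal.1 hp, pow_add]
      ring
    have hsn := summable_norm_sum_mul_antidiagonal_of_summable_norm h1 h3
    simp_rw [hterm]
    refine ⟨hsn, ?_⟩
    have ht := tsum_mul_tsum_eq_tsum_sum_antidiagonal_of_summable_norm h1 h3
    rw [h2.tsum_eq, h4.tsum_eq] at ht
    rw [ht]
    exact (Summable.of_norm hsn).hasSum

theorem series {n : ℕ} (β : Fin n → ℂ) (g : PowerSeries ℂ)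
    (hg : g * g = ∏ j, (1 - PowerSeries.C (β j) * PowerSeries.X))
    (hg0 : PowerSeries.coeff 0 g = 1) (z : ℂ) (hz : ∀ j, ‖β j‖ < ‖z‖) (hz0 : z ≠ 0) :
    Summable (fun l => ‖PowerSeries.coeff l g * (z⁻¹) ^ l‖) ∧
      HasSum (fun l => PowerSeries.coeff l g * (z⁻¹) ^ l) (FF β z) := by
  have hzn : 0 < ‖z‖ := norm_pos_iff.2 hz0
  have hlt : ∀ j, ‖β j * z⁻¹‖ < 1 := by
    intro j
    rw [norm_mul, norm_inv, ← div_eq_mul_inv, div_lt_one hzn]
    exact hz j
  have hP : (∏ j, repA_bs (β j)) * (∏ j, repA_bs (β j)) =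
      ∏ j, (1 - PowerSeries.C (β j) * PowerSeries.X) := by
    rw [← Finset.prod_mul_distrib]
    exact Finset.prod_congr rfl fun j _ => repA_bs_sq (β j)
  have hP0 : PowerSeries.constantCoeff (∏ j, repA_bs (β j)) = 1 := by
    rw [map_prod]
    exact Finset.prod_eq_one fun j _ => repA_bs_zero (β j)
  have hgP : g = ∏ j, repA_bs (β j) := by
    have hz1 : g * g = (∏ j, repA_bs (β j)) * (∏ j, repA_bs (β j)) := by rw [hg, hP]
    rcases mul_self_eq_mul_self_iff.1 hz1 with h | h
    · exact h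
    · exfalso
      have h2 : PowerSeries.constantCoeff g = -1 := by
        rw [h, map_neg, hP0]
      rw [PowerSeries.coeff_zero_eq_constantCoeff_apply, h2] at hg0
      norm_num at hg0
  have h := repA_prod Finset.univ β z⁻¹ hlt
  rw [← hgP] at h
  refine ⟨h.1, ?_⟩
  have hF : FF β z = ∏ j, (1 - β j * z⁻¹) ^ (1 / 2 : ℂ) := by
    unfold FF
    simp only [div_eq_mul_inv]
  rw [hF]
  exact h.2

end Pool.H22.Lh
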