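import Pool.Agent.H22.Lh.Defs

/-!
# [H22 LH REPB] the operator dbar

* `integral_dbar`: for a C¹ function with compact support the integrals of `fderiv ℝ u z 1` and
  `fderiv ℝ u z I` vanish (integration by parts against the constant function 1, e.g.
  `integral_bilinear_hasLineDerivAt_right_eq_neg_left_of_integrable` or
  `integral_mul_fderiv_eq_neg_fderiv_mul_of_integrable`).
* `exists_step`: `s` = smooth step on `ℝ` (`Real.smoothTransition ((x - R²)/((R+1)² - R²))`),
  `χ z = s(‖z‖²)` (`Complex.normSq`), `dbar χ z = s'(‖z‖²) z`, `ρ z = s'(‖z‖²) ≥ 0`, continuous, supported in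
  `R ≤ ‖z‖ ≤ R + 1`; `∫ ρ > 0` since `ρ` is not identically zero; for `l ≠ 0` the integral
  `∫ z^l ρ` is multiplied by `c^l` under the rotation `z ↦ c z`, `‖c‖ = 1` (measure preserving), so it is
  zero (choose `c` with `c^l ≠ 1`).
-/

namespace Pool.H22.Lh

open Polynomial MeasureTheory Metric

/-- the Cauchy-Riemann operator. -/
noncomputable def dbar (u : ℂ → ℂ) (z : ℂ) : ℂ :=
  (fderiv ℝ u z 1 + Complex.I * fderiv ℝ u z Complex.I) / 2

theorem integral_fderiv_zero (u : ℂ → ℂ) (hu : ContDiff ℝ 1 u) (hs : HasCompactSupport u)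
    (v : ℂ) : ∫ z, fderiv ℝ u z v = 0 := by
  have hd : Differentiable ℝ u := hu.differentiable one_ne_zero
  have hc : Continuous fun z => fderiv ℝ u z v :=
    (hu.continuous_fderiv one_ne_zero).clm_apply continuous_const
  have hi : Integrable fun z => fderiv ℝ u z v :=
    hc.integrable_of_hasCompactSupport (hs.fderiv_apply ℝ v)
  have hiu : Integrable u := hu.continuous.integrable_of_hasCompactSupport hs
  have h := integral_smul_fderiv_eq_neg_fderiv_smul_of_integrable (μ := (volume : Measure ℂ))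
    (f := fun _ : ℂ => (1 : ℝ)) (g := u) (v := v)
    (by simp) (by simpa using hi) (by simpa using hiu)
    (fun x _ => differentiableAt_const _) (fun x _ => hd x)
  simpa using h

theorem integral_dbar (u : ℂ → ℂ) (hu : ContDiff ℝ 1 u) (hs : HasCompactSupport u) :
    ∫ z, dbar u z = 0 := by
  have hc : ∀ v : ℂ, Integrable fun z => fderiv ℝ u z v := fun v =>
    ((hu.continuous_fderiv one_ne_zero).clm_apply
      continuous_const).integrable_of_hasCompactSupport (hs.fderiv_apply ℝ v)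
  unfold dbar
  rw [integral_div, integral_add (hc 1) ((hc Complex.I).const_mul _), integral_const_mul,
    integral_fderiv_zero u hu hs, integral_fderiv_zero u hu hs]
  simp

theorem dbar_mul (u v : ℂ → ℂ) (z : ℂ) (hu : DifferentiableAt ℝ u z)
    (hv : DifferentiableAt ℝ v z) :
    dbar (fun x => u x * v x) z = dbar u z * v z + u z * dbar v z := by
  unfold dbar
  rw [fderiv_fun_mul hu hv]
  simp only [add_apply, smul_apply, smul_eq_mul]
  ring

theorem dbar_sub (u v : ℂ → ℂ) (z : ℂ) (hu : DifferentiableAt ℝ u z)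
    (hv : DifferentiableAt ℝ v z) :
    dbar (fun x => u x - v x) z = dbar u z - dbar v z := by
  unfold dbar
  rw [fderiv_fun_sub hu hv]
  simp only [sub_apply]
  ring

theorem dbar_holo (f : ℂ → ℂ) (z : ℂ) (hf : DifferentiableAt ℂ f z) : dbar f z = 0 := by
  unfold dbar
  rw [hf.fderiv_restrictScalars ℝ]
  have h : (fderiv ℂ f z) Complex.I = Complex.I * (fderiv ℂ f z) 1 := by
    rw [← smul_eq_mul, ← map_smul]
    simp
  simp only [ContinuousLinearMap.coe_restrictScalars']
  rw [h]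
  linear_combination (fderiv ℂ f z) 1 / 2 * Complex.I_mul_I

/-- smooth step on the line. -/
noncomputable def stp (R x : ℝ) : ℝ := Real.smoothTransition ((x - R ^ 2) / (2 * R + 1))

theorem stp_contDiff (R : ℝ) : ContDiff ℝ (⊤ : ℕ∞) (stp R) := by
  unfold stp
  exact Real.smoothTransition.contDiff.comp
    ((contDiff_id.sub contDiff_const).div_const _)

theorem stp_mono (R : ℝ) (hR : 0 < R) : Monotone (stp R) := by
  intro x y h
  unfold stp
  exact Real.smoothTransition.monotone (by gcongr)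

theorem stp_zero (R x : ℝ) (hR : 0 < R) (hx : x ≤ R ^ 2) : stp R x = 0 := by
  unfold stp
  exact Real.smoothTransition.zero_of_nonpos
    (div_nonpos_of_nonpos_of_nonneg (by linarith) (by linarith))

theorem stp_one (R x : ℝ) (hR : 0 < R) (hx : (R + 1) ^ 2 ≤ x) : stp R x = 1 := by
  unfold stp
  refine Real.smoothTransition.one_of_one_le ?_
  rw [le_div_iff₀ (by linarith)]
  nlinarith

theorem stp_deriv_nonneg (R : ℝ) (hR : 0 < R) (x : ℝ) : 0 ≤ deriv (stp R) x :=
  (stp_mono R hR).deriv_nonneg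

theorem stp_hasFDeriv (R : ℝ) (z : ℂ) :
    HasFDerivAt (fun z : ℂ => ((stp R (‖z‖ ^ 2) : ℝ) : ℂ))
      (Complex.ofRealCLM.comp (deriv (stp R) (‖z‖ ^ 2) •
        ((2 : ℕ) • (innerSL ℝ z)))) z := by
  have h1 : HasFDerivAt (fun z : ℂ => ‖z‖ ^ 2)
      ((2 : ℕ) • (innerSL ℝ z)) z := by
    simpa using (hasFDerivAt_id (𝕜 := ℝ) z).norm_sq
  have h2 : HasDerivAt (stp R) (deriv (stp R) (‖z‖ ^ 2)) (‖z‖ ^ 2) :=
    ((stp_contDiff R).differentiable (by simp) _).hasDerivAt
  have h3 : HasFDerivAt (fun z : ℂ => stp R (‖z‖ ^ 2))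
      (deriv (stp R) (‖z‖ ^ 2) • ((2 : ℕ) • (innerSL ℝ z))) z :=
    HasDerivAt.comp_hasFDerivAt (h₂ := stp R) (f := fun z : ℂ => ‖z‖ ^ 2) z h2 h1
  exact Complex.ofRealCLM.hasFDerivAt.comp z h3

theorem stp_dbar (R : ℝ) (z : ℂ) :
    dbar (fun z : ℂ => ((stp R (‖z‖ ^ 2) : ℝ) : ℂ)) z =
      ((deriv (stp R) (‖z‖ ^ 2) : ℝ) : ℂ) * z := by
  unfold dbar
  rw [(stp_hasFDeriv R z).fderiv]
  have h1 : (innerSL ℝ z) (1 : ℂ) = z.re := by simp [Complex.inner]
  have h2 : (innerSL ℝ z) Complex.I = z.im := by simp [Complex.inner]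
  simp only [ContinuousLinearMap.comp_apply,
    smul_apply, h1, h2, smul_eq_mul, Complex.ofRealCLM_apply, nsmul_eq_mul]
  push_cast
  have h3 : z = (z.re : ℂ) + z.im * Complex.I := (Complex.re_add_im z).symm
  linear_combination (-((deriv (stp R) (‖z‖ ^ 2) : ℝ) : ℂ)) * h3

theorem exists_step (R : ℝ) (hR : 0 < R) :
    ∃ (χ : ℂ → ℂ) (ρ : ℂ → ℝ) (κ : ℝ), ContDiff ℝ (⊤ : ℕ∞) χ ∧ (∀ z, ‖z‖ ≤ R → χ z = 0) ∧
      (∀ z, R + 1 ≤ ‖z‖ → χ z = 1) ∧ Continuous ρ ∧ (∀ z, 0 ≤ ρ z) ∧
      (∀ z, ρ z ≠ 0 → R ≤ ‖z‖ ∧ ‖z‖ ≤ R + 1) ∧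
      (∀ z, dbar χ z = (ρ z : ℂ) * z) ∧ 0 < κ ∧ ∫ z, ρ z = κ ∧
      (∀ l : ℤ, l ≠ 0 → ∫ z : ℂ, z ^ l * (ρ z : ℂ) = 0) := by
  set ρ : ℂ → ℝ := fun z => deriv (stp R) (‖z‖ ^ 2) with hρ
  have hρc : Continuous ρ := by
    have : Continuous (deriv (stp R)) := (stp_contDiff R).continuous_deriv (by simp)
    exact this.comp (by fun_prop)
  have hρ0 : ∀ z, 0 ≤ ρ z := fun z => stp_deriv_nonneg R hR _
  have hρs : ∀ z, ρ z ≠ 0 → R ≤ ‖z‖ ∧ ‖z‖ ≤ R + 1 := by
    intro z hz
    constructor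
    · by_contra h
      push Not at h
      apply hz
      have h1 : stp R =ᶠ[nhds (‖z‖ ^ 2)] fun _ => (0 : ℝ) := by
        have : ‖z‖ ^ 2 < R ^ 2 := by
          have := norm_nonneg z
          nlinarith
        filter_upwards [Iio_mem_nhds this] with x hx
        exact stp_zero R x hR (le_of_lt hx)
      show deriv (stp R) (‖z‖ ^ 2) = 0
      rw [h1.deriv_eq]
      simp
    · by_contra h
      push Not at h
      apply hz
      have h1 : stp R =ᶠ[nhds (‖z‖ ^ 2)] fun _ => (1 : ℝ) := by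
        have : (R + 1) ^ 2 < ‖z‖ ^ 2 := by
          have := norm_nonneg z
          nlinarith
        filter_upwards [Ioi_mem_nhds this] with x hx
        exact stp_one R x hR (le_of_lt hx)
      show deriv (stp R) (‖z‖ ^ 2) = 0
      rw [h1.deriv_eq]
      simp
  have hρcs : HasCompactSupport ρ := by
    refine HasCompactSupport.intro (isCompact_closedBall (0 : ℂ) (R + 1)) fun z hz => ?_
    by_contra h
    exact hz (by simpa using (hρs z h).2)
  refine ⟨fun z => ((stp R (‖z‖ ^ 2) : ℝ) : ℂ), ρ, ∫ z, ρ z, ?_, ?_, ?_, hρc, hρ0, hρs,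
    fun z => stp_dbar R z, ?_, rfl, ?_⟩
  · exact Complex.ofRealCLM.contDiff.comp ((stp_contDiff R).comp (contDiff_norm_sq ℝ))
  · intro z hz
    have : ‖z‖ ^ 2 ≤ R ^ 2 := by
      have := norm_nonneg z
      nlinarith
    simp [stp_zero R _ hR this]
  · intro z hz
    have : (R + 1) ^ 2 ≤ ‖z‖ ^ 2 := by
      have := norm_nonneg z
      nlinarith
    simp [stp_one R _ hR this]
  · -- positivity of the integral
    obtain ⟨c, hc, hc'⟩ := exists_deriv_eq_slope (stp R) (a := R ^ 2) (b := (R + 1) ^ 2)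
      (by nlinarith) (stp_contDiff R).continuous.continuousOn
      ((stp_contDiff R).differentiable (by simp)).differentiableOn
    rw [stp_zero R _ hR le_rfl, stp_one R _ hR le_rfl] at hc'
    have hcpos : 0 < c := lt_of_le_of_lt (sq_nonneg R) hc.1
    refine hρc.integral_pos_of_hasCompactSupport_nonneg_nonzero hρcs (fun z => hρ0 z)
      (x := ((Real.sqrt c : ℝ) : ℂ)) ?_
    show deriv (stp R) (‖((Real.sqrt c : ℝ) : ℂ)‖ ^ 2) ≠ 0
    rw [Complex.norm_real, Real.norm_eq_abs, sq_abs, Real.sq_sqrt hcpos.le, hc']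
    have : (0 : ℝ) < (R + 1) ^ 2 - R ^ 2 := by nlinarith
    positivity
  · -- rotation
    intro l hl
    set c : ℂ := Complex.exp (Real.pi * Complex.I / l) with hc
    have hcn : ‖c‖ = 1 := by
      have : (Real.pi * Complex.I / l : ℂ) = ((Real.pi / l : ℝ) : ℂ) * Complex.I := by
        push_cast
        ring
      rw [hc, this, Complex.norm_exp_ofReal_mul_I]
    have hcl : c ^ l = -1 := by
      rw [hc, ← Complex.exp_int_mul]
      have : (l : ℂ) * (Real.pi * Complex.I / l) = Real.pi * Complex.I := by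
        have : (l : ℂ) ≠ 0 := by exact_mod_cast hl
        field_simp
      rw [this, Complex.exp_pi_mul_I]
    let C : Circle := ⟨c, by simp [Submonoid.unitSphere, hcn]⟩
    have h1 := (LinearIsometryEquiv.measurePreserving (rotation C)).integral_comp'
      (f := (rotation C).toHomeomorph.toMeasurableEquiv) (fun z : ℂ => z ^ l * (ρ z : ℂ))
    have h2 : ∀ z : ℂ, (rotation C z) ^ l * (ρ (rotation C z) : ℂ) =
        (-1) * (z ^ l * (ρ z : ℂ)) := by
      intro z
      have e1 : rotation C z = c * z := rotation_apply C z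
      have e2 : ρ (c * z) = ρ z := by
        show deriv (stp R) (‖c * z‖ ^ 2) = deriv (stp R) (‖z‖ ^ 2)
        rw [norm_mul, hcn, one_mul]
      rw [e1, e2, mul_zpow, hcl]
      ring
    have h3 : ∫ z : ℂ, (-1) * (z ^ l * (ρ z : ℂ)) = ∫ z : ℂ, z ^ l * (ρ z : ℂ) := by
      rw [← h1]
      refine integral_congr_ae (Filter.Eventually.of_forall fun z => ?_)
      exact (h2 z).symm
    rw [integral_const_mul] at h3
    linear_combination -(1 / 2 : ℂ) * h3

end Pool.H22.Lh
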