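import Pool.Agent.H22.Lh.RepA
import Pool.Agent.H22.Lh.RepB

/-!
# [H22 LH REPC] integral representation of the coefficients

`K = KK β` compact, `R > max|β_j| + ε + 1`. `χ` smooth `ℂ → ℝ`, `0` on a neighbourhood of `K`, `1` where
`infDist z K ≥ ε` (e.g. `exists_contDiff_...`/`exists_smooth_zero_one_of_isClosed` for the disjoint closed sets
`cthickening (ε/3) K` and the complement of `thickening (2ε/3) K`), `χ_R, ρ, κ` from `exists_step`.
`u z = z^k FF β z (χ z - χ_R z)` (equal to `0` near `K`) is C¹ (even smooth) with compact support (both cutoffs are 1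
for `‖z‖ ≥ R + 1`) and `dbar u = z^k FF (dbar χ - dbar χ_R)` (`dbar_mul`, `dbar_holo`; near `K` both sides are
zero because `χ = χ_R = 0` there); `integral_dbar` gives
`∫ z^k FF dbar χ = ∫ z^k FF dbar χ_R = ∫ z^k FF ρ z = ∑_l a_l ∫ z^(k+1-l) ρ = a_(k+1) κ`
(`series`, absolutely convergent, uniformly for `R ≤ ‖z‖ ≤ R+1`: bounded by `∑ |a_l| R^(-l)` times
`(R+1)^(k+1)`; `hasSum_integral_of_summable_integral_norm`; `exists_step` for `l ≠ k+1`).
`w z = κ⁻¹ FF z dbar χ z`: continuous (`0` near `K`, product of continuous functions off `K`), compact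
support, and `w z ≠ 0` implies `0 < infDist z K ≤ ε`, hence `infDist z (segment 0 (β j)) ≤ ε` for some `j`
(finite union).
-/

namespace Pool.H22.Lh

open Polynomial MeasureTheory Metric Filter Topology Manifold

lemma repc_dbar_congr {u v : ℂ → ℂ} {z : ℂ} (h : u =ᶠ[𝓝 z] v) : dbar u z = dbar v z := by
  unfold dbar
  rw [h.fderiv_eq]

lemma repc_dbar_const (c z : ℂ) : dbar (fun _ => c) z = 0 := by
  unfold dbar
  simp

lemma repc_dbar_cont {u : ℂ → ℂ} (hu : ContDiff ℝ 1 u) : Continuous (dbar u) := by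
  unfold dbar
  have h := hu.continuous_fderiv (by norm_num)
  fun_prop

/-- the cutoff near the hedgehog -/
lemma repc_cut (K : Set ℂ) (ε : ℝ) (hε : 0 < ε) :
    ∃ χ : ℂ → ℂ, ContDiff ℝ (⊤ : ℕ∞) χ ∧ (∀ z, infDist z K ≤ ε / 3 → χ z = 0) ∧
      (∀ z, 2 * ε / 3 ≤ infDist z K → χ z = 1) := by
  have hs : IsClosed {z : ℂ | infDist z K ≤ ε / 3} :=
    isClosed_le (continuous_infDist_pt K) continuous_const
  have ht : IsClosed {z : ℂ | 2 * ε / 3 ≤ infDist z K} :=
    isClosed_le continuous_const (continuous_infDist_pt K)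
  have hd : Disjoint {z : ℂ | infDist z K ≤ ε / 3} {z : ℂ | 2 * ε / 3 ≤ infDist z K} := by
    rw [Set.disjoint_left]
    intro z h1 h2
    have h1' : infDist z K ≤ ε / 3 := h1
    have h2' : 2 * ε / 3 ≤ infDist z K := h2
    linarith
  obtain ⟨f, h0, h1, -⟩ := exists_contMDiffMap_zero_one_of_isClosed 𝓘(ℝ, ℂ) hs ht hd
  refine ⟨fun z => (f z : ℂ), ?_, ?_, ?_⟩
  · exact Complex.ofRealCLM.contDiff.comp f.contMDiff.contDiff
  · intro z hz
    have := h0 (show z ∈ {z : ℂ | infDist z K ≤ ε / 3} from hz)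
    simp only [Pi.zero_apply] at this
    show ((f z : ℝ) : ℂ) = 0
    rw [this]; simp
  · intro z hz
    have := h1 (show z ∈ {z : ℂ | 2 * ε / 3 ≤ infDist z K} from hz)
    simp only [Pi.one_apply] at this
    show ((f z : ℝ) : ℂ) = 1
    rw [this]; simp

/-- `z ^ m * ρ z` is continuous if `ρ` vanishes near zero -/
lemma repc_cont_zpow (R : ℝ) (hR : 0 < R) (ρ : ℂ → ℝ) (hρ : Continuous ρ)
    (hs : ∀ z, ρ z ≠ 0 → R ≤ ‖z‖ ∧ ‖z‖ ≤ R + 1) (m : ℤ) :
    Continuous (fun z : ℂ => z ^ m * (ρ z : ℂ)) := by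
  rw [continuous_iff_continuousAt]
  intro z
  rcases eq_or_ne z 0 with rfl | hz
  · have : (fun z : ℂ => z ^ m * (ρ z : ℂ)) =ᶠ[𝓝 0] fun _ => 0 := by
      filter_upwards [ball_mem_nhds (0 : ℂ) hR] with y hy
      have : ρ y = 0 := by
        by_contra h
        have := (hs y h).1
        rw [mem_ball_zero_iff] at hy
        linarith
      rw [this]; simp
    exact this.continuousAt
  · refine ContinuousAt.mul (continuousAt_zpow₀ z m (Or.inl hz)) ?_
    exact (Complex.continuous_ofReal.comp hρ).continuousAt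

lemma repc_supp_zpow (R : ℝ) (ρ : ℂ → ℝ)
    (hs : ∀ z, ρ z ≠ 0 → R ≤ ‖z‖ ∧ ‖z‖ ≤ R + 1) (g : ℂ → ℂ) :
    HasCompactSupport (fun z : ℂ => g z * (ρ z : ℂ)) := by
  refine HasCompactSupport.intro (isCompact_closedBall (0 : ℂ) (R + 1)) (fun z hz => ?_)
  have : ρ z = 0 := by
    by_contra h
    exact hz (mem_closedBall_zero_iff.2 (hs z h).2)
  rw [this]; simp

/-- the integral over the annulus -/
lemma repc_annulus {n : ℕ} (β : Fin n → ℂ) (g : PowerSeries ℂ)
    (hg : g * g = ∏ j, (1 - PowerSeries.C (β j) * PowerSeries.X))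
    (hg0 : PowerSeries.coeff 0 g = 1) (R : ℝ) (hR : 0 < R) (hβ : ∀ j, ‖β j‖ < R)
    (ρ : ℂ → ℝ) (κ : ℝ) (hρ : Continuous ρ) (hρ0 : ∀ z, 0 ≤ ρ z)
    (hs : ∀ z, ρ z ≠ 0 → R ≤ ‖z‖ ∧ ‖z‖ ≤ R + 1) (hκ : ∫ z, ρ z = κ)
    (hz : ∀ l : ℤ, l ≠ 0 → ∫ z : ℂ, z ^ l * (ρ z : ℂ) = 0) (k : ℕ) :
    ∫ z, z ^ k * FF β z * ((ρ z : ℂ) * z) = PowerSeries.coeff (k + 1) g * κ := by
  set a : ℕ → ℂ := fun l => PowerSeries.coeff l g with ha
  have hρi : Integrable ρ := by
    refine hρ.integrable_of_hasCompactSupport ?_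
    refine HasCompactSupport.intro (isCompact_closedBall (0 : ℂ) (R + 1)) (fun z hz => ?_)
    by_contra h
    exact hz (mem_closedBall_zero_iff.2 (hs z h).2)
  -- the summands
  let G : ℕ → ℂ → ℂ := fun l z => a l * (z ^ ((k : ℤ) + 1 - l) * (ρ z : ℂ))
  have hGi : ∀ l, Integrable (G l) := by
    intro l
    refine Integrable.const_mul ?_ _
    exact (repc_cont_zpow R hR ρ hρ hs _).integrable_of_hasCompactSupport
      (repc_supp_zpow R ρ hs _)
  have hser := (series β g hg hg0 (R : ℂ) (by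
    intro j; simpa [abs_of_pos hR] using hβ j) (by exact_mod_cast hR.ne')).1
  have hbound : ∀ l z, ‖G l z‖ ≤ (‖a l * ((R : ℂ)⁻¹) ^ l‖ * (R + 1) ^ (k + 1)) * ρ z := by
    intro l z
    by_cases h : ρ z = 0
    · simp [G, h]
    · obtain ⟨h1, h2⟩ := hs z h
      have hz0 : 0 < ‖z‖ := by linarith
      have hzne : z ≠ 0 := norm_pos_iff.1 hz0
      simp only [G, norm_mul, norm_pow, norm_inv, Complex.norm_real, Real.norm_of_nonneg (hρ0 z),
        Real.norm_of_nonneg hR.le, norm_zpow]
      have e1 : ‖z‖ ^ ((k : ℤ) + 1 - l) = ‖z‖ ^ (k + 1) * (‖z‖⁻¹) ^ l := by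
        rw [zpow_sub₀ hz0.ne', zpow_natCast, inv_pow, div_eq_mul_inv]
        congr 1
      rw [e1]
      have e2 : ‖z‖ ^ (k + 1) ≤ (R + 1) ^ (k + 1) := pow_le_pow_left₀ hz0.le h2 _
      have e3 : (‖z‖⁻¹) ^ l ≤ (R⁻¹) ^ l :=
        pow_le_pow_left₀ (by positivity) (inv_anti₀ hR h1) _
      calc ‖a l‖ * (‖z‖ ^ (k + 1) * (‖z‖⁻¹) ^ l * ρ z)
          ≤ ‖a l‖ * ((R + 1) ^ (k + 1) * (R⁻¹) ^ l * ρ z) := by
            have := hρ0 z
            gcongr
        _ = _ := by ring
  have hsum : Summable (fun l => ∫ z, ‖G l z‖) := by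
    refine Summable.of_nonneg_of_le (fun l => integral_nonneg (fun z => norm_nonneg _)) (fun l => ?_)
      ((hser.mul_right ((R + 1) ^ (k + 1))).mul_right κ)
    rw [← hκ, ← integral_const_mul]
    exact integral_mono (hGi l).norm (hρi.const_mul _) (hbound l)
  have hkey := hasSum_integral_of_summable_integral_norm hGi hsum
  have hpt : ∀ z, ∑' l, G l z = z ^ k * FF β z * ((ρ z : ℂ) * z) := by
    intro z
    by_cases h : ρ z = 0
    · simp [G, h]
    · obtain ⟨h1, h2⟩ := hs z h
      have hz0 : 0 < ‖z‖ := by linarith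
      have hzne : z ≠ 0 := norm_pos_iff.1 hz0
      have hser' := (series β g hg hg0 z (fun j => lt_of_lt_of_le (hβ j) h1) hzne).2
      have : ∀ l, G l z = (a l * (z⁻¹) ^ l) * (z ^ (k + 1) * (ρ z : ℂ)) := by
        intro l
        simp only [G]
        have e1 : z ^ ((k : ℤ) + 1 - l) = z ^ (k + 1) * (z⁻¹) ^ l := by
          rw [zpow_sub₀ hzne, zpow_natCast, inv_pow, div_eq_mul_inv]
          congr 1
        rw [e1]; ring
      simp_rw [this]
      rw [tsum_mul_right, hser'.tsum_eq]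
      ring
  simp_rw [hpt] at hkey
  have hval : ∀ l, ∫ z, G l z = if l = k + 1 then a (k + 1) * κ else 0 := by
    intro l
    simp only [G]
    rw [integral_const_mul]
    split_ifs with h
    · subst h
      have : ∀ z : ℂ, z ^ ((k : ℤ) + 1 - ((k + 1 : ℕ) : ℤ)) * (ρ z : ℂ) = (ρ z : ℂ) := by
        intro z
        have : ((k : ℤ) + 1 - ((k + 1 : ℕ) : ℤ)) = 0 := by push_cast; ring
        rw [this, zpow_zero, one_mul]
      simp_rw [this]
      rw [integral_complex_ofReal, hκ]
    · rw [hz _ (by omega), mul_zero]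
  simp_rw [hval] at hkey
  have h2 := hasSum_ite_eq (k + 1) (a (k + 1) * (κ : ℂ))
  exact hkey.unique h2

theorem rep {n : ℕ} (hn : 0 < n) (β : Fin n → ℂ) (g : PowerSeries ℂ)
    (hg : g * g = ∏ j, (1 - PowerSeries.C (β j) * PowerSeries.X))
    (hg0 : PowerSeries.coeff 0 g = 1) (ε : ℝ) (hε : 0 < ε) :
    ∃ w : ℂ → ℂ, Continuous w ∧ HasCompactSupport w ∧
      (∀ z, w z ≠ 0 → ∃ j, infDist z (segment ℝ 0 (β j)) ≤ ε) ∧
      ∀ k : ℕ, PowerSeries.coeff (k + 1) g = ∫ z, z ^ k * w z := by
  have hK : IsCompact (KK β) := KK_compact β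
  have hKne : (KK β).Nonempty := by
    refine ⟨0, ?_⟩
    rw [KK, Set.mem_iUnion]
    exact ⟨⟨0, hn⟩, left_mem_segment ℝ _ _⟩
  -- the radius
  obtain ⟨R, hRdef⟩ : ∃ R : ℝ, R = (∑ j, ‖β j‖) + ε + 1 := ⟨_, rfl⟩
  have hsum0 : 0 ≤ ∑ j, ‖β j‖ := Finset.sum_nonneg (fun j _ => norm_nonneg _)
  have hR : 0 < R := by rw [hRdef]; linarith
  have hβs : ∀ j, ‖β j‖ ≤ ∑ j, ‖β j‖ := fun j =>
    Finset.single_le_sum (f := fun j => ‖β j‖) (fun j _ => norm_nonneg _) (Finset.mem_univ j)
  have hβ : ∀ j, ‖β j‖ < R := by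
    intro j
    have := hβs j
    rw [hRdef]; linarith
  have hKb : ∀ y ∈ KK β, ‖y‖ ≤ ∑ j, ‖β j‖ := by
    intro y hy
    rw [KK, Set.mem_iUnion] at hy
    obtain ⟨j, hj⟩ := hy
    refine le_trans ?_ (hβs j)
    obtain ⟨s, t, hs0, ht0, hst, rfl⟩ := hj
    rw [smul_zero, zero_add, norm_smul, Real.norm_of_nonneg ht0]
    have : t ≤ 1 := by linarith
    exact mul_le_of_le_one_left (norm_nonneg _) this
  have hfar : ∀ z : ℂ, R ≤ ‖z‖ → ε < infDist z (KK β) := by
    intro z hz
    obtain ⟨y, hy, hd⟩ := hK.exists_infDist_eq_dist hKne z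
    rw [hd, dist_eq_norm]
    have h1 := hKb y hy
    have h2 := norm_sub_norm_le z y
    rw [hRdef] at hz
    linarith
  obtain ⟨χ, hχ, hχ0, hχ1⟩ := repc_cut (KK β) ε hε
  obtain ⟨χR, ρ, κ, hχR, hχR0, hχR1, hρ, hρ0, hρs, hdR, hκ0, hκ, hzl⟩ := exists_step R hR
  have hχ' : ContDiff ℝ 1 χ := hχ.of_le (by exact_mod_cast le_top)
  have hχR' : ContDiff ℝ 1 χR := hχR.of_le (by exact_mod_cast le_top)
  have hdχc := repc_dbar_cont hχ'
  -- near the hedgehog
  have hnear : ∀ z, infDist z (KK β) < ε / 3 →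
      (∀ᶠ y in 𝓝 z, infDist y (KK β) < ε / 3) := by
    intro z hz
    exact (continuous_infDist_pt (KK β)).continuousAt.eventually_lt continuousAt_const hz
  have hχnear : ∀ z, infDist z (KK β) < ε / 3 → χ =ᶠ[𝓝 z] fun _ => 0 := by
    intro z hz
    filter_upwards [hnear z hz] with y hy using hχ0 y hy.le
  have hχRnear : ∀ z, infDist z (KK β) < ε / 3 → χR =ᶠ[𝓝 z] fun _ => 0 := by
    intro z hz
    filter_upwards [hnear z hz] with y hy
    refine hχR0 y ?_
    by_contra h
    have := hfar y (by linarith)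
    linarith
  have hdχ0 : ∀ z, infDist z (KK β) < ε / 3 → dbar χ z = 0 := by
    intro z hz
    rw [repc_dbar_congr (hχnear z hz), repc_dbar_const]
  have hdχR0 : ∀ z, infDist z (KK β) < ε / 3 → dbar χR z = 0 := by
    intro z hz
    rw [repc_dbar_congr (hχRnear z hz), repc_dbar_const]
  have hdχfar : ∀ z, 2 * ε / 3 < infDist z (KK β) → dbar χ z = 0 := by
    intro z hz
    have : χ =ᶠ[𝓝 z] fun _ => 1 := by
      have : ∀ᶠ y in 𝓝 z, 2 * ε / 3 < infDist y (KK β) :=
        continuousAt_const.eventually_lt (continuous_infDist_pt (KK β)).continuousAt hz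
      filter_upwards [this] with y hy using hχ1 y hy.le
    rw [repc_dbar_congr this, repc_dbar_const]
  have hKmem : ∀ z, z ∈ KK β → infDist z (KK β) < ε / 3 := by
    intro z hz
    rw [infDist_zero_of_mem hz]; linarith
  -- holomorphic part
  have hopen : IsOpen (KK β)ᶜ := hK.isClosed.isOpen_compl
  have hFd : ∀ k : ℕ, ∀ z, z ∉ KK β → DifferentiableAt ℂ (fun y => y ^ k * FF β y) z :=
    fun k z hz => (differentiableAt_id.pow k).mul (FF_diff hn β z hz)
  have hFc : ∀ k : ℕ, ∀ z, z ∉ KK β → ContDiffAt ℝ 1 (fun y => y ^ k * FF β y) z := by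
    intro k z hz
    have h1 : DifferentiableOn ℂ (fun y => y ^ k * FF β y) (KK β)ᶜ :=
      fun y hy => (hFd k y hy).differentiableWithinAt
    have h2 : AnalyticAt ℂ (fun y => y ^ k * FF β y) z := h1.analyticAt (hopen.mem_nhds hz)
    exact (h2.contDiffAt (n := 1)).restrict_scalars ℝ
  -- the weight
  refine ⟨fun z => (κ : ℂ)⁻¹ * FF β z * dbar χ z, ?_, ?_, ?_, ?_⟩
  · rw [continuous_iff_continuousAt]
    intro z
    by_cases hz : infDist z (KK β) < ε / 3
    · have : (fun z => (κ : ℂ)⁻¹ * FF β z * dbar χ z) =ᶠ[𝓝 z] fun _ => 0 := by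
        filter_upwards [hnear z hz] with y hy
        rw [hdχ0 y hy, mul_zero]
      exact this.continuousAt
    · have hzK : z ∉ KK β := fun h => hz (hKmem z h)
      exact ((continuousAt_const.mul (FF_diff hn β z hzK).continuousAt)).mul hdχc.continuousAt
  · refine HasCompactSupport.intro (isCompact_closedBall (0 : ℂ) R) (fun z hz => ?_)
    have h1 : R ≤ ‖z‖ := by
      by_contra h
      exact hz (mem_closedBall_zero_iff.2 (by linarith))
    have h2 := hfar z h1
    rw [hdχfar z (by linarith), mul_zero]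
  · intro z hz
    have h1 : dbar χ z ≠ 0 := right_ne_zero_of_mul hz
    have h2 : infDist z (KK β) ≤ 2 * ε / 3 := by
      by_contra h
      exact h1 (hdχfar z (by linarith))
    obtain ⟨y, hy, hd⟩ := hK.exists_infDist_eq_dist hKne z
    rw [KK, Set.mem_iUnion] at hy
    obtain ⟨j, hj⟩ := hy
    refine ⟨j, (infDist_le_dist_of_mem hj).trans ?_⟩
    rw [← hd]; linarith
  · intro k
    -- the function u
    let u : ℂ → ℂ := fun z => (z ^ k * FF β z) * (χ z - χR z)
    have hu0 : ∀ z, infDist z (KK β) < ε / 3 → u =ᶠ[𝓝 z] fun _ => 0 := by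
      intro z hz
      filter_upwards [hχnear z hz, hχRnear z hz] with y h1 h2
      simp only [u, h1, h2, sub_zero, mul_zero]
    have huc : ContDiff ℝ 1 u := by
      rw [contDiff_iff_contDiffAt]
      intro z
      by_cases hz : infDist z (KK β) < ε / 3
      · exact contDiffAt_const.congr_of_eventuallyEq (hu0 z hz)
      · have hzK : z ∉ KK β := fun h => hz (hKmem z h)
        exact (hFc k z hzK).mul ((hχ'.contDiffAt).sub hχR'.contDiffAt)
    have hus : HasCompactSupport u := by
      refine HasCompactSupport.intro (isCompact_closedBall (0 : ℂ) (R + 1)) (fun z hz => ?_)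
      have h1 : R + 1 ≤ ‖z‖ := by
        by_contra h
        exact hz (mem_closedBall_zero_iff.2 (by linarith))
      have h2 := hfar z (by linarith)
      simp only [u]
      rw [hχ1 z (by linarith), hχR1 z h1, sub_self, mul_zero]
    have hud : ∀ z, dbar u z = z ^ k * FF β z * dbar χ z - z ^ k * FF β z * ((ρ z : ℂ) * z) := by
      intro z
      by_cases hz : infDist z (KK β) < ε / 3
      · have h2 := hdχR0 z hz
        rw [hdR] at h2
        rw [repc_dbar_congr (hu0 z hz), repc_dbar_const, hdχ0 z hz, h2]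
        ring
      · have hzK : z ∉ KK β := fun h => hz (hKmem z h)
        have h1 := dbar_mul (fun y => y ^ k * FF β y) (fun y => χ y - χR y) z
          ((hFd k z hzK).restrictScalars ℝ)
          ((hχ'.differentiable (by norm_num)).differentiableAt.sub
            (hχR'.differentiable (by norm_num)).differentiableAt)
        have h2 := dbar_holo _ z (hFd k z hzK)
        have h3 := dbar_sub χ χR z (hχ'.differentiable (by norm_num)).differentiableAt
          (hχR'.differentiable (by norm_num)).differentiableAt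
        have h4 : dbar u z = dbar (fun x => (x ^ k * FF β x) * (χ x - χR x)) z := rfl
        rw [h4, h1, h2, h3, hdR]
        ring
    have hint := integral_dbar u huc hus
    simp_rw [hud] at hint
    -- integrability
    have hi1 : Integrable (fun z => z ^ k * FF β z * dbar χ z) := by
      refine Continuous.integrable_of_hasCompactSupport ?_ ?_
      · rw [continuous_iff_continuousAt]
        intro z
        by_cases hz : infDist z (KK β) < ε / 3
        · have : (fun z => z ^ k * FF β z * dbar χ z) =ᶠ[𝓝 z] fun _ => 0 := by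
            filter_upwards [hnear z hz] with y hy
            rw [hdχ0 y hy, mul_zero]
          exact this.continuousAt
        · have hzK : z ∉ KK β := fun h => hz (hKmem z h)
          exact (hFd k z hzK).continuousAt.mul hdχc.continuousAt
      · refine HasCompactSupport.intro (isCompact_closedBall (0 : ℂ) R) (fun z hz => ?_)
        have h1 : R ≤ ‖z‖ := by
          by_contra h
          exact hz (mem_closedBall_zero_iff.2 (by linarith))
        have h2 := hfar z h1
        rw [hdχfar z (by linarith), mul_zero]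
    have hi2 : Integrable (fun z => z ^ k * FF β z * ((ρ z : ℂ) * z)) := by
      refine Continuous.integrable_of_hasCompactSupport ?_ ?_
      · rw [continuous_iff_continuousAt]
        intro z
        by_cases hz : infDist z (KK β) < ε / 3
        · have : (fun z => z ^ k * FF β z * ((ρ z : ℂ) * z)) =ᶠ[𝓝 z] fun _ => 0 := by
            filter_upwards [hnear z hz] with y hy
            have h2 := hdχR0 y hy
            rw [hdR] at h2
            rw [h2, mul_zero]
          exact this.continuousAt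
        · have hzK : z ∉ KK β := fun h => hz (hKmem z h)
          exact (hFd k z hzK).continuousAt.mul
            (((Complex.continuous_ofReal.comp hρ).mul continuous_id).continuousAt)
      · refine HasCompactSupport.intro (isCompact_closedBall (0 : ℂ) (R + 1)) (fun z hz => ?_)
        have : ρ z = 0 := by
          by_contra h
          exact hz (mem_closedBall_zero_iff.2 (hρs z h).2)
        rw [this]; simp
    rw [integral_sub hi1 hi2, repc_annulus β g hg hg0 R hR hβ ρ κ hρ hρ0 hρs hκ hzl k,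
      sub_eq_zero] at hint
    have h5 : ∀ z, z ^ k * ((κ : ℂ)⁻¹ * FF β z * dbar χ z) =
        (κ : ℂ)⁻¹ * (z ^ k * FF β z * dbar χ z) := by
      intro z; ring
    simp_rw [h5]
    rw [integral_const_mul, hint]
    have hκne : (κ : ℂ) ≠ 0 := by exact_mod_cast hκ0.ne'
    field_simp

end Pool.H22.Lh
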