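import Pool.Agent.H22.Lh.Defs

/-!
# [H22 LH SUM] sums over embeddings

`L ⊆ ℂ` a number field, `α` algebraic, `P = minpoly L α`, `F : ℂ → ℝ`. Let `M = L(α)` (as an intermediate field
of `ℂ/ℚ` or `IntermediateField.adjoin L {α}`). Count `∑_{τ : M →+* ℂ} F(τ α)` in two ways:
* fibre over `τ|_L`: the extensions of `τ₀ : L →+* ℂ` to `M = L(α)` correspond to the roots of `P^{τ₀}`
  (distinct: separable) (`IntermediateField.algHomAdjoinIntegralEquiv` with `ℂ` an `L`-algebra through `τ₀`);
* fibre over `ℚ(α)`: the value `τ α` runs over the roots of `minpoly ℚ α`, each taken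
  `[M : ℚ(α)]` times (`AlgHom.card_of_powerBasis`, `Algebra.algHom` fibres; cf. the proof of
  `Algebra.trace_eq_sum_embeddings`/`sum_embeddings_eq_finrank_mul` in Mathlib).
`[M:ℚ] = [L:ℚ] deg P = [M:ℚ(α)] deg(minpoly ℚ α)`.
`meanC_eq` is the case `α ∈ L` (`minpoly L α = X - C α`).
-/

namespace Pool.H22.Lh

open Polynomial MeasureTheory Metric NumberField

/-- sum over the embeddings of a field generated by one element = sum over the roots. -/
theorem sum_pb {K L E : Type*} [Field K] [Field L] [Field E] [Algebra K L] [Algebra K E]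
    (pb : PowerBasis K L) (hsep : IsSeparable K pb.gen) (F : E → ℝ) [ft : Fintype (L →ₐ[K] E)] :
    ∑ σ : L →ₐ[K] E, F (σ pb.gen) = (((minpoly K pb.gen).aroots E).map F).sum := by
  classical
  have h1 : ∑ σ : L →ₐ[K] E, F (σ pb.gen) =
      ∑ y : {y : E // y ∈ (minpoly K pb.gen).aroots E}, F y.1 := by
    refine Fintype.sum_equiv pb.liftEquiv' _ _ (fun σ => ?_)
    rw [PowerBasis.liftEquiv'_apply_coe]
  rw [h1, Finset.sum_mem_multiset _ _ F (fun x => rfl), Finset.sum_eq_multiset_sum,
    Multiset.toFinset_val, Multiset.dedup_eq_self.mpr]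
  exact nodup_roots ((separable_map _).mpr hsep)

theorem sum_fib {K L M E : Type*} [Field K] [Field L] [Field M] [Field E] [Algebra K L]
    [Algebra L M] [Algebra K M] [IsScalarTower K L M] [Algebra K E] [IsAlgClosed E]
    [FiniteDimensional K M] [Algebra.IsSeparable K M] [Fintype (M →ₐ[K] E)] [Fintype (L →ₐ[K] E)]
    (x : L) (F : E → ℝ) :
    ∑ σ : M →ₐ[K] E, F (σ (algebraMap L M x)) =
      (Module.finrank L M : ℝ) * ∑ σ : L →ₐ[K] E, F (σ x) := by
  classical
  have : FiniteDimensional L M := FiniteDimensional.right K L M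
  have : Algebra.IsSeparable L M := Algebra.isSeparable_tower_top_of_isSeparable K L M
  rw [Fintype.sum_equiv algHomEquivSigma (fun σ : M →ₐ[K] E => _) fun σ => F (σ.1 x),
    ← Finset.univ_sigma_univ, Finset.sum_sigma, Finset.mul_sum]
  · refine Finset.sum_congr rfl fun σ _ => ?_
    let : Algebra L E := σ.toRingHom.toAlgebra
    simp_rw [Finset.sum_const, Finset.card_univ, ← AlgHom.card L M E]
    rw [nsmul_eq_mul]
  · intro σ
    simp only [algHomEquivSigma, Equiv.coe_fn_mk, AlgHom.domRestrict, AlgHom.comp_apply,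
      IsScalarTower.coe_toAlgHom']

theorem sum_all {K M E : Type*} [Field K] [Field M] [Field E] [Algebra K M] [Algebra K E]
    [IsAlgClosed E] [FiniteDimensional K M] [Algebra.IsSeparable K M] [Fintype (M →ₐ[K] E)]
    (x : M) (F : E → ℝ) :
    ∑ σ : M →ₐ[K] E, F (σ x) =
      (Module.finrank (IntermediateField.adjoin K {x}) M : ℝ) *
        (((minpoly K x).aroots E).map F).sum := by
  classical
  have hx : IsIntegral K x := Algebra.IsIntegral.isIntegral x
  have h := sum_fib (K := K) (L := IntermediateField.adjoin K {x}) (M := M) (E := E)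
    (IntermediateField.AdjoinSimple.gen K x) F
  have hp := sum_pb (E := E) (IntermediateField.adjoin.powerBasis hx)
    (by rw [IntermediateField.adjoin.powerBasis_gen]
        exact Algebra.IsSeparable.isSeparable K _) F
  rw [IntermediateField.adjoin.powerBasis_gen, IntermediateField.minpoly_gen] at hp
  rw [IntermediateField.AdjoinSimple.algebraMap_gen] at h
  rw [h, hp]

theorem finrank_all {K M : Type*} [Field K] [Field M] [Algebra K M] [FiniteDimensional K M]
    (x : M) : Module.finrank K M =
      (minpoly K x).natDegree * Module.finrank (IntermediateField.adjoin K {x}) M := by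
  have hx : IsIntegral K x := Algebra.IsIntegral.isIntegral x
  rw [← IntermediateField.adjoin.finrank hx, Module.finrank_mul_finrank]

theorem sum_two {K L M E : Type*} [Field K] [Field L] [Field M] [Field E] [Algebra K L]
    [Algebra L M] [Algebra K M] [IsScalarTower K L M] [Algebra K E] [IsAlgClosed E]
    [FiniteDimensional K M] [Algebra.IsSeparable K M] [Fintype (M →ₐ[K] E)] [Fintype (L →ₐ[K] E)]
    (x : M) (F : E → ℝ) :
    ∑ σ : M →ₐ[K] E, F (σ x) =
      (Module.finrank (IntermediateField.adjoin L {x}) M : ℝ) *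
      ∑ τ : L →ₐ[K] E, (((minpoly L x).map (τ : L →+* E)).roots.map F).sum := by
  classical
  have : FiniteDimensional L M := FiniteDimensional.right K L M
  have : Algebra.IsSeparable L M := Algebra.isSeparable_tower_top_of_isSeparable K L M
  rw [Fintype.sum_equiv (algHomEquivSigma (B := L)) (fun σ : M →ₐ[K] E => _) fun σ => F (σ.2 x),
    ← Finset.univ_sigma_univ, Finset.sum_sigma, Finset.mul_sum]
  · refine Finset.sum_congr rfl fun σ _ => ?_
    let : Algebra L E := σ.toRingHom.toAlgebra
    exact sum_all x F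
  · intro σ
    rfl

theorem sum_tower {L M : Type*} [Field L] [Field M] [NumberField L] [NumberField M]
    [Algebra L M] (x : M) (F : ℂ → ℝ) :
    ∑ τ : L →+* ℂ, (((minpoly L x).map τ).roots.map F).sum =
      (Module.finrank ℚ L : ℝ) * (minpoly L x).natDegree *
        ((((minpoly ℚ x).aroots ℂ).map F).sum / (minpoly ℚ x).natDegree) := by
  classical
  have h1 := sum_all (K := ℚ) (M := M) (E := ℂ) x F
  have h2 := sum_two (K := ℚ) (L := L) (M := M) (E := ℂ) x F
  have h3 := finrank_all (K := ℚ) x
  have h4 := finrank_all (K := L) x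
  have h5 := Module.finrank_mul_finrank ℚ L M
  have h6 : ∑ τ : L →ₐ[ℚ] ℂ, (((minpoly L x).map (τ : L →+* ℂ)).roots.map F).sum =
      ∑ τ : L →+* ℂ, (((minpoly L x).map τ).roots.map F).sum := by
    refine (Fintype.sum_equiv (RingHom.equivRatAlgHom L ℂ) _ _ (fun τ => ?_)).symm
    rfl
  rw [h6] at h2
  rw [h1] at h2
  have h7 : 0 < Module.finrank (IntermediateField.adjoin L {x}) M := Module.finrank_pos
  have h8 : 0 < (minpoly ℚ x).natDegree :=
    minpoly.natDegree_pos (Algebra.IsIntegral.isIntegral x)
  have h7' : (0 : ℝ) < Module.finrank (IntermediateField.adjoin L {x}) M := by exact_mod_cast h7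
  have h8' : (0 : ℝ) < (minpoly ℚ x).natDegree := by exact_mod_cast h8
  have h9 : (minpoly ℚ x).natDegree *
      Module.finrank (IntermediateField.adjoin ℚ {x}) M = Module.finrank ℚ L *
      ((minpoly L x).natDegree * Module.finrank (IntermediateField.adjoin L {x}) M) := by
    rw [← h3, ← h5, ← h4]
  have h9' : ((minpoly ℚ x).natDegree : ℝ) *
      Module.finrank (IntermediateField.adjoin ℚ {x}) M = Module.finrank ℚ L *
      ((minpoly L x).natDegree * Module.finrank (IntermediateField.adjoin L {x}) M) := by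
    exact_mod_cast h9
  rw [← mul_div_assoc, eq_div_iff h8'.ne']
  refine mul_left_cancel₀ h7'.ne' ?_
  rw [← mul_assoc, ← h2]
  linear_combination ((((minpoly ℚ x).aroots ℂ).map F).sum) * h9'

theorem sum_emb (L : IntermediateField ℚ ℂ) [NumberField L] (α : ℂ)
    (hα : IsIntegral ℚ α) (F : ℂ → ℝ) :
    ∑ τ : L →+* ℂ, (((minpoly L α).map τ).roots.map F).sum =
      (Module.finrank ℚ L : ℝ) * (minpoly L α).natDegree * meanC F α := by
  have hL : IsIntegral L α := hα.tower_top
  have : FiniteDimensional L (IntermediateField.adjoin L {α}) :=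
    IntermediateField.adjoin.finiteDimensional hL
  have : FiniteDimensional ℚ (IntermediateField.adjoin L {α}) :=
    FiniteDimensional.trans ℚ L (IntermediateField.adjoin L {α})
  have : NumberField (IntermediateField.adjoin L {α}) := ⟨⟩
  have h := sum_tower (L := L) (IntermediateField.AdjoinSimple.gen L α) F
  rw [IntermediateField.minpoly_gen] at h
  have h2 : minpoly ℚ (IntermediateField.AdjoinSimple.gen L α) = minpoly ℚ α := by
    have := minpoly.algHom_eq (A := ℚ)
      ((IntermediateField.adjoin L {α}).val.restrictScalars ℚ)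
      (IntermediateField.adjoin L {α}).val.injective (IntermediateField.AdjoinSimple.gen L α)
    exact this.symm
  rw [h2] at h
  exact h

theorem meanC_eq (L : IntermediateField ℚ ℂ) [NumberField L] (α : L) (F : ℂ → ℝ) :
    ∑ τ : L →+* ℂ, F (τ α) = (Module.finrank ℚ L : ℝ) * meanC F (α : ℂ) := by
  have hα : IsIntegral ℚ (α : ℂ) :=
    (Algebra.IsIntegral.isIntegral (R := ℚ) α).map L.val
  have h := sum_emb L α hα F
  have h2 : minpoly L (α : ℂ) = X - C α := minpoly.eq_X_sub_C ℂ α
  rw [h2] at h
  simpa using h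

end Pool.H22.Lh
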